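import Pool.Agent.Lib.P4a177t.Ana

/-!
# MODULE P4a177t.LogInt: integrability (est. 1.5 h)

PROOF. `SS θ = ∏ |sin θ_j|`, `0 ≤ SS θ ≤ 1`.
`ae_SS`: for almost all `θ` no `sin θ_j` is `0` and no `|sin θ_j|` is `1` (a countable set of values
of one coordinate, e.g. `MeasureTheory.Measure` of `{θ | θ j = t}` is zero:
`MeasureTheory.Measure.pi_hyperplane` / `Real.volume` `pi`; the set of the bad values of a coordinate
is countable, e.g. `π/2 ℤ`), so `0 < SS θ < 1` if `m ≥ 1`.
`integrable_log`: for `K ≥ 0` and `0 < S ≤ 1`: `log (1 + K / S) = log (S + K) - log S ≤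
log (1 + K) - log S = log (1 + K) + ∑_j (-log |sin θ_j|)` and `log (1 + K/S) ≥ 0`. Each of the
functions `θ ↦ log |sin θ_j|` is integrable on the box: `intervalIntegrable_log_sin`
(`Mathlib/Analysis/SpecialFunctions/Integrability/...`; `Real.log |x| = Real.log x`), and a function
of one coordinate on the box (a product of intervals): `volume_preserving_piFinSuccAbove`, or
`MeasureTheory.Integrable.comp_eval`/`integrable_comp_eval` for
`Measure.pi` (`volume.restrict (Set.Icc 0 fun _ => 2π) = Measure.pi fun _ => volume.restrict (Icc 0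
(2π))`, `MeasureTheory.Measure.restrict_pi_pi`). Measurability of `θ ↦ log (1 + K / SS θ)`: clear
(`fun_prop`/`measurability`).
-/

set_option autoImplicit false

namespace P4a177t

open P4a177h Function MeasureTheory
open scoped Real

theorem measurable_SS (m : ℕ) : Measurable (SS : (Fin m → ℝ) → ℝ) := by
  unfold SS
  fun_prop

theorem SS_nonneg {m : ℕ} (θ : Fin m → ℝ) : 0 ≤ SS θ :=
  Finset.prod_nonneg fun _ _ => abs_nonneg _

theorem SS_le_one {m : ℕ} (θ : Fin m → ℝ) : SS θ ≤ 1 :=
  Finset.prod_le_one (fun _ _ => abs_nonneg _) fun _ _ => Real.abs_sin_le_one _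

theorem LogIntAux.ae_one : ∀ᵐ x : ℝ, Real.sin (2 * x) ≠ 0 := by
  have h : {x : ℝ | Real.sin (2 * x) = 0}.Countable := by
    refine (Set.countable_range fun n : ℤ => (n : ℝ) * π / 2).mono ?_
    intro x hx
    obtain ⟨n, hn⟩ := Real.sin_eq_zero_iff.1 hx
    exact ⟨n, by simp only; rw [hn]; ring⟩
  filter_upwards [h.ae_notMem volume] with x hx hx2
  exact hx hx2

theorem LogIntAux.ae_all (m : ℕ) :
    ∀ᵐ θ : Fin m → ℝ, ∀ j, Real.sin (2 * θ j) ≠ 0 := by
  rw [ae_all_iff]
  intro j
  rw [volume_pi]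
  exact (Measure.tendsto_eval_ae_ae (μ := fun _ : Fin m => (volume : Measure ℝ)) (i := j)).eventually
    LogIntAux.ae_one

theorem ae_SS {m : ℕ} (hm : 1 ≤ m) :
    ∀ᵐ θ ∂(volume.restrict (box m) : Measure (Fin m → ℝ)), 0 < SS θ ∧ SS θ < 1 := by
  refine ae_restrict_of_ae ?_
  filter_upwards [LogIntAux.ae_all m] with θ hθ
  have h1 : ∀ j, 0 < |Real.sin (θ j)| := by
    intro j
    refine abs_pos.2 fun h => hθ j ?_
    rw [Real.sin_two_mul, h]
    ring
  have h2 : ∀ j, |Real.sin (θ j)| < 1 := by
    intro j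
    refine lt_of_le_of_ne (Real.abs_sin_le_one _) fun h => hθ j ?_
    have h3 : Real.sin (θ j) ^ 2 = 1 := by rw [← sq_abs, h, one_pow]
    have h4 : Real.cos (θ j) ^ 2 = 0 := by
      have := Real.sin_sq_add_cos_sq (θ j)
      linarith
    rw [Real.sin_two_mul, pow_eq_zero_iff (two_ne_zero)] at *
    rw [h4, mul_zero]
  refine ⟨Finset.prod_pos fun j _ => h1 j, ?_⟩
  have j0 : Fin m := ⟨0, hm⟩
  unfold SS
  rw [← Finset.mul_prod_erase _ _ (Finset.mem_univ j0)]
  refine lt_of_le_of_lt (mul_le_of_le_one_right (abs_nonneg _) ?_) (h2 j0)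
  exact Finset.prod_le_one (fun _ _ => abs_nonneg _) fun _ _ => Real.abs_sin_le_one _

theorem LogIntAux.integrable_coord (m : ℕ) (j : Fin m) :
    IntegrableOn (fun θ : Fin m → ℝ => Real.log |Real.sin (θ j)|) (box m) := by
  have h1 : box m = Set.pi Set.univ fun _ : Fin m => Set.Icc (0 : ℝ) (2 * π) := by
    unfold box
    rw [← Set.pi_univ_Icc]
    rfl
  have h2 : Integrable (fun x : ℝ => Real.log |Real.sin x|)
      (volume.restrict (Set.Icc (0 : ℝ) (2 * π))) := by
    have h3 := intervalIntegrable_log_sin (a := 0) (b := 2 * π)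
    rw [intervalIntegrable_iff_integrableOn_Icc_of_le (by positivity)] at h3
    refine h3.congr (Filter.Eventually.of_forall fun x => ?_)
    simp only [Function.comp, Real.log_abs]
  unfold IntegrableOn
  rw [h1, volume_pi, Measure.restrict_pi_pi]
  exact integrable_comp_eval (μ := fun _ : Fin m => volume.restrict (Set.Icc (0 : ℝ) (2 * π)))
    (i := j) h2

theorem integrable_log (m : ℕ) {K : ℝ} (hK : 0 ≤ K) :
    IntegrableOn (fun θ : Fin m → ℝ => Real.log (1 + K / SS θ)) (box m) := by
  have hfin : volume (box m) ≠ ⊤ := by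
    unfold box
    exact isCompact_Icc.measure_lt_top.ne
  have hg : IntegrableOn (fun θ : Fin m → ℝ =>
      Real.log (1 + K) + ∑ j, -(Real.log |Real.sin (θ j)|)) (box m) := by
    refine Integrable.add (integrableOn_const hfin) ?_
    exact integrable_finsetSum _ fun j _ => (LogIntAux.integrable_coord m j).neg
  refine Integrable.mono' hg ?_ ?_
  · refine Measurable.aestronglyMeasurable ?_
    have := measurable_SS m
    fun_prop
  · refine ae_restrict_of_ae ?_
    filter_upwards [LogIntAux.ae_all m] with θ hθ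
    have h1 : ∀ j, 0 < |Real.sin (θ j)| := by
      intro j
      refine abs_pos.2 fun h => hθ j ?_
      rw [Real.sin_two_mul, h]
      ring
    have h2 : 0 < SS θ := Finset.prod_pos fun j _ => h1 j
    have h3 : 0 ≤ Real.log (1 + K / SS θ) := Real.log_nonneg (by
      have : 0 ≤ K / SS θ := div_nonneg hK h2.le
      linarith)
    rw [Real.norm_of_nonneg h3]
    have h4 : 1 + K / SS θ = (SS θ + K) / SS θ := by field_simp
    have h5 : Real.log (SS θ) = ∑ j, Real.log |Real.sin (θ j)| := by
      unfold SS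
      exact Real.log_prod fun j _ => (h1 j).ne'
    rw [h4, Real.log_div (by positivity) h2.ne', h5, Finset.sum_neg_distrib]
    have h6 : Real.log (SS θ + K) ≤ Real.log (1 + K) :=
      Real.log_le_log (by positivity) (by linarith [SS_le_one θ])
    linarith

end P4a177t
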