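import Pool.Agent.Lib.P4a177t.RootA

/-!
# MODULE P4a177t.RootC: bounds for `root` and `LL` (est. 1 h)

PROOF. Let `z = root c`, so `‖z‖ > 1`, `z - 1/z = c` (`root_sub_inv`, `one_lt_norm_root`).
`‖z‖ ≤ ‖c‖ + ‖1/z‖ ≤ ‖c‖ + 1`.
`LL c = log q`, `q = (z-1)/(z+1)`, `re q > 0` (see `LL_slit`), `q - 1/q = -4/c`.
* If `‖z‖ ≥ 8`: `q = 1 + p`, `p = -2/(z+1)`, `‖p‖ ≤ 2/(‖z‖ - 1) ≤ 1/2`, so
  `‖log q‖ ≤ 3/2 ‖p‖ ≤ 3/(‖z‖-1)` (`Complex.norm_log_one_add_half_le_self`), and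
  `‖c‖ ≤ ‖z‖ + 1`; the product is at most `3 (‖z‖+1)/(‖z‖-1) ≤ 4`.
* If `‖z‖ < 8`: `‖c‖ ≤ 9`; `‖log q‖ ≤ |log ‖q‖| + |arg q|`; `|arg q| ≤ π ≤ 4`; and
  `|log ‖q‖| ≤ 4 / ‖c‖`: if `‖q‖ ≥ 1`, `‖q‖ ≤ ‖1/q‖ + 4/‖c‖ ≤ 1 + 4/‖c‖`; if
  `‖q‖ ≤ 1`, `‖1/q‖ ≤ ‖q‖ + 4/‖c‖ ≤ 1 + 4/‖c‖`; and `log (1 + x) ≤ x`. The product is at most
  `4 + 36 = 40`.
-/

set_option autoImplicit false

namespace P4a177t

open P4a177h Function MeasureTheory
open scoped Real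

namespace RootCAux

theorem norm_inv_le_one {z : ℂ} (hz : 1 < ‖z‖) : ‖z⁻¹‖ ≤ 1 := by
  rw [norm_inv]
  exact inv_le_one_of_one_le₀ hz.le

theorem norm_root_le' {c : ℂ} (h : Good c) : ‖root c‖ ≤ ‖c‖ + 1 := by
  have h1 := root_sub_inv h
  have h2 := norm_inv_le_one (one_lt_norm_root h)
  have h3 : root c = c + (root c)⁻¹ := by linear_combination h1
  calc ‖root c‖ = ‖c + (root c)⁻¹‖ := by rw [← h3]
    _ ≤ ‖c‖ + ‖(root c)⁻¹‖ := norm_add_le _ _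
    _ ≤ ‖c‖ + 1 := by linarith

theorem norm_le_root {c : ℂ} (h : Good c) : ‖c‖ ≤ ‖root c‖ + 1 := by
  have h1 := root_sub_inv h
  have h2 := norm_inv_le_one (one_lt_norm_root h)
  calc ‖c‖ = ‖root c - (root c)⁻¹‖ := by rw [h1]
    _ ≤ ‖root c‖ + ‖(root c)⁻¹‖ := norm_sub_le _ _
    _ ≤ ‖root c‖ + 1 := by linarith

theorem add_one_ne {z : ℂ} (hz : 1 < ‖z‖) : z + 1 ≠ 0 := by
  intro h0
  have : z = -1 := by linear_combination h0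
  rw [this] at hz
  simp at hz

theorem sub_one_ne {z : ℂ} (hz : 1 < ‖z‖) : z - 1 ≠ 0 := by
  intro h0
  have : z = 1 := by linear_combination h0
  rw [this] at hz
  simp at hz

/-- large `z` -/
theorem log_large {z : ℂ} (hz : 8 ≤ ‖z‖) :
    ‖Complex.log ((z - 1) / (z + 1))‖ ≤ 3 / (‖z‖ - 1) := by
  have hz1 : 1 < ‖z‖ := by linarith
  have h1 := add_one_ne hz1
  have hq : (z - 1) / (z + 1) = 1 + (-2) / (z + 1) := by
    field_simp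
    ring
  have hn : ‖z‖ - 1 ≤ ‖z + 1‖ := by
    have := norm_sub_norm_le z (-1)
    simpa using this
  have hp : ‖(-2 : ℂ) / (z + 1)‖ ≤ 2 / (‖z‖ - 1) := by
    rw [norm_div]
    simp only [norm_neg, Complex.norm_ofNat]
    exact div_le_div_of_nonneg_left (by norm_num) (by linarith) hn
  have hp2 : 2 / (‖z‖ - 1) ≤ 1 / 2 := by
    rw [div_le_div_iff₀ (by linarith) (by norm_num)]
    linarith
  rw [hq]
  refine (Complex.norm_log_one_add_half_le_self (hp.trans hp2)).trans ?_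
  calc 3 / 2 * ‖(-2 : ℂ) / (z + 1)‖ ≤ 3 / 2 * (2 / (‖z‖ - 1)) := by gcongr
    _ = 3 / (‖z‖ - 1) := by ring

/-- the logarithm of the absolute value -/
theorem abs_log_norm {q : ℂ} (hq : q ≠ 0) {d : ℝ} (hd : ‖q - q⁻¹‖ ≤ d) :
    |Real.log ‖q‖| ≤ d := by
  have hpos : 0 < ‖q‖ := norm_pos_iff.2 hq
  have hi : ‖q⁻¹‖ = ‖q‖⁻¹ := norm_inv q
  rcases le_total 1 ‖q‖ with h1 | h1
  · rw [abs_of_nonneg (Real.log_nonneg h1)]
    have h2 : ‖q‖ - ‖q⁻¹‖ ≤ ‖q - q⁻¹‖ := norm_sub_norm_le _ _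
    have h3 : ‖q‖⁻¹ ≤ 1 := inv_le_one_of_one_le₀ h1
    have h4 := Real.log_le_sub_one_of_pos hpos
    rw [hi] at h2
    linarith
  · have h0 : Real.log ‖q‖ ≤ 0 := Real.log_nonpos hpos.le h1
    rw [abs_of_nonpos h0]
    have h2 : ‖q⁻¹‖ - ‖q‖ ≤ ‖q - q⁻¹‖ := by
      have := norm_sub_norm_le q⁻¹ q
      rwa [norm_sub_rev] at this
    have h4 := Real.log_le_sub_one_of_pos (inv_pos.2 hpos)
    rw [Real.log_inv] at h4
    rw [hi] at h2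
    linarith

theorem q_sub_inv {c z : ℂ} (hc : c ≠ 0) (hz : 1 < ‖z‖) (hzc : z - z⁻¹ = c) :
    (z - 1) / (z + 1) - ((z - 1) / (z + 1))⁻¹ = -4 / c := by
  have h1 := add_one_ne hz
  have h2 := sub_one_ne hz
  have h0 : z ≠ 0 := by
    intro h; rw [h] at hz; simp at hz; linarith
  rw [eq_div_iff hc, ← hzc]
  field_simp
  ring

end RootCAux

open RootCAux

theorem norm_root_le {c : ℂ} (h : Good c) : ‖root c‖ ≤ ‖c‖ + 1 := norm_root_le' h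

theorem norm_mul_LL_le {c : ℂ} (h : Good c) : ‖c * LL c‖ ≤ 50 := by
  have hz := one_lt_norm_root h
  have hc : c ≠ 0 := h.1
  have hcpos : 0 < ‖c‖ := norm_pos_iff.2 hc
  have hcz := norm_le_root h
  rw [norm_mul]
  rcases le_or_gt 8 ‖root c‖ with h8 | h8
  · have hL : ‖LL c‖ ≤ 3 / (‖root c‖ - 1) := log_large h8
    calc ‖c‖ * ‖LL c‖ ≤ (‖root c‖ + 1) * (3 / (‖root c‖ - 1)) := by gcongr
      _ ≤ 50 := by
        rw [mul_div_assoc', div_le_iff₀ (by linarith)]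
        linarith
  · have hq0 : (root c - 1) / (root c + 1) ≠ 0 := div_ne_zero (sub_one_ne hz) (add_one_ne hz)
    have hqq := q_sub_inv hc hz (root_sub_inv h)
    have h1 : |Real.log ‖(root c - 1) / (root c + 1)‖| ≤ 4 / ‖c‖ := by
      apply abs_log_norm hq0
      rw [hqq, norm_div]
      simp
    have h2 : ‖LL c‖ ≤ 4 / ‖c‖ + 4 := by
      refine (Complex.norm_le_abs_re_add_abs_im _).trans ?_
      rw [LL, Complex.log_re, Complex.log_im]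
      have := Complex.abs_arg_le_pi ((root c - 1) / (root c + 1))
      have hpi := Real.pi_le_four
      linarith
    calc ‖c‖ * ‖LL c‖ ≤ ‖c‖ * (4 / ‖c‖ + 4) := by gcongr
      _ = 4 + 4 * ‖c‖ := by field_simp
      _ ≤ 50 := by linarith

end P4a177t
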