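import Pool.Agent.Lib.P4a177t.RootA

/-!
# MODULE P4a177t.Circ: the products `PP` and the quotients `cc`

`circ r t - (circ r t)⁻¹ = (r - 1/r) cos t + i (r + 1/r) sin t`; estimates uniform in `θ` for `r → 1`.
-/

set_option autoImplicit false

namespace P4a177t

open P4a177h Function MeasureTheory Filter Topology
open scoped Real

theorem Circ_sub {r : ℝ} (h0 : r ≠ 0) (t : ℝ) :
    circ r t - (circ r t)⁻¹ =
      (((r - r⁻¹) * Real.cos t : ℝ) : ℂ) + (((r + r⁻¹) * Real.sin t : ℝ) : ℂ) * Complex.I := by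
  have h0' : (r : ℂ) ≠ 0 := by exact_mod_cast h0
  have e1 : Complex.exp (t * Complex.I) = Complex.cos t + Complex.sin t * Complex.I :=
    Complex.exp_mul_I _
  have e2 : (Complex.exp (t * Complex.I))⁻¹ = Complex.cos t - Complex.sin t * Complex.I := by
    rw [← Complex.exp_neg, show -((t : ℂ) * Complex.I) = (-(t : ℂ)) * Complex.I by ring,
      Complex.exp_mul_I, Complex.cos_neg, Complex.sin_neg]
    ring
  unfold circ
  rw [mul_inv, e2, e1]
  push_cast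
  ring

theorem Circ_normSq {r : ℝ} (h0 : r ≠ 0) (t : ℝ) :
    ‖circ r t - (circ r t)⁻¹‖ ^ 2 = (r - r⁻¹) ^ 2 + 4 * Real.sin t ^ 2 := by
  rw [Circ_sub h0, ← Complex.normSq_eq_norm_sq, Complex.normSq_add_mul_I]
  have h1 := Real.sin_sq_add_cos_sq t
  have h2 : Real.cos t ^ 2 = 1 - Real.sin t ^ 2 := by linarith
  rw [mul_pow, mul_pow, h2]
  field_simp
  ring

theorem circ_sub_ne {r : ℝ} (h0 : 0 < r) (h1 : r < 1) (t : ℝ) :
    circ r t - (circ r t)⁻¹ ≠ 0 := by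
  intro h
  have h2 := Circ_normSq h0.ne' t
  rw [h, norm_zero] at h2
  have h3 : r - r⁻¹ < 0 := by
    have : 1 < r⁻¹ := (one_lt_inv₀ h0).mpr h1
    linarith
  nlinarith [sq_nonneg (Real.sin t), mul_pos_of_neg_of_neg h3 h3]

theorem norm_circ_sub_ge {r : ℝ} (h0 : 0 < r) (t : ℝ) :
    2 * |Real.sin t| ≤ ‖circ r t - (circ r t)⁻¹‖ := by
  refine abs_le_of_sq_le_sq' ?_ (norm_nonneg _) |>.2
  rw [Circ_normSq h0.ne', mul_pow, sq_abs]
  nlinarith [sq_nonneg (r - r⁻¹)]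

theorem Circ_norm {r : ℝ} (h0 : 0 < r) (t : ℝ) : ‖circ r t‖ = r := by
  unfold circ
  rw [norm_mul, Complex.norm_exp_ofReal_mul_I, mul_one, Complex.norm_real, Real.norm_eq_abs,
    abs_of_pos h0]

theorem sq_slit {r : ℝ} (h0 : 0 < r) (h1 : r < 1) (t : ℝ) :
    1 - circ r t ^ 2 ∈ Complex.slitPlane := by
  left
  have h2 : ‖circ r t ^ 2‖ < 1 := by
    rw [norm_pow, Circ_norm h0]
    nlinarith
  have h3 := Complex.re_le_norm (circ r t ^ 2)
  rw [Complex.sub_re, Complex.one_re]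
  linarith

theorem PP_ne_zero {m : ℕ} {r : ℝ} (h0 : 0 < r) (h1 : r < 1) (θ : Fin m → ℝ) : PP r θ ≠ 0 :=
  Finset.prod_ne_zero_iff.mpr fun j _ => circ_sub_ne h0 h1 (θ j)

theorem Circ_fac_le {r : ℝ} (h0 : 1 / 2 ≤ r) (h1 : r ≤ 1) (t : ℝ) :
    ‖circ r t - (circ r t)⁻¹‖ ≤ 3 := by
  have hr : 0 < r := by linarith
  have h2 : ‖circ r t - (circ r t)⁻¹‖ ≤ ‖circ r t‖ + ‖(circ r t)⁻¹‖ := norm_sub_le _ _
  rw [norm_inv, Circ_norm hr] at h2
  have h3 : r⁻¹ ≤ 2 := by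
    rw [inv_le_comm₀ hr (by norm_num)]
    linarith
  linarith

theorem Circ_fac_sub {r : ℝ} (h0 : 1 / 2 ≤ r) (h1 : r ≤ 1) (t : ℝ) :
    ‖(circ r t - (circ r t)⁻¹) - (circ 1 t - (circ 1 t)⁻¹)‖ ≤ 4 * (1 - r) := by
  have hr : 0 < r := by linarith
  have e1 : (circ r t - (circ r t)⁻¹) - (circ 1 t - (circ 1 t)⁻¹) =
      (((r - r⁻¹) * Real.cos t : ℝ) : ℂ) + (((r + r⁻¹ - 2) * Real.sin t : ℝ) : ℂ) * Complex.I := by
    rw [Circ_sub hr.ne', Circ_sub one_ne_zero]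
    push_cast
    ring
  rw [e1]
  refine (norm_add_le _ _).trans ?_
  rw [norm_mul, Complex.norm_I, mul_one, Complex.norm_real, Complex.norm_real, Real.norm_eq_abs,
    Real.norm_eq_abs, abs_mul, abs_mul]
  have hi : r⁻¹ ≤ 2 := by
    rw [inv_le_comm₀ hr (by norm_num)]
    linarith
  have hi1 : 1 ≤ r⁻¹ := (one_le_inv₀ hr).mpr h1
  have hri : r * r⁻¹ = 1 := mul_inv_cancel₀ hr.ne'
  have a1 : |r - r⁻¹| = r⁻¹ - r := by
    rw [abs_sub_comm, abs_of_nonneg (by linarith)]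
  have a2 : |r + r⁻¹ - 2| = r + r⁻¹ - 2 := by
    refine abs_of_nonneg ?_
    nlinarith [mul_nonneg (sub_nonneg.mpr h1) (sub_nonneg.mpr hi1)]
  have a3 : |r - r⁻¹| * |Real.cos t| ≤ |r - r⁻¹| := mul_le_of_le_one_right (abs_nonneg _) (Real.abs_cos_le_one t)
  have a4 : |r + r⁻¹ - 2| * |Real.sin t| ≤ |r + r⁻¹ - 2| := mul_le_of_le_one_right (abs_nonneg _) (Real.abs_sin_le_one t)
  rw [a1] at a3
  rw [a2] at a4
  have a5 : r⁻¹ - 1 ≤ 2 * (1 - r) := by
    have : r⁻¹ - 1 = r⁻¹ * (1 - r) := by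
      rw [mul_sub, mul_one, mul_comm, hri]
    rw [this]
    exact mul_le_mul_of_nonneg_right hi (by linarith)
  rw [a1, a2]
  linarith

theorem Circ_PP_bound : ∀ (m : ℕ) (r : ℝ), 1 / 2 ≤ r → r ≤ 1 → ∀ θ : Fin m → ℝ,
    ‖PP r θ‖ ≤ 3 ^ m := by
  intro m r h0 h1 θ
  unfold PP
  rw [norm_prod]
  calc ∏ j, ‖circ r (θ j) - (circ r (θ j))⁻¹‖ ≤ ∏ _j : Fin m, (3:ℝ) :=
        Finset.prod_le_prod (fun _ _ => norm_nonneg _) (fun j _ => Circ_fac_le h0 h1 _)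
    _ = 3 ^ m := by simp

theorem Circ_PP_sub : ∀ (m : ℕ), ∃ C : ℝ, 0 < C ∧ ∀ r : ℝ, 1 / 2 ≤ r → r ≤ 1 → ∀ θ : Fin m → ℝ,
    ‖PP r θ - PP 1 θ‖ ≤ C * (1 - r) := by
  intro m
  induction m with
  | zero =>
    refine ⟨1, one_pos, fun r _ h1 θ => ?_⟩
    unfold PP
    simp only [Finset.univ_eq_empty, Finset.prod_empty, sub_self, norm_zero]
    linarith
  | succ m ih =>
    obtain ⟨C, hC, h⟩ := ih
    refine ⟨4 * 3 ^ m + 3 * C, by positivity, fun r h0 h1 θ => ?_⟩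
    have e1 : ∀ s : ℝ, PP s θ = (circ s (θ 0) - (circ s (θ 0))⁻¹) * PP s (fun j => θ j.succ) := fun s => by
      unfold PP
      rw [Fin.prod_univ_succ]
    rw [e1 r, e1 1]
    have e2 : (circ r (θ 0) - (circ r (θ 0))⁻¹) * PP r (fun j => θ j.succ) -
        (circ 1 (θ 0) - (circ 1 (θ 0))⁻¹) * PP 1 (fun j => θ j.succ) =
        ((circ r (θ 0) - (circ r (θ 0))⁻¹) - (circ 1 (θ 0) - (circ 1 (θ 0))⁻¹)) *
          PP r (fun j => θ j.succ) +
        (circ 1 (θ 0) - (circ 1 (θ 0))⁻¹) * (PP r (fun j => θ j.succ) - PP 1 (fun j => θ j.succ)) := by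
      ring
    rw [e2]
    refine (norm_add_le _ _).trans ?_
    rw [norm_mul, norm_mul]
    have b1 := Circ_fac_sub h0 h1 (θ 0)
    have b2 := Circ_PP_bound m r h0 h1 (fun j => θ j.succ)
    have b3 := Circ_fac_le (r := 1) (by norm_num) le_rfl (θ 0)
    have b4 := h r h0 h1 (fun j => θ j.succ)
    have c1 := mul_le_mul b1 b2 (norm_nonneg _) (by linarith)
    have c2 := mul_le_mul b3 b4 (norm_nonneg _) (by norm_num)
    calc _ ≤ 4 * (1 - r) * 3 ^ m + 3 * (C * (1 - r)) := add_le_add c1 c2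
      _ = _ := by ring

theorem Circ_PP_one {m n : ℕ} (hm : m = n + n) (θ : Fin m → ℝ) :
    PP 1 θ = (((-4) ^ n * ∏ j, Real.sin (θ j) : ℝ) : ℂ) := by
  unfold PP
  have e1 : ∀ j, circ 1 (θ j) - (circ 1 (θ j))⁻¹ =
      (2 * Complex.I) * ((Real.sin (θ j) : ℝ) : ℂ) := fun j => by
    rw [Circ_sub one_ne_zero]
    push_cast
    ring
  rw [Finset.prod_congr rfl fun j _ => e1 j, Finset.prod_mul_distrib, Finset.prod_const,
    Finset.card_univ, Fintype.card_fin]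
  have e2 : (2 * Complex.I) ^ m = (-4) ^ n := by
    rw [hm, ← two_mul, pow_mul, mul_pow, Complex.I_sq]
    norm_num
  rw [e2]
  push_cast
  ring

theorem good_cc {m : ℕ} (hm : Even m) {u : ℤ} (hu : u ≠ 0) :
    ∃ r0 : ℝ, 0 < r0 ∧ r0 < 1 ∧ ∀ r, r0 < r → r < 1 → ∀ θ : Fin m → ℝ, Good (cc u r θ) := by
  obtain ⟨n, hn⟩ := hm
  obtain ⟨C, hC, hb⟩ := Circ_PP_sub m
  have hu' : (0:ℝ) < |(u:ℝ)| := abs_pos.mpr (by exact_mod_cast hu)
  have huC : (u : ℂ) ≠ 0 := by exact_mod_cast hu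
  refine ⟨max (1 / 2) (1 - |(u:ℝ)| / (2 * C)), lt_max_of_lt_left (by norm_num), ?_, ?_⟩
  · refine max_lt (by norm_num) ?_
    have : 0 < |(u:ℝ)| / (2 * C) := by positivity
    linarith
  intro r hr hr1 θ
  have h0 : 1 / 2 < r := lt_of_le_of_lt (le_max_left _ _) hr
  have h2 : 1 - |(u:ℝ)| / (2 * C) < r := lt_of_le_of_lt (le_max_right _ _) hr
  have hrpos : 0 < r := by linarith
  have hP : PP r θ ≠ 0 := PP_ne_zero hrpos hr1 θ
  have him : |(PP r θ).im| < |(u:ℝ)| / 2 := by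
    have a1 := hb r h0.le hr1.le θ
    have a2 : (PP r θ - PP 1 θ).im = (PP r θ).im := by
      rw [Complex.sub_im, Circ_PP_one hn, Complex.ofReal_im, sub_zero]
    have a3 := Complex.abs_im_le_norm (PP r θ - PP 1 θ)
    rw [a2] at a3
    have a4 : C * (1 - r) < |(u:ℝ)| / 2 := by
      have : 1 - r < |(u:ℝ)| / (2 * C) := by linarith
      calc C * (1 - r) < C * (|(u:ℝ)| / (2 * C)) := mul_lt_mul_of_pos_left this hC
        _ = |(u:ℝ)| / 2 := by field_simp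
    linarith
  refine good_of ?_
  by_cases hre : (cc u r θ).re = 0
  · right
    have hc : cc u r θ = ((cc u r θ).im : ℂ) * Complex.I := by
      apply Complex.ext <;> simp [hre]
    have hcne : cc u r θ ≠ 0 := div_ne_zero huC hP
    set y := (cc u r θ).im with hy
    have hyne : y ≠ 0 := by
      intro h
      rw [h] at hc
      exact hcne (by simpa using hc)
    have hPeq : PP r θ = (u : ℂ) / cc u r θ := by
      unfold cc
      field_simp
    have hPre : (PP r θ).re = 0 := by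
      have hyC : (y:ℂ) ≠ 0 := by exact_mod_cast hyne
      have : PP r θ = ((-(u:ℝ) / y : ℝ) : ℂ) * Complex.I := by
        rw [hPeq, hc, div_eq_iff (mul_ne_zero hyC Complex.I_ne_zero)]
        push_cast
        calc (u:ℂ) = -(u:ℂ) * (Complex.I * Complex.I) := by rw [Complex.I_mul_I]; ring
          _ = (-(u:ℂ) / y * y) * (Complex.I * Complex.I) := by rw [div_mul_cancel₀ _ hyC]
          _ = _ := by ring
      rw [this]
      simp
    have hPn : ‖PP r θ‖ = |(PP r θ).im| := by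
      rw [← Complex.re_add_im (PP r θ), hPre]
      simp
    have hcn : ‖cc u r θ‖ = |y| := by
      rw [hc]
      simp
    have hcn2 : ‖cc u r θ‖ * ‖PP r θ‖ = |(u:ℝ)| := by
      rw [← norm_mul]
      unfold cc
      rw [div_mul_cancel₀ _ hP, Complex.norm_intCast]
    rw [hcn, hPn] at hcn2
    have hPpos : 0 < |(PP r θ).im| := by
      rw [← hPn]
      exact norm_pos_iff.mpr hP
    by_contra hcon
    push Not at hcon
    have : |y| * |(PP r θ).im| ≤ 2 * |(PP r θ).im| := mul_le_mul_of_nonneg_right hcon hPpos.le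
    linarith
  · left
    exact hre

theorem Circ_tendsto_PP {m : ℕ} (θ : Fin m → ℝ) :
    Tendsto (fun r => PP r θ) (𝓝[<] 1) (𝓝 (PP 1 θ)) := by
  unfold PP
  refine tendsto_finsetProd _ fun j _ => ?_
  have h1 : Continuous fun r : ℝ => circ r (θ j) := by
    unfold circ
    fun_prop
  have h2 : Tendsto (fun r : ℝ => circ r (θ j)) (𝓝[<] 1) (𝓝 (circ 1 (θ j))) :=
    (h1.tendsto 1).mono_left nhdsWithin_le_nhds
  have h3 : circ 1 (θ j) ≠ 0 := by
    rw [← norm_pos_iff, Circ_norm one_pos]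
    exact one_pos
  exact h2.sub (h2.inv₀ h3)

theorem tendsto_cc {m : ℕ} (hm : Even m) {u : ℤ} (hu : u ≠ 0) (θ : Fin m → ℝ) (hθ : 0 < SS θ) :
    ∃ t : ℝ, t ≠ 0 ∧ |t| = |(u : ℝ)| / (2 ^ m * SS θ) ∧
      Tendsto (fun r => cc u r θ) (𝓝[<] 1) (𝓝 (t : ℂ)) := by
  obtain ⟨n, hn⟩ := hm
  have huR : (u : ℝ) ≠ 0 := by exact_mod_cast hu
  have hS : |∏ j, Real.sin (θ j)| = SS θ := by
    unfold SS
    rw [Finset.abs_prod]
  have hSne : ∏ j, Real.sin (θ j) ≠ 0 := by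
    rw [← abs_pos, hS]
    exact hθ
  have h4 : (-4 : ℝ) ^ n ≠ 0 := pow_ne_zero _ (by norm_num)
  have hden : (-4 : ℝ) ^ n * ∏ j, Real.sin (θ j) ≠ 0 := mul_ne_zero h4 hSne
  refine ⟨(u : ℝ) / ((-4) ^ n * ∏ j, Real.sin (θ j)), div_ne_zero huR hden, ?_, ?_⟩
  · have e2 : (2:ℝ) ^ m = |(-4 : ℝ)| ^ n := by
      rw [hn, ← two_mul, pow_mul]
      norm_num
    rw [abs_div, abs_mul, hS, abs_pow, e2]
  · have h5 := Circ_tendsto_PP θ
    rw [Circ_PP_one hn] at h5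
    have h6 := (tendsto_const_nhds (x := (u : ℂ))).div h5 (by exact_mod_cast hden)
    unfold cc
    refine h6.congr' ?_ |>.trans_eq ?_
    · exact Eventually.of_forall fun r => rfl
    · congr 1
      push_cast
      rfl

theorem norm_cc_le {m : ℕ} (u : ℤ) {r : ℝ} (h0 : 0 < r) (h1 : r < 1) (θ : Fin m → ℝ)
    (hθ : 0 < SS θ) : ‖cc u r θ‖ ≤ |(u : ℝ)| / (2 ^ m * SS θ) := by
  unfold cc
  rw [norm_div, Complex.norm_intCast]
  refine div_le_div_of_nonneg_left (abs_nonneg _) (by positivity) ?_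
  unfold PP SS
  rw [norm_prod]
  calc (2:ℝ) ^ m * ∏ j, |Real.sin (θ j)| = ∏ j, (2 * |Real.sin (θ j)|) := by
        rw [Finset.prod_mul_distrib, Finset.prod_const, Finset.card_univ, Fintype.card_fin]
    _ ≤ _ := Finset.prod_le_prod (fun _ _ => by positivity) (fun j _ => norm_circ_sub_ge h0 _)

end P4a177t
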