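import Pool.Agent.Lib.P4a177t.Defs
import Pool.Agent.Lib.P4a177t.Circ

/-!
# MODULE P4a177t.TorusEx: the torus (est. 1.2 h)

PROOF. The point with the coordinates `y_0 = root (cc u r θ)`, `y_{j+1} = circ r (θ j)` satisfies
`On u y`: `∏ (y_i^2 - 1) = ∏ y_i (y_i - 1/y_i) = (∏ y_i) * cc * PP = u ∏ y_i` (`root_sub_inv`,
`PP_ne_zero`). `emb θ = lift y _` (`y_i` as units `Units.mk0`). `C²`: by `exists_mul_pow` an element
`f` of the ring satisfies `f * (mk ∏ X_i)^k = mk p`, so
`emb θ f = aeval (y θ) p / (∏ y_i θ)^k` (`lift_mk`); `aeval (y θ) p` is `C²` by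
`MvPolynomial.induction_on` (see `P4a177s.Arr.torus` in `Lib/P4a177s/TorusData.lean`) because the
`y_i` are `C²`: `root_contDiffAt` composed with `cc u r`, which is `C²` (`PP r θ ≠ 0`). Periodicity:
`circ r (t + 2 π) = circ r t`.
-/

set_option autoImplicit false

namespace P4a177t

open P4a177h Function MeasureTheory
open scoped Real

theorem circ_periodic (r t : ℝ) : circ r (t + 2 * π) = circ r t := by
  unfold circ
  congr 1
  push_cast
  rw [show ((t : ℂ) + 2 * (π : ℂ)) * Complex.I = t * Complex.I + 2 * π * Complex.I by ring]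
  exact Complex.exp_periodic _

namespace TorusExAux

/-- the coordinates of the point with the parameter `θ` -/
noncomputable def yy {m : ℕ} (u : ℤ) (r : ℝ) (θ : Fin m → ℝ) : Fin (m + 1) → ℂ :=
  Fin.cons (root (cc u r θ)) fun j => circ r (θ j)

theorem circ_ne_zero {r : ℝ} (h0 : 0 < r) (t : ℝ) : circ r t ≠ 0 :=
  mul_ne_zero (Complex.ofReal_ne_zero.2 h0.ne') (Complex.exp_ne_zero _)

theorem root_ne_zero {c : ℂ} (h : Good c) : root c ≠ 0 := by
  intro h0
  have := one_lt_norm_root h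
  rw [h0, norm_zero] at this
  linarith

theorem yy_ne_zero {m : ℕ} {u : ℤ} {r : ℝ} (h0 : 0 < r)
    (hg : ∀ θ : Fin m → ℝ, Good (cc u r θ)) (θ : Fin m → ℝ) (i : Fin (m + 1)) :
    yy u r θ i ≠ 0 := by
  refine Fin.cases ?_ (fun j => ?_) i
  · exact root_ne_zero (hg θ)
  · exact circ_ne_zero h0 _

theorem sq_sub_one {z c : ℂ} (hz : z ≠ 0) (h : z - z⁻¹ = c) : z ^ 2 - 1 = z * c := by
  rw [← h, mul_sub, mul_inv_cancel₀ hz]
  ring

theorem yy_on {m : ℕ} {u : ℤ} {r : ℝ} (h0 : 0 < r) (h1 : r < 1)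
    (hg : ∀ θ : Fin m → ℝ, Good (cc u r θ)) (θ : Fin m → ℝ) : On u (yy u r θ) := by
  unfold On
  rw [Fin.prod_univ_succ, Fin.prod_univ_succ]
  have h2 : yy u r θ 0 ^ 2 - 1 = yy u r θ 0 * cc u r θ :=
    sq_sub_one (root_ne_zero (hg θ)) (root_sub_inv (hg θ))
  have h3 : ∀ j : Fin m, yy u r θ j.succ ^ 2 - 1 =
      yy u r θ j.succ * (circ r (θ j) - (circ r (θ j))⁻¹) := fun j =>
    sq_sub_one (circ_ne_zero h0 _) rfl
  have h4 : cc u r θ * ∏ j, (circ r (θ j) - (circ r (θ j))⁻¹) = u := by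
    have := PP_ne_zero h0 h1 θ
    show (u : ℂ) / PP r θ * PP r θ = u
    exact div_mul_cancel₀ _ this
  rw [h2, Finset.prod_congr rfl fun j _ => h3 j, Finset.prod_mul_distrib, ← h4]
  ring

theorem contDiff_circ (r : ℝ) : ContDiff ℝ 2 (circ r) := by
  unfold circ
  refine contDiff_const.mul ?_
  refine ContDiff.cexp ?_
  exact Complex.ofRealCLM.contDiff.mul contDiff_const

theorem contDiff_cc {m : ℕ} {u : ℤ} {r : ℝ} (h0 : 0 < r) (h1 : r < 1) :
    ContDiff ℝ 2 fun θ : Fin m → ℝ => cc u r θ := by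
  unfold cc
  simp only [div_eq_mul_inv]
  refine contDiff_const.mul (ContDiff.inv ?_ fun θ => PP_ne_zero h0 h1 θ)
  unfold PP
  refine contDiff_prod fun j _ => ?_
  have h2 : ContDiff ℝ 2 fun θ : Fin m → ℝ => circ r (θ j) :=
    (contDiff_circ r).comp (contDiff_apply ℝ ℝ j)
  exact h2.sub (h2.inv fun θ => circ_ne_zero h0 _)

theorem contDiff_yy {m : ℕ} {u : ℤ} {r : ℝ} (h0 : 0 < r) (h1 : r < 1)
    (hg : ∀ θ : Fin m → ℝ, Good (cc u r θ)) (i : Fin (m + 1)) :
    ContDiff ℝ 2 fun θ : Fin m → ℝ => yy u r θ i := by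
  refine Fin.cases ?_ (fun j => ?_) i
  · rw [contDiff_iff_contDiffAt]
    intro θ
    exact (root_contDiffAt (hg θ)).comp θ (contDiff_cc h0 h1).contDiffAt
  · exact (contDiff_circ r).comp (contDiff_apply ℝ ℝ j)

theorem contDiff_aeval {m n : ℕ} {y : (Fin m → ℝ) → Fin n → ℂ}
    (hy : ∀ i, ContDiff ℝ 2 fun θ => y θ i) (p : MvPolynomial (Fin n) ℚ) :
    ContDiff ℝ 2 fun θ => MvPolynomial.aeval (y θ) p := by
  induction p using MvPolynomial.induction_on with
  | C a =>
    simp only [MvPolynomial.aeval_C]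
    exact contDiff_const
  | add p q hp hq =>
    simp only [map_add]
    exact hp.add hq
  | mul_X p j hp =>
    simp only [map_mul, MvPolynomial.aeval_X]
    exact hp.mul (hy j)

theorem cc_periodic {m : ℕ} (u : ℤ) (r : ℝ) (θ : Fin m → ℝ) (l : Fin m) :
    cc u r (update θ l (θ l + 2 * π)) = cc u r θ := by
  have h : ∀ j, circ r (update θ l (θ l + 2 * π) j) = circ r (θ j) := by
    intro j
    rcases eq_or_ne j l with rfl | hj
    · rw [update_self, circ_periodic]
    · rw [update_of_ne hj]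
  unfold cc PP
  simp only [h]

theorem yy_periodic {m : ℕ} (u : ℤ) (r : ℝ) (θ : Fin m → ℝ) (l : Fin m) :
    yy u r (update θ l (θ l + 2 * π)) = yy u r θ := by
  funext i
  refine Fin.cases ?_ (fun j => ?_) i
  · show root (cc u r (update θ l (θ l + 2 * π))) = root (cc u r θ)
    rw [cc_periodic]
  · show circ r (update θ l (θ l + 2 * π) j) = circ r (θ j)
    rcases eq_or_ne j l with rfl | hj
    · rw [update_self, circ_periodic]
    · rw [update_of_ne hj]

/-- `lift` only depends on the coordinates. -/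
theorem lift_congr {m : ℕ} {u : ℤ} {B : Type*} [CommRing B] [Algebra ℚ B]
    {y y' : Fin (m + 1) → Bˣ} (h : On u fun i => (y i : B)) (h' : On u fun i => (y' i : B))
    (he : y = y') : lift y h = lift y' h' := by
  subst he
  rfl

end TorusExAux

open TorusExAux in
theorem exists_torus {m : ℕ} {u : ℤ} {r : ℝ} (h0 : 0 < r) (h1 : r < 1)
    (hg : ∀ θ : Fin m → ℝ, Good (cc u r θ)) : ∃ γ : Torus m (CoordRing m u),
      (∀ (j : Fin m) (θ : Fin m → ℝ), γ.emb θ (x m u j.succ : CoordRing m u) = circ r (θ j)) ∧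
      ∀ θ : Fin m → ℝ, γ.emb θ (x m u 0 : CoordRing m u) = root (cc u r θ) := by
  have hne := yy_ne_zero (u := u) h0 hg
  have hon := yy_on h0 h1 hg
  let Y : (Fin m → ℝ) → Fin (m + 1) → ℂˣ := fun θ i => Units.mk0 (yy u r θ i) (hne θ i)
  have hY : ∀ θ, On u fun i => (Y θ i : ℂ) := fun θ => hon θ
  refine ⟨⟨fun θ => lift (Y θ) (hY θ), ?_, ?_⟩, ?_, ?_⟩
  · intro f
    obtain ⟨p, k, hp⟩ := exists_mul_pow f
    have h2 : (fun θ => lift (Y θ) (hY θ) f) = fun θ =>
        MvPolynomial.aeval (yy u r θ) p / (∏ i, yy u r θ i) ^ k := by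
      funext θ
      have h3 := congrArg (lift (Y θ) (hY θ)) hp
      rw [map_mul, map_pow, lift_mk, lift_mk] at h3
      have h4 : MvPolynomial.aeval (fun i => (Y θ i : ℂ))
          (∏ i, MvPolynomial.X i : MvPolynomial (Fin (m + 1)) ℚ) = ∏ i, yy u r θ i := by
        rw [map_prod]
        exact Finset.prod_congr rfl fun i _ => by rw [MvPolynomial.aeval_X]; rfl
      rw [h4] at h3
      have h5 : (∏ i, yy u r θ i) ^ k ≠ 0 :=
        pow_ne_zero _ (Finset.prod_ne_zero_iff.2 fun i _ => hne θ i)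
      exact (eq_div_iff h5).2 h3
    show ContDiff ℝ 2 fun θ => lift (Y θ) (hY θ) f
    rw [h2]
    simp only [div_eq_mul_inv]
    refine (contDiff_aeval (contDiff_yy h0 h1 hg) p).mul (ContDiff.inv ?_ ?_)
    · exact (contDiff_prod fun i _ => contDiff_yy h0 h1 hg i).pow k
    · intro θ
      exact pow_ne_zero _ (Finset.prod_ne_zero_iff.2 fun i _ => hne θ i)
  · intro f θ l
    have h2 : Y (update θ l (θ l + 2 * π)) = Y θ := by
      funext i
      refine Units.ext ?_
      show yy u r (update θ l (θ l + 2 * π)) i = yy u r θ i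
      rw [yy_periodic]
    show lift (Y (update θ l (θ l + 2 * π))) _ f = lift (Y θ) _ f
    rw [lift_congr (hY _) (hY θ) h2]
  · intro j θ
    exact lift_x (Y θ) (hY θ) _
  · intro θ
    exact lift_x (Y θ) (hY θ) _

end P4a177t
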