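import Pool.Agent.Lib.P4a177t.RegDiag

/-!
# MODULE P4a177t.RegConst: a consequence of `regFun_diag` (est. 0.6 h)

PROOF. `regFun_diag` with `f = 1`; all the products are `1`, `log ‖…‖ = log r` is constant.
-/

set_option autoImplicit false

namespace P4a177t

open P4a177h Function MeasureTheory
open scoped Real

theorem regFun_const {m : ℕ} {R : Type} [CommRing R] (γ : Torus m R) (a : Fin (m + 1) → Rˣ)
    {r : ℝ} (hnorm : ∀ (j : Fin m) (θ : Fin m → ℝ), ‖γ.emb θ (a j.succ : R)‖ = r)
    (hrow : ∀ (j : Fin m) (θ : Fin m → ℝ) (l : Fin m),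
      dlogRow γ (a j.succ) θ l = if l = j then 1 else 0)
    (hint : ∀ l : Fin m, ∫ θ in box m, (dlogRow γ (a 0) θ l).re = (2 * π) ^ m) :
    regFun γ a = (∫ θ in box m, Real.log ‖γ.emb θ (a 0 : R)‖) -
      m * (2 * π) ^ m * Real.log r := by
  rw [regFun_diag γ a (fun _ _ => 1) (fun _ => continuous_const) hrow]
  simp only [Finset.prod_const_one, Complex.one_re, mul_one]
  congr 1
  have h1 : ∀ k : Fin m, (∫ θ in box m, Real.log ‖γ.emb θ (a k.succ : R)‖ *
      (dlogRow γ (a 0) θ k).re) = (2 * π) ^ m * Real.log r := by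
    intro k
    simp only [hnorm]
    rw [integral_const_mul, hint k, mul_comm]
  simp only [h1, Finset.sum_const, Finset.card_univ, Fintype.card_fin, nsmul_eq_mul]
  ring

end P4a177t
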