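import Pool.Agent.Lib.P4a177h.RegMul
import Pool.Agent.Lib.P4a177h.BLcore

/-!
# MODULE P4a177t.Slit: units without values on the negative real axis (est. 0.8 h)

PROOF. `Complex.contDiffAt_log`, `ContDiffAt.restrict_scalars`, chain rule (compare
`P4a177s.log_facts` in `Lib/P4a177s/TorusData.lean`, where this is done for `-I * log (f / w)`).
The last statement: `P4a177h.integral_partial` (in `BLcore`) for `F = log (γ.emb θ b)`, times `-I`,
with `hasDerivAt_update` and `Torus.periodic`.
-/

set_option autoImplicit false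

namespace P4a177t

open P4a177h Function MeasureTheory
open scoped Real

theorem slit_contDiff {m : ℕ} {R : Type} [CommRing R] (γ : Torus m R) (b : Rˣ)
    (h : ∀ θ, γ.emb θ (b : R) ∈ Complex.slitPlane) :
    ContDiff ℝ 2 (fun θ => Complex.log (γ.emb θ (b : R))) := by
  rw [contDiff_iff_contDiffAt]
  intro θ
  have h2 : ContDiffAt ℝ 2 Complex.log (γ.emb θ (b : R)) :=
    (Complex.contDiffAt_log (h θ)).restrict_scalars ℝ
  exact h2.comp θ (γ.contDiff (b : R)).contDiffAt

theorem slit_dlogRow {m : ℕ} {R : Type} [CommRing R] (γ : Torus m R) (b : Rˣ)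
    (h : ∀ θ, γ.emb θ (b : R) ∈ Complex.slitPlane) (θ : Fin m → ℝ) (l : Fin m) :
    dlogRow γ b θ l = -Complex.I *
      fderiv ℝ (fun θ => Complex.log (γ.emb θ (b : R))) θ (Pi.single l 1) := by
  have hd : HasFDerivAt (fun θ => γ.emb θ (b : R)) (fderiv ℝ (fun θ => γ.emb θ (b : R)) θ) θ :=
    ((γ.contDiff (b : R)).differentiable (by norm_num) θ).hasFDerivAt
  have h2 := Complex.hasDerivAt_log (h θ)
  have h3 := (h2.hasFDerivAt.restrictScalars ℝ).comp θ hd
  have h5 : (fun θ => Complex.log (γ.emb θ (b : R))) =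
      Complex.log ∘ fun θ => γ.emb θ (b : R) := rfl
  have hne := emb_ne_zero γ b θ
  rw [h5, h3.fderiv]
  unfold dlogRow
  simp
  field_simp

theorem slit_integral {m : ℕ} {R : Type} [CommRing R] (γ : Torus m R) (b : Rˣ)
    (h : ∀ θ, γ.emb θ (b : R) ∈ Complex.slitPlane) (l : Fin m) :
    ∫ θ in box m, dlogRow γ b θ l = 0 := by
  refine integral_partial (fun θ => -Complex.I * Complex.log (γ.emb θ (b : R)))
    (fun θ => dlogRow γ b θ l) l (dlogRow_continuous γ b l) (fun θ => ?_) (fun θ => ?_)
  · rw [slit_dlogRow γ b h]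
    have hd : HasFDerivAt (fun θ => Complex.log (γ.emb θ (b : R)))
        (fderiv ℝ (fun θ => Complex.log (γ.emb θ (b : R))) θ) (update θ l (θ l)) := by
      rw [update_eq_self]
      exact ((slit_contDiff γ b h).differentiable (by norm_num) θ).hasFDerivAt
    exact (hd.comp_hasDerivAt (θ l) (hasDerivAt_update θ l (θ l))).const_mul (-Complex.I)
  · simp only [γ.periodic]

end P4a177t
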