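import Pool.Agent.Lib.P4a177t.RegDiag
import Pool.Agent.Lib.P4a177t.Slit
import Pool.Agent.Lib.P4a177h.UnitEntry

/-!
# MODULE P4a177t.RegLog: the regulator as the real part of a holomorphic integral

Integration by parts in each coordinate and the expansion of the imaginary part of a product.
-/

set_option autoImplicit false

namespace P4a177t

open P4a177h Function MeasureTheory
open scoped Real

theorem RegLog_ident : ∀ (m : ℕ) (z : Fin m → ℂ),
    ∑ k : Fin m, (∏ j with j < k, (z j).re) * (z k).im * (∏ j with k < j, z j).re =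
      (∏ j, z j).im := by
  intro m
  induction m with
  | zero => intro z; simp
  | succ m ih =>
    intro z
    have e1 : ∏ j, z j = z 0 * ∏ j : Fin m, z j.succ := Fin.prod_univ_succ _
    rw [e1, Complex.mul_im, ← ih (fun j => z j.succ), Fin.sum_univ_succ]
    have a0 : (∏ j with j < (0 : Fin (m + 1)), (z j).re) = 1 := by
      rw [Finset.prod_filter]
      exact Finset.prod_eq_one fun j _ => if_neg (Fin.not_lt_zero j)
    have a1 : (∏ j with (0 : Fin (m + 1)) < j, z j) = ∏ j : Fin m, z j.succ := by
      rw [Finset.prod_filter, Fin.prod_univ_succ, if_neg (lt_irrefl _), one_mul]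
      exact Finset.prod_congr rfl fun j _ => if_pos (Fin.succ_pos j)
    have a2 : ∀ k : Fin m, (∏ j with j < k.succ, (z j).re) =
        (z 0).re * ∏ j with j < k, (z j.succ).re := by
      intro k
      rw [Finset.prod_filter, Fin.prod_univ_succ, if_pos (Fin.succ_pos k), Finset.prod_filter]
      congr 1
      exact Finset.prod_congr rfl fun j _ => by simp only [Fin.succ_lt_succ_iff]
    have a3 : ∀ k : Fin m, (∏ j with k.succ < j, z j) = ∏ j with k < j, z j.succ := by
      intro k
      rw [Finset.prod_filter, Fin.prod_univ_succ, if_neg (Fin.not_lt_zero _), one_mul,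
        Finset.prod_filter]
      exact Finset.prod_congr rfl fun j _ => by simp only [Fin.succ_lt_succ_iff]
    rw [a0, a1, one_mul, Finset.mul_sum, add_comm]
    congr 1
    refine Finset.sum_congr rfl fun k _ => ?_
    rw [a2, a3]
    ring

theorem RegLog_box_int {d : ℕ} {F : (Fin d → ℝ) → ℝ} (hF : Continuous F) :
    IntegrableOn F (box d) volume :=
  hF.continuousOn.integrableOn_compact isCompact_Icc

theorem regFun_log {m : ℕ} {R : Type} [CommRing R] (γ : Torus m R) (a : Fin (m + 1) → Rˣ)
    (f : Fin m → ℝ → ℂ) (hf : ∀ j, Continuous (f j))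
    (hrow : ∀ (j : Fin m) (θ : Fin m → ℝ) (l : Fin m),
      dlogRow γ (a j.succ) θ l = if l = j then f j (θ j) else 0)
    (g : Fin m → ℝ → ℝ)
    (hlog : ∀ (j : Fin m) (θ : Fin m → ℝ), Real.log ‖γ.emb θ (a j.succ : R)‖ = g j (θ j))
    (hslit : ∀ θ, γ.emb θ (a 0 : R) ∈ Complex.slitPlane) :
    regFun γ a = ∫ θ in box m,
      (Complex.log (γ.emb θ (a 0 : R)) * ∏ j, f j (θ j)).re := by
  set L : (Fin m → ℝ) → ℂ := fun θ => Complex.log (γ.emb θ (a 0 : R)) with hL
  have hLc : ContDiff ℝ 2 L := slit_contDiff γ (a 0) hslit
  set DL : Fin m → (Fin m → ℝ) → ℂ := fun k θ => fderiv ℝ L θ (Pi.single k 1) with hDL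
  have hDLc : ∀ k, Continuous (DL k) := fun k => (contDiff_fderiv_apply L hLc _).continuous
  have hLcont : Continuous L := hLc.continuous
  have hrow0 : ∀ θ k, (dlogRow γ (a 0) θ k).re = (DL k θ).im := by
    intro θ k
    rw [slit_dlogRow γ (a 0) hslit θ k]
    simp [hDL, hL]
  -- the derivative of g
  have hg : ∀ (j : Fin m) (t : ℝ), HasDerivAt (g j) (-(f j t).im) t := by
    intro j t
    have h1 := hasDerivAt_emb γ (a j.succ : R) (fun _ => t) j
    have h2 := hasDerivAt_logNorm h1 (emb_ne_zero γ (a j.succ) _)
    have h3 : (fun s => Real.log ‖γ.emb (update (fun _ => t) j s) (a j.succ : R)‖) = g j := by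
      funext s
      rw [hlog j, update_self]
    rw [h3] at h2
    refine h2.congr_deriv ?_
    have h4 : update (fun _ : Fin m => t) j t = fun _ => t := by
      funext i
      by_cases hi : i = j
      · subst hi; simp
      · simp [update_of_ne hi]
    rw [h4]
    have h5 := hrow j (fun _ => t) j
    rw [if_pos rfl] at h5
    unfold dlogRow at h5
    rw [← h5]
    simp
  have hgc : ∀ j, Continuous (g j) := fun j =>
    continuous_iff_continuousAt.mpr fun t => (hg j t).continuousAt
  have hgper : ∀ (j : Fin m) (t : ℝ), g j (t + 2 * π) = g j t := by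
    intro j t
    have h1 := γ.periodic (a j.succ : R) (fun _ => t) j
    have h2 := hlog j (update (fun _ => t) j (t + 2 * π))
    have h3 := hlog j (fun _ => t)
    rw [update_self] at h2
    rw [h1] at h2
    rw [← h2, ← h3]
  -- the constant factor
  set C : Fin m → (Fin m → ℝ) → ℝ := fun k θ =>
    (∏ j with j < k, (f j (θ j)).re) * (∏ j with k < j, f j (θ j)).re with hC
  have hCc : ∀ k, Continuous (C k) := by
    intro k
    have c1 : ∀ j : Fin m, Continuous fun θ : Fin m → ℝ => f j (θ j) := fun j =>
      (hf j).comp (continuous_apply j)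
    exact (continuous_finsetProd _ fun j _ => Complex.continuous_re.comp (c1 j)).mul
      (Complex.continuous_re.comp (continuous_finsetProd _ fun j _ => c1 j))
  have hCu : ∀ k θ s, C k (update θ k s) = C k θ := by
    intro k θ s
    simp only [hC]
    congr 1
    · refine Finset.prod_congr rfl fun j hj => ?_
      rw [Finset.mem_filter] at hj
      rw [update_of_ne hj.2.ne]
    · congr 1
      refine Finset.prod_congr rfl fun j hj => ?_
      rw [Finset.mem_filter] at hj
      rw [update_of_ne hj.2.ne']
  -- integration by parts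
  have hibp : ∀ k : Fin m, ∫ θ in box m, g k (θ k) * (DL k θ).im * C k θ =
      ∫ θ in box m, (L θ).im * (f k (θ k)).im * C k θ := by
    intro k
    have cg : Continuous fun θ : Fin m → ℝ => g k (θ k) := (hgc k).comp (continuous_apply k)
    have cf : Continuous fun θ : Fin m → ℝ => (f k (θ k)).im :=
      Complex.continuous_im.comp ((hf k).comp (continuous_apply k))
    have cB : Continuous fun θ : Fin m → ℝ => (L θ).im := Complex.continuous_im.comp hLcont
    have cD : Continuous fun θ : Fin m → ℝ => (DL k θ).im := Complex.continuous_im.comp (hDLc k)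
    have c1 : Continuous fun θ : Fin m → ℝ => g k (θ k) * (DL k θ).im * C k θ :=
      (cg.mul cD).mul (hCc k)
    have c2 : Continuous fun θ : Fin m → ℝ => (L θ).im * (f k (θ k)).im * C k θ :=
      (cB.mul cf).mul (hCc k)
    have hz := integral_partial
      (fun θ => (((L θ).im * g k (θ k) * C k θ : ℝ) : ℂ))
      (fun θ => ((g k (θ k) * (DL k θ).im * C k θ - (L θ).im * (f k (θ k)).im * C k θ : ℝ) : ℂ)) k
      (Complex.continuous_ofReal.comp (c1.sub c2)) (by
        intro θ
        have hBd : HasDerivAt (fun s => (L (update θ k s)).im) (DL k θ).im (θ k) := by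
          have hd : DifferentiableAt ℝ L (update θ k (θ k)) := hLc.differentiable (by norm_num) _
          have h := hd.hasFDerivAt.comp_hasDerivAt (θ k) (hasDerivAt_update θ k (θ k))
          rw [update_eq_self] at h
          exact Complex.imCLM.hasFDerivAt.comp_hasDerivAt (θ k) h
        have hgd : HasDerivAt (fun s => g k (update θ k s k)) (-(f k (θ k)).im) (θ k) := by
          simp only [update_self]
          exact hg k (θ k)
        have h6 := ((hBd.mul hgd).mul_const (C k θ)).ofReal_comp
        have h7 : (fun s => (((L (update θ k s)).im * g k (update θ k s k) *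
            C k (update θ k s) : ℝ) : ℂ)) =
            fun s => (((L (update θ k s)).im * g k (update θ k s k) * C k θ : ℝ) : ℂ) := by
          funext s
          rw [hCu]
        rw [h7]
        refine h6.congr_deriv ?_
        rw [update_eq_self]
        congr 1
        ring) (by
        intro θ
        simp only [update_self, hCu, hgper]
        have : L (update θ k (θ k + 2 * π)) = L θ := by
          simp only [hL]
          rw [γ.periodic]
        rw [this])
    have hz' : ∫ θ in box m, (g k (θ k) * (DL k θ).im * C k θ - (L θ).im * (f k (θ k)).im * C k θ) = 0 := by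
      have hz2 := integral_ofReal (𝕜 := ℂ) (μ := volume.restrict (box m))
        (f := fun θ => g k (θ k) * (DL k θ).im * C k θ - (L θ).im * (f k (θ k)).im * C k θ)
      have hz3 := hz2.symm.trans hz
      exact Complex.ofReal_eq_zero.mp hz3
    rw [integral_sub (RegLog_box_int c1) (RegLog_box_int c2)] at hz'
    linarith
  rw [regFun_diag γ a f hf hrow]
  have hsum : (∑ k : Fin m, ∫ θ in box m, Real.log ‖γ.emb θ (a k.succ : R)‖ *
      (dlogRow γ (a 0) θ k).re *
        ((∏ j with j < k, (f j (θ j)).re) * (∏ j with k < j, f j (θ j)).re)) =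
      ∫ θ in box m, (L θ).im * (∏ j, f j (θ j)).im := by
    have e1 : ∀ k : Fin m, (∫ θ in box m, Real.log ‖γ.emb θ (a k.succ : R)‖ *
      (dlogRow γ (a 0) θ k).re *
        ((∏ j with j < k, (f j (θ j)).re) * (∏ j with k < j, f j (θ j)).re)) =
        ∫ θ in box m, (L θ).im * (f k (θ k)).im * C k θ := by
      intro k
      rw [← hibp k]
      congr 1
      funext θ
      rw [hlog k, hrow0]
    rw [Finset.sum_congr rfl fun k _ => e1 k]
    rw [← integral_finsetSum]
    · congr 1
      funext θ
      rw [← RegLog_ident m (fun j => f j (θ j)), Finset.mul_sum]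
      refine Finset.sum_congr rfl fun k _ => ?_
      simp only [hC]
      ring
    · intro k _
      have cf : Continuous fun θ : Fin m → ℝ => (f k (θ k)).im :=
        Complex.continuous_im.comp ((hf k).comp (continuous_apply k))
      have cB : Continuous fun θ : Fin m → ℝ => (L θ).im := Complex.continuous_im.comp hLcont
      exact RegLog_box_int ((cB.mul cf).mul (hCc k))
  rw [hsum]
  have cP : Continuous fun θ : Fin m → ℝ => ∏ j, f j (θ j) :=
    continuous_finsetProd _ fun j _ => (hf j).comp (continuous_apply j)
  have hre : ∀ θ, Real.log ‖γ.emb θ (a 0 : R)‖ = (L θ).re := fun θ => by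
    rw [hL]
    simp only
    rw [Complex.log_re]
  have c3 : Continuous fun θ : Fin m → ℝ => Real.log ‖γ.emb θ (a 0 : R)‖ * (∏ j, f j (θ j)).re := by
    simp only [hre]
    exact (Complex.continuous_re.comp hLcont).mul (Complex.continuous_re.comp cP)
  have c4 : Continuous fun θ : Fin m → ℝ => (L θ).im * (∏ j, f j (θ j)).im :=
    (Complex.continuous_im.comp hLcont).mul (Complex.continuous_im.comp cP)
  rw [← integral_sub (RegLog_box_int c3) (RegLog_box_int c4)]
  congr 1
  funext θ
  rw [hre, Complex.mul_re]

end P4a177t
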