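import Pool.Agent.Lib.P4a177t.TorusEx
import Pool.Agent.Lib.P4a177t.RegConst
import Pool.Agent.Lib.P4a177t.RegLog
import Pool.Agent.Lib.P4a177s.TorusData

/-!
# The regulators of the symbols `{x_i}` and `{w_i}` along the torus

PROOF of `reg_x`. `regFun_const` with `a = x m u`. `‖circ r t‖ = r`; `dlogRow γ (x j.succ)` is
`P4a177s.fderiv_circle`. `hint`: in the coordinate ring
`x_0 * (1 - x_0^{-2}) * ∏_j (1 - x_{j+1}^2) = u * (-1)^m * ∏_j x_{j+1}` (from `x_on`:
`∏ (x_i^2 - 1) = u ∏ x_i`). Let `b_j = 1 - x_{j+1}^2` and `b = 1 - x_0^{-2}`, units (see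
`isUnit_sq_sub_one`). The values of `b_j` on the torus are in the slit plane (`sq_slit`), and those
of `b` too (`‖root‖ > 1`, so `re (1 - root^{-2}) > 0`). So (`dlogRow_mul`,
`P4a177s.dlogRow_prod'`, the `dlogRow` of an integer is `0`:)
`dlogRow (x 0) = ∑_j dlogRow (x j.succ) - ∑_j dlogRow b_j - dlogRow b`, the integral of its
component `l` over the box is `(2π)^m - 0 - 0` (`slit_integral`), and the same for the real part.
PROOF of `reg_w`. `regFun_log` with `a = w m hu`,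
`f j t = 2 / (circ r t - (circ r t)⁻¹)`, `g j t = log ‖(circ r t - 1) / (circ r t + 1)‖`:
`γ.emb θ (w j.succ) = (circ r (θ j) - 1) / (circ r (θ j) + 1)` (`mob_spec`), and
`-I ∂_l log` of this is `0` for `l ≠ j` and for `l = j`:
`-I * (2 / (z^2 - 1)) * z' = 2 z / (z^2 - 1) = 2 / (z - 1/z)`, `z = circ r t`, `z' = I z`.
`γ.emb θ (w 0) = (root - 1)/(root + 1)` is in the slit plane (`LL_slit`), its logarithm is `LL`.
`∏_j f j (θ j) = 2^m / PP r θ`.
-/

set_option autoImplicit false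

namespace P4a177t

open P4a177h Function MeasureTheory
open scoped Real

namespace TorRegAux

theorem norm_circ {r : ℝ} (h0 : 0 < r) (t : ℝ) : ‖circ r t‖ = r := by
  rw [circ, norm_mul, Complex.norm_exp_ofReal_mul_I, mul_one, Complex.norm_real,
    Real.norm_of_nonneg h0.le]

theorem circ_ne {r : ℝ} (h0 : 0 < r) (t : ℝ) : circ r t ≠ 0 := by
  rw [← norm_pos_iff, norm_circ h0]
  exact h0

theorem continuous_circ (r : ℝ) : Continuous (circ r) := by
  unfold circ
  fun_prop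

theorem dlogRow_intCast {d : ℕ} {R : Type*} [CommRing R] (γ : Torus d R) (v : Rˣ) (N : ℤ)
    (hu : (v : R) = N) (θ : Fin d → ℝ) : dlogRow γ v θ = 0 := by
  funext l
  unfold dlogRow
  simp [hu]

theorem dlogRow_neg {d : ℕ} {R : Type*} [CommRing R] (γ : Torus d R) (v : Rˣ)
    (θ : Fin d → ℝ) : dlogRow γ (-v) θ = dlogRow γ v θ := by
  rw [← neg_one_mul, dlogRow_mul, dlogRow_intCast γ (-1) (-1) (by simp), zero_add]

theorem dlogRow_inv {d : ℕ} {R : Type*} [CommRing R] (γ : Torus d R) (v : Rˣ)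
    (θ : Fin d → ℝ) : dlogRow γ v⁻¹ θ = -dlogRow γ v θ := by
  have h := dlogRow_mul γ v v⁻¹ θ
  rw [mul_inv_cancel, P4a177s.dlogRow_one'] at h
  exact (neg_eq_of_add_eq_zero_right h.symm).symm

theorem integral_one (m : ℕ) : ∫ _ in box m, (1 : ℂ) = (2 * π) ^ m := by
  rw [setIntegral_const, Measure.real, box, Real.volume_Icc_pi_toReal]
  · simp
  · intro i
    simp [Real.pi_pos.le]

theorem integrable_dlogRow {d : ℕ} {R : Type*} [CommRing R] (γ : Torus d R) (v : Rˣ)
    (l : Fin d) : IntegrableOn (fun θ => dlogRow γ v θ l) (box d) :=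
  (dlogRow_continuous γ v l).continuousOn.integrableOn_compact isCompact_Icc

theorem slit_inv_sq {z : ℂ} (hz : 1 < ‖z‖) : (z ^ 2 - 1) / z ^ 2 ∈ Complex.slitPlane := by
  left
  have hz0 : z ≠ 0 := by
    rw [← norm_pos_iff]
    linarith
  have h1 : (z ^ 2 - 1) / z ^ 2 = 1 - (z ^ 2)⁻¹ := by
    field_simp
  have h2 : ‖(z ^ 2)⁻¹‖ < 1 := by
    rw [norm_inv, norm_pow]
    exact inv_lt_one_of_one_lt₀ (one_lt_pow₀ hz (by norm_num))
  have h3 := (Complex.abs_re_le_norm (z ^ 2)⁻¹).trans_lt h2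
  rw [h1, Complex.sub_re, Complex.one_re]
  have h4 := (abs_lt.1 h3).2
  linarith

variable {m : ℕ} {u : ℤ}

theorem hrow_x {r : ℝ} (h0 : 0 < r) (γ : Torus m (CoordRing m u))
    (hγ : ∀ (j : Fin m) (θ : Fin m → ℝ), γ.emb θ (x m u j.succ : CoordRing m u) = circ r (θ j))
    (j : Fin m) (θ : Fin m → ℝ) (l : Fin m) :
    dlogRow γ (x m u j.succ) θ l = if l = j then 1 else 0 := by
  have h := P4a177s.fderiv_circle r h0 j l θ
  unfold dlogRow
  have e : (fun θ => γ.emb θ (x m u j.succ : CoordRing m u)) =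
      fun θ : Fin m → ℝ => (r : ℂ) * Complex.exp (θ j * Complex.I) := by
    funext θ
    exact hγ j θ
  rw [e, hγ]
  unfold circ
  rw [h]
  simp only [eq_comm]

/-- the unit `x_i ^ 2 - 1` -/
noncomputable def sq (m : ℕ) {u : ℤ} (hu : u ≠ 0) (i : Fin (m + 1)) : (CoordRing m u)ˣ :=
  (isUnit_sq_sub_one hu (x m u) (x_on m u) i).unit

theorem sq_val (hu : u ≠ 0) (i : Fin (m + 1)) :
    (sq m hu i : CoordRing m u) = (x m u i : CoordRing m u) ^ 2 - 1 := IsUnit.unit_spec _

theorem prod_sq (hu : u ≠ 0) : ∏ i, sq m hu i =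
    (isUnit_intCast (B := CoordRing m u) hu).unit * ∏ i, x m u i := by
  refine Units.ext ?_
  rw [Units.coe_prod, Units.val_mul, Units.coe_prod, IsUnit.unit_spec]
  simp only [sq_val]
  exact x_on m u

theorem dlogRow_x0 (hu : u ≠ 0) (γ : Torus m (CoordRing m u)) (θ : Fin m → ℝ) :
    dlogRow γ (x m u 0) θ = (∑ j : Fin m, dlogRow γ (x m u j.succ) θ) -
      (∑ j : Fin m, dlogRow γ (-sq m hu j.succ) θ) -
      dlogRow γ (sq m hu 0 * ((x m u 0) ^ 2)⁻¹) θ := by
  have h : dlogRow γ (∏ i, sq m hu i) θ = dlogRow γ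
      ((isUnit_intCast (B := CoordRing m u) hu).unit * ∏ i, x m u i) θ := by
    rw [prod_sq]
  rw [dlogRow_mul, dlogRow_intCast γ (isUnit_intCast (B := CoordRing m u) hu).unit u
    (IsUnit.unit_spec _), zero_add, P4a177s.dlogRow_prod', P4a177s.dlogRow_prod',
    Fin.sum_univ_succ, Fin.sum_univ_succ] at h
  simp only [dlogRow_neg]
  rw [dlogRow_mul, dlogRow_inv, pow_two, dlogRow_mul]
  have h2 : dlogRow γ (sq m hu 0) θ = dlogRow γ (x m u 0) θ +
      ∑ i : Fin m, dlogRow γ (x m u i.succ) θ - ∑ i : Fin m, dlogRow γ (sq m hu i.succ) θ := by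
    rw [← h]
    abel
  rw [h2]
  abel

theorem hint_x (hu : u ≠ 0) {r : ℝ} (h0 : 0 < r) (h1 : r < 1)
    (hg : ∀ θ : Fin m → ℝ, Good (cc u r θ)) (γ : Torus m (CoordRing m u))
    (hγ : ∀ (j : Fin m) (θ : Fin m → ℝ), γ.emb θ (x m u j.succ : CoordRing m u) = circ r (θ j))
    (hγ0 : ∀ θ : Fin m → ℝ, γ.emb θ (x m u 0 : CoordRing m u) = root (cc u r θ)) (l : Fin m) :
    ∫ θ in box m, (dlogRow γ (x m u 0) θ l).re = (2 * π) ^ m := by
  have hs1 : ∀ j : Fin m, ∫ θ in box m, dlogRow γ (-sq m hu j.succ) θ l = 0 := by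
    intro j
    refine slit_integral γ _ (fun θ => ?_) l
    have : γ.emb θ ((-sq m hu j.succ : (CoordRing m u)ˣ) : CoordRing m u) =
        1 - circ r (θ j) ^ 2 := by
      rw [Units.val_neg, sq_val, map_neg, map_sub, map_pow, map_one, hγ]
      ring
    rw [this]
    exact sq_slit h0 h1 _
  have hs2 : ∫ θ in box m, dlogRow γ (sq m hu 0 * ((x m u 0) ^ 2)⁻¹) θ l = 0 := by
    refine slit_integral γ _ (fun θ => ?_) l
    have hn := one_lt_norm_root (hg θ)
    have hn0 : root (cc u r θ) ≠ 0 := by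
      rw [← norm_pos_iff]
      linarith
    have : γ.emb θ ((sq m hu 0 * ((x m u 0) ^ 2)⁻¹ : (CoordRing m u)ˣ) : CoordRing m u) =
        (root (cc u r θ) ^ 2 - 1) / root (cc u r θ) ^ 2 := by
      rw [eq_div_iff (pow_ne_zero 2 hn0)]
      have e := congrArg (γ.emb θ) (congrArg (Units.val : (CoordRing m u)ˣ → CoordRing m u)
        (inv_mul_cancel_right (sq m hu 0) ((x m u 0) ^ 2)))
      rw [Units.val_mul, map_mul, Units.val_pow_eq_pow_val, map_pow, hγ0, sq_val, map_sub,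
        map_pow, map_one, hγ0] at e
      exact e
    rw [this]
    exact slit_inv_sq hn
  have hs3 : ∀ j : Fin m, ∫ θ in box m, dlogRow γ (x m u j.succ) θ l =
      if l = j then (2 * π : ℂ) ^ m else 0 := by
    intro j
    simp only [hrow_x h0 γ hγ]
    split_ifs
    · exact integral_one m
    · simp
  have hmain : ∫ θ in box m, dlogRow γ (x m u 0) θ l = (2 * π : ℂ) ^ m := by
    have e : ∀ θ, dlogRow γ (x m u 0) θ l = (∑ j : Fin m, dlogRow γ (x m u j.succ) θ l) -
        (∑ j : Fin m, dlogRow γ (-sq m hu j.succ) θ l) -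
        dlogRow γ (sq m hu 0 * ((x m u 0) ^ 2)⁻¹) θ l := by
      intro θ
      rw [dlogRow_x0 hu γ θ]
      simp only [Pi.sub_apply, Finset.sum_apply]
    simp only [e]
    have i1 : IntegrableOn (fun θ => ∑ j : Fin m, dlogRow γ (x m u j.succ) θ l) (box m) :=
      integrable_finsetSum _ fun j _ => integrable_dlogRow γ _ l
    have i2 : IntegrableOn (fun θ => ∑ j : Fin m, dlogRow γ (-sq m hu j.succ) θ l) (box m) :=
      integrable_finsetSum _ fun j _ => integrable_dlogRow γ _ l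
    have i3 : IntegrableOn (fun θ => (∑ j : Fin m, dlogRow γ (x m u j.succ) θ l) -
        ∑ j : Fin m, dlogRow γ (-sq m hu j.succ) θ l) (box m) := i1.sub i2
    rw [integral_sub i3 (integrable_dlogRow γ _ l), integral_sub i1 i2,
      integral_finsetSum _ fun j _ => integrable_dlogRow γ _ l,
      integral_finsetSum _ fun j _ => integrable_dlogRow γ _ l, hs2]
    simp only [hs1, hs3]
    simp
  have h2 := congrArg Complex.re hmain
  have h3 := integral_re (integrable_dlogRow γ (x m u 0) l)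
  simp only [RCLike.re_eq_complex_re] at h3
  rw [h3, h2]
  norm_cast

theorem emb_w (hu : u ≠ 0) (γ : Torus m (CoordRing m u)) (θ : Fin m → ℝ) (i : Fin (m + 1)) :
    γ.emb θ (w m hu i : CoordRing m u) =
      (γ.emb θ (x m u i : CoordRing m u) - 1) / (γ.emb θ (x m u i : CoordRing m u) + 1) := by
  have h1 : γ.emb θ (x m u i : CoordRing m u) + 1 ≠ 0 := by
    have := ((isUnit_add_one hu (x m u) (x_on m u) i).map (γ.emb θ)).ne_zero
    rwa [map_add, map_one] at this
  have h2 := congrArg (γ.emb θ) (mob_spec hu (x m u) (x_on m u) i)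
  rw [map_mul, map_add, map_sub, map_one] at h2
  rw [eq_div_iff h1]
  exact h2

theorem dlogRow_w (hu : u ≠ 0) (γ : Torus m (CoordRing m u)) (θ : Fin m → ℝ) (i : Fin (m + 1))
    (l : Fin m) : dlogRow γ (w m hu i) θ l = dlogRow γ (x m u i) θ l *
      (2 / (γ.emb θ (x m u i : CoordRing m u) - (γ.emb θ (x m u i : CoordRing m u))⁻¹)) := by
  have hw : w m hu i = (isUnit_sub_one hu (x m u) (x_on m u) i).unit *
      ((isUnit_add_one hu (x m u) (x_on m u) i).unit)⁻¹ := by
    unfold w mob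
    rw [div_eq_mul_inv]
  have hp : γ.emb θ (x m u i : CoordRing m u) + 1 ≠ 0 := by
    have := ((isUnit_add_one hu (x m u) (x_on m u) i).map (γ.emb θ)).ne_zero
    rwa [map_add, map_one] at this
  have hm : γ.emb θ (x m u i : CoordRing m u) - 1 ≠ 0 := by
    have := ((isUnit_sub_one hu (x m u) (x_on m u) i).map (γ.emb θ)).ne_zero
    rwa [map_sub, map_one] at this
  have hx := emb_ne_zero γ (x m u i) θ
  rw [hw, dlogRow_mul, dlogRow_inv]
  simp only [Pi.add_apply, Pi.neg_apply]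
  unfold dlogRow
  have e1 : (fun θ => γ.emb θ (((isUnit_sub_one hu (x m u) (x_on m u) i).unit :
      (CoordRing m u)ˣ) : CoordRing m u)) = fun θ => γ.emb θ (x m u i : CoordRing m u) - 1 := by
    funext θ
    rw [IsUnit.unit_spec, map_sub, map_one]
  have e2 : (fun θ => γ.emb θ (((isUnit_add_one hu (x m u) (x_on m u) i).unit :
      (CoordRing m u)ˣ) : CoordRing m u)) = fun θ => γ.emb θ (x m u i : CoordRing m u) + 1 := by
    funext θ
    rw [IsUnit.unit_spec, map_add, map_one]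
  rw [e1, e2, fderiv_sub_const, fderiv_add_const, IsUnit.unit_spec, IsUnit.unit_spec, map_sub,
    map_add, map_one]
  have h3 : γ.emb θ (x m u i : CoordRing m u) - (γ.emb θ (x m u i : CoordRing m u))⁻¹ ≠ 0 := by
    have : γ.emb θ (x m u i : CoordRing m u) - (γ.emb θ (x m u i : CoordRing m u))⁻¹ =
        (γ.emb θ (x m u i : CoordRing m u) - 1) * (γ.emb θ (x m u i : CoordRing m u) + 1) /
          γ.emb θ (x m u i : CoordRing m u) := by
      field_simp
      ring
    rw [this]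
    exact div_ne_zero (mul_ne_zero hm hp) hx
  have h4 : 2 / (γ.emb θ (x m u i : CoordRing m u) - (γ.emb θ (x m u i : CoordRing m u))⁻¹) =
      2 * γ.emb θ (x m u i : CoordRing m u) /
        ((γ.emb θ (x m u i : CoordRing m u) - 1) * (γ.emb θ (x m u i : CoordRing m u) + 1)) := by
    rw [div_eq_div_iff h3 (mul_ne_zero hm hp)]
    field_simp
    ring
  rw [h4]
  field_simp
  ring

end TorRegAux

open TorRegAux

theorem reg_x {m : ℕ} {u : ℤ} (hu : u ≠ 0) {r : ℝ} (h0 : 0 < r) (h1 : r < 1)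
    (hg : ∀ θ : Fin m → ℝ, Good (cc u r θ)) (γ : Torus m (CoordRing m u))
    (hγ : ∀ (j : Fin m) (θ : Fin m → ℝ), γ.emb θ (x m u j.succ : CoordRing m u) = circ r (θ j))
    (hγ0 : ∀ θ : Fin m → ℝ, γ.emb θ (x m u 0 : CoordRing m u) = root (cc u r θ)) :
    regFun γ (x m u) = (∫ θ in box m, Real.log ‖root (cc u r θ)‖) -
      m * (2 * π) ^ m * Real.log r := by
  have h := regFun_const γ (x m u) (r := r)
    (fun j θ => by rw [hγ, norm_circ h0]) (hrow_x h0 γ hγ) (hint_x hu h0 h1 hg γ hγ hγ0)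
  rw [h]
  simp only [hγ0]

theorem reg_w {m : ℕ} {u : ℤ} (hu : u ≠ 0) {r : ℝ} (h0 : 0 < r) (h1 : r < 1)
    (hg : ∀ θ : Fin m → ℝ, Good (cc u r θ)) (γ : Torus m (CoordRing m u))
    (hγ : ∀ (j : Fin m) (θ : Fin m → ℝ), γ.emb θ (x m u j.succ : CoordRing m u) = circ r (θ j))
    (hγ0 : ∀ θ : Fin m → ℝ, γ.emb θ (x m u 0 : CoordRing m u) = root (cc u r θ)) :
    regFun γ (w m hu) = ∫ θ in box m, (LL (cc u r θ) * (2 ^ m / PP r θ)).re := by
  have hf : ∀ _ : Fin m, Continuous fun t : ℝ => 2 / (circ r t - (circ r t)⁻¹) := by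
    intro _
    refine continuous_const.div ?_ (fun t => circ_sub_ne h0 h1 t)
    exact (continuous_circ r).sub ((continuous_circ r).inv₀ fun t => circ_ne h0 t)
  have h := regFun_log γ (w m hu) (fun _ t => 2 / (circ r t - (circ r t)⁻¹)) hf
    (fun j θ l => by
      rw [dlogRow_w, hrow_x h0 γ hγ, hγ]
      split_ifs
      · rw [one_mul]
      · rw [zero_mul])
    (fun _ t => Real.log ‖(circ r t - 1) / (circ r t + 1)‖)
    (fun j θ => by rw [emb_w, hγ])
    (fun θ => by
      rw [emb_w, hγ0]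
      exact LL_slit (hg θ))
  rw [h]
  refine setIntegral_congr_fun measurableSet_Icc fun θ _ => ?_
  show (Complex.log (γ.emb θ (w m hu 0 : CoordRing m u)) *
    ∏ j : Fin m, 2 / (circ r (θ j) - (circ r (θ j))⁻¹)).re = _
  rw [emb_w, hγ0, Finset.prod_div_distrib, Finset.prod_const, Finset.card_univ, Fintype.card_fin]
  rfl

end P4a177t
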