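import Pool.Agent.Lib.P4a177h.RegMul

/-!
# MODULE P4a177t.RegDiag: the regulator of a symbol whose entries depend on one angle each, except
# the entry number zero (est. 1.5 h)

PROOF. `regFun`, `regForm`, `Fin.sum_univ_succ`, and `integral` of a finite sum (all the terms are
continuous, see `P4a177h.regForm_continuous`, `logNorm_continuous`, `dlogRow_continuous`, the box is
compact). Determinants of `regMatrix γ a k θ`:
* `k = 0`: the row `i` is the `dlogRow` of `a i.succ`, the matrix is `Matrix.diagonal fun j =>
  f j (θ j)`, the determinant is `∏ j, f j (θ j)`.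
* `k = k'.succ`: by `Fin.succAbove_cycleRange` (`k'.succ.succAbove (k'.cycleRange j) =
  Equiv.swap 0 k'.succ j.succ`), the row number `k'.cycleRange j` of the matrix is the row
  (real part, as `k'.cycleRange j < k'.succ` for `j ≤ k'`) of `a 0` if `j = k'`; the real part of
  the row of `a j.succ` if `j < k'`; the row of `a j.succ` if `j > k'` (then
  `k'.cycleRange j = j`). So (`Matrix.det_permute`, `Fin.sign_cycleRange`) the determinant is
  `(-1)^k'` times the determinant of the diagonal matrix, with the entries `(f j (θ j)).re` for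
  `j < k'` and `f j (θ j)` for `j > k'`, the row `k'` of which is replaced
  by the real part of the row of `a 0`; this determinant is the product of the `k'`-th entry of
  this row and the other diagonal entries (e.g. `Matrix.det_updateRow...`, expansion; or: the
  transpose has the columns `e_j`, or `Matrix.det_eq_of_...`; or write the row as
  `∑ l, row l • e_l` and use multilinearity: the terms `l ≠ k'` have two proportional rows).
  The real part of the product is the product of the real numbers and of the real part of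
  `∏_{j > k'} f j (θ j)`. The sign: `(-1)^(k'+1) * (-1)^k' = -1`.
-/

set_option autoImplicit false

namespace P4a177t

open P4a177h Function MeasureTheory
open scoped Real

namespace RegDiagAux

theorem det_updateRow_diagonal {m : ℕ} (g : Fin m → ℂ) (k : Fin m) (r : Fin m → ℂ) :
    ((Matrix.diagonal g).updateRow k r).det = (∏ j ∈ Finset.univ.erase k, g j) * r k := by
  have h1 : ((Matrix.diagonal g).updateRow k r).det = Matrix.cramer (Matrix.diagonal g) r k := by
    rw [Matrix.cramer_apply, ← Matrix.det_transpose, ← Matrix.updateCol_transpose,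
      Matrix.diagonal_transpose]
  rw [h1, Matrix.cramer_eq_adjugate_mulVec, Matrix.adjugate_diagonal, Matrix.mulVec_diagonal]

theorem prod_erase_split {m : ℕ} (g : Fin m → ℂ) (k : Fin m) :
    (∏ j ∈ Finset.univ.erase k, g j) = (∏ j with j < k, g j) * (∏ j with k < j, g j) := by
  rw [← Finset.prod_union]
  · refine Finset.prod_congr ?_ fun _ _ => rfl
    ext j
    simp only [Finset.mem_erase, Finset.mem_univ, and_true, Finset.mem_union, Finset.mem_filter,
      true_and]
    exact ne_iff_lt_or_gt
  · rw [Finset.disjoint_left]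
    intro j h1 h2
    simp only [Finset.mem_filter, Finset.mem_univ, true_and] at h1 h2
    exact lt_asymm h1 h2

theorem cycleRange_row {m : ℕ} (k j : Fin m) :
    ((k.cycleRange j : Fin m) : ℕ) < (k.succ : Fin (m + 1)) ↔ j ≤ k := by
  cases m with
  | zero => exact k.elim0
  | succ n =>
    rw [Fin.val_succ]
    rcases lt_trichotomy j k with h | h | h
    · have h1 : ((k.cycleRange j : Fin (n + 1)) : ℕ) = j + 1 := Fin.coe_cycleRange_of_lt h
      rw [h1]
      exact ⟨fun _ => h.le, fun _ => by have : (j : ℕ) < k := h; omega⟩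
    · subst h
      rw [Fin.cycleRange_self]
      exact ⟨fun _ => le_rfl, fun _ => by simp⟩
    · rw [Fin.cycleRange_of_gt h]
      have h' : (k : ℕ) < j := h
      exact ⟨fun h2 => by omega, fun h2 => absurd h2 (not_le.2 h)⟩

theorem det_zero {m : ℕ} {R : Type} [CommRing R] (γ : Torus m R) (a : Fin (m + 1) → Rˣ)
    (f : Fin m → ℝ → ℂ)
    (hrow : ∀ (j : Fin m) (θ : Fin m → ℝ) (l : Fin m),
      dlogRow γ (a j.succ) θ l = if l = j then f j (θ j) else 0) (θ : Fin m → ℝ) :
    (regMatrix γ a 0 θ).det = ∏ j, f j (θ j) := by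
  have h : regMatrix γ a 0 θ = Matrix.diagonal fun j => f j (θ j) := by
    ext i l
    simp only [regMatrix, Matrix.of_apply, Fin.coe_ofNat_eq_mod, Nat.zero_mod, not_lt_zero,
      if_false, Fin.succAbove_zero, hrow, Matrix.diagonal_apply]
    simp only [eq_comm]
  rw [h, Matrix.det_diagonal]

theorem det_succ {m : ℕ} {R : Type} [CommRing R] (γ : Torus m R) (a : Fin (m + 1) → Rˣ)
    (f : Fin m → ℝ → ℂ)
    (hrow : ∀ (j : Fin m) (θ : Fin m → ℝ) (l : Fin m),
      dlogRow γ (a j.succ) θ l = if l = j then f j (θ j) else 0) (θ : Fin m → ℝ) (k : Fin m) :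
    (-1) ^ ((k.succ : Fin (m + 1)) : ℕ) * (regMatrix γ a k.succ θ).det.re =
      - ((dlogRow γ (a 0) θ k).re *
        ((∏ j with j < k, (f j (θ j)).re) * (∏ j with k < j, f j (θ j)).re)) := by
  set g : Fin m → ℂ := fun j => if j < k then ((f j (θ j)).re : ℂ) else f j (θ j) with hg
  have hM : (regMatrix γ a k.succ θ).submatrix k.cycleRange id =
      (Matrix.diagonal g).updateRow k fun l => ((dlogRow γ (a 0) θ l).re : ℂ) := by
    ext j l
    simp only [Matrix.submatrix_apply, id_eq, regMatrix, Matrix.of_apply, cycleRange_row,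
      Fin.succAbove_cycleRange]
    rcases lt_trichotomy j k with h | h | h
    · rw [if_pos h.le, Matrix.updateRow_ne h.ne, Equiv.swap_apply_of_ne_of_ne (Fin.succ_ne_zero j)
        (fun h' => h.ne (Fin.succ_injective _ h')), hrow, Matrix.diagonal_apply]
      by_cases hl : j = l
      · subst hl
        simp only [if_true, hg, if_pos h]
      · rw [if_neg hl, if_neg (fun h => hl h.symm)]
        simp
    · subst h
      rw [if_pos le_rfl, Matrix.updateRow_self, Equiv.swap_apply_right]
    · rw [if_neg (not_le.2 h), Matrix.updateRow_ne h.ne', Equiv.swap_apply_of_ne_of_ne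
        (Fin.succ_ne_zero j) (fun h' => h.ne' (Fin.succ_injective _ h')), hrow,
        Matrix.diagonal_apply]
      by_cases hl : j = l
      · subst hl
        simp only [if_true, hg, if_neg (not_lt.2 h.le)]
      · rw [if_neg hl, if_neg (fun h => hl h.symm)]
  have h1 := Matrix.det_permute (k.cycleRange) (regMatrix γ a k.succ θ)
  rw [hM, det_updateRow_diagonal, prod_erase_split, Fin.sign_cycleRange] at h1
  have h2 : (∏ j with j < k, g j) = ((∏ j with j < k, (f j (θ j)).re : ℝ) : ℂ) := by
    rw [Complex.ofReal_prod]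
    refine Finset.prod_congr rfl fun j hj => ?_
    simp only [Finset.mem_filter, Finset.mem_univ, true_and] at hj
    simp only [hg, if_pos hj]
  have h3 : (∏ j with k < j, g j) = ∏ j with k < j, f j (θ j) := by
    refine Finset.prod_congr rfl fun j hj => ?_
    simp only [Finset.mem_filter, Finset.mem_univ, true_and] at hj
    simp only [hg, if_neg (not_lt.2 hj.le)]
  rw [h2, h3] at h1
  have h5 : (regMatrix γ a k.succ θ).det = (-1) ^ (k : ℕ) *
      (((∏ j with j < k, (f j (θ j)).re : ℝ) : ℂ) * (∏ j with k < j, f j (θ j)) *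
        ((dlogRow γ (a 0) θ k).re : ℂ)) := by
    rw [h1]
    push_cast
    rw [← mul_assoc, ← mul_pow]
    norm_num
  have h6 : ((-1 : ℂ)) ^ (k : ℕ) = (((-1 : ℝ) ^ (k : ℕ) : ℝ) : ℂ) := by push_cast; rfl
  rw [h5, h6, Complex.re_ofReal_mul, Complex.re_mul_ofReal, Complex.re_ofReal_mul, Fin.val_succ]
  have h7 : ((-1 : ℝ)) ^ (k : ℕ) * (-1) ^ (k : ℕ) = 1 := by rw [← mul_pow]; norm_num
  rw [pow_succ]
  linear_combination (-((dlogRow γ (a 0) θ k).re *
        ((∏ j with j < k, (f j (θ j)).re) * (∏ j with k < j, f j (θ j)).re))) * h7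

end RegDiagAux

theorem regFun_diag {m : ℕ} {R : Type} [CommRing R] (γ : Torus m R) (a : Fin (m + 1) → Rˣ)
    (f : Fin m → ℝ → ℂ) (hf : ∀ j, Continuous (f j))
    (hrow : ∀ (j : Fin m) (θ : Fin m → ℝ) (l : Fin m),
      dlogRow γ (a j.succ) θ l = if l = j then f j (θ j) else 0) :
    regFun γ a = (∫ θ in box m, Real.log ‖γ.emb θ (a 0 : R)‖ * (∏ j, f j (θ j)).re) -
      ∑ k : Fin m, ∫ θ in box m, Real.log ‖γ.emb θ (a k.succ : R)‖ * (dlogRow γ (a 0) θ k).re *
        ((∏ j with j < k, (f j (θ j)).re) * (∏ j with k < j, f j (θ j)).re) := by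
  have hform : ∀ θ, regForm γ a θ =
      Real.log ‖γ.emb θ (a 0 : R)‖ * (∏ j, f j (θ j)).re -
      ∑ k : Fin m, Real.log ‖γ.emb θ (a k.succ : R)‖ * (dlogRow γ (a 0) θ k).re *
        ((∏ j with j < k, (f j (θ j)).re) * (∏ j with k < j, f j (θ j)).re) := by
    intro θ
    unfold regForm
    rw [Fin.sum_univ_succ, RegDiagAux.det_zero γ a f hrow θ, sub_eq_add_neg,
      ← Finset.sum_neg_distrib]
    congr 1
    · simp
    · refine Finset.sum_congr rfl fun k _ => ?_
      have h := RegDiagAux.det_succ γ a f hrow θ k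
      linear_combination (Real.log ‖γ.emb θ (a k.succ : R)‖) * h
  have hf' : ∀ j, Continuous fun θ : Fin m → ℝ => f j (θ j) :=
    fun j => (hf j).comp (continuous_apply j)
  have hint : ∀ F : (Fin m → ℝ) → ℝ, Continuous F → Integrable F (volume.restrict (box m)) :=
    fun F hF => (hF.continuousOn).integrableOn_compact isCompact_Icc
  have hc0 : Continuous fun θ => Real.log ‖γ.emb θ (a 0 : R)‖ * (∏ j, f j (θ j)).re :=
    (logNorm_continuous γ (a 0)).mul
      (Complex.continuous_re.comp (continuous_finsetProd _ fun j _ => hf' j))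
  have hck : ∀ k : Fin m, Continuous fun θ =>
      Real.log ‖γ.emb θ (a k.succ : R)‖ * (dlogRow γ (a 0) θ k).re *
        ((∏ j with j < k, (f j (θ j)).re) * (∏ j with k < j, f j (θ j)).re) := fun k =>
    ((logNorm_continuous γ (a k.succ)).mul
      (Complex.continuous_re.comp (dlogRow_continuous γ (a 0) k))).mul
      ((continuous_finsetProd _ fun j _ => Complex.continuous_re.comp (hf' j)).mul
        (Complex.continuous_re.comp (continuous_finsetProd _ fun j _ => hf' j)))
  unfold regFun
  simp only [hform]
  rw [integral_sub (hint _ hc0) (integrable_finsetSum _ fun k _ => hint _ (hck k)),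
    integral_finsetSum _ fun k _ => hint _ (hck k)]

end P4a177t
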