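import Pool.Agent.Lib.P4a177h.Defs

/-!
# The functions which occur in the regulator integrals
-/

set_option autoImplicit false

namespace P4a177t

open P4a177h Function MeasureTheory
open scoped Real

noncomputable section

/-- the point `r e^{it}` -/
def circ (r t : ℝ) : ℂ := (r : ℂ) * Complex.exp (t * Complex.I)

/-- the product of the `z_j - 1 / z_j`, `z_j = r e^{i θ_j}` -/
def PP {m : ℕ} (r : ℝ) (θ : Fin m → ℝ) : ℂ := ∏ j, (circ r (θ j) - (circ r (θ j))⁻¹)

/-- the quotient `u / ∏ (z_j - 1 / z_j)` -/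
def cc {m : ℕ} (u : ℤ) (r : ℝ) (θ : Fin m → ℝ) : ℂ := (u : ℂ) / PP r θ

/-- the complex numbers outside the segment from `-2i` to `2i` -/
def Good (c : ℂ) : Prop := c ≠ 0 ∧ 1 + 4 / c ^ 2 ∈ Complex.slitPlane

/-- the solution `z` of `z - 1 / z = c` with `|z| > 1` -/
def root (c : ℂ) : ℂ := c / 2 * (1 + Complex.exp (Complex.log (1 + 4 / c ^ 2) / 2))

/-- the logarithm of `(z - 1) / (z + 1)` for `z = root c` -/
def LL (c : ℂ) : ℂ := Complex.log ((root c - 1) / (root c + 1))

/-- `∏ |sin θ_j|` -/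
def SS {m : ℕ} (θ : Fin m → ℝ) : ℝ := ∏ j, |Real.sin (θ j)|

/-- the limit of the first integral -/
def MM (m : ℕ) (v : ℝ) : ℝ := ∫ θ in box m, Real.arsinh (v / SS θ)

/-- the limit of the second integral, up to sign -/
def NN (m : ℕ) (v : ℝ) : ℝ := ∫ θ in box m, Real.arsinh (SS θ / v) / SS θ

end

end P4a177t
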