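import Pool.Agent.Lib.P4a177s.Terms

/-!
# The hypersurfaces `∏ (x_i - 1 / x_i) = u`
-/

set_option autoImplicit false

namespace P4a177t

open P4a177h Function MeasureTheory
open scoped Real

noncomputable section

/-- The expression `∏ (y_i ^ 2 - 1) - u * ∏ y_i`. -/
def poly {n : ℕ} {B : Type*} [CommRing B] (u : ℤ) (y : Fin n → B) : B :=
  ∏ i, (y i ^ 2 - 1) - (u : B) * ∏ i, y i

/-- The polynomial `∏ (x_i ^ 2 - 1) - u * ∏ x_i` in the `m + 1` variables `x_i`. -/
def eqn (m : ℕ) (u : ℤ) : MvPolynomial (Fin (m + 1)) ℚ := poly u MvPolynomial.X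

theorem eqn_def (m : ℕ) (u : ℤ) : eqn m u =
    ∏ i, (MvPolynomial.X i ^ 2 - 1) - MvPolynomial.C (u : ℚ) * ∏ i, MvPolynomial.X i := by
  unfold eqn poly
  rw [show (MvPolynomial.C (u : ℚ) : MvPolynomial (Fin (m + 1)) ℚ) =
    ((u : ℤ) : MvPolynomial (Fin (m + 1)) ℚ) from by simp]

/-- The coordinate ring `ℚ[x_0, …, x_m] / (∏ (x_i ^ 2 - 1) - u * ∏ x_i)` of the affine hypersurface
`∏ (x_i ^ 2 - 1) = u * ∏ x_i`. -/
def AffRing (m : ℕ) (u : ℤ) : Type := MvPolynomial (Fin (m + 1)) ℚ ⧸ Ideal.span {eqn m u}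

instance instAffRing (m : ℕ) (u : ℤ) : CommRing (AffRing m u) :=
  Ideal.Quotient.commRing (Ideal.span {eqn m u})

instance (m : ℕ) (u : ℤ) : Algebra ℚ (AffRing m u) :=
  inferInstanceAs (Algebra ℚ (MvPolynomial (Fin (m + 1)) ℚ ⧸ Ideal.span {eqn m u}))

/-- The class of a polynomial. -/
def AffRing.mk (m : ℕ) (u : ℤ) : MvPolynomial (Fin (m + 1)) ℚ →+* AffRing m u :=
  Ideal.Quotient.mk (Ideal.span {eqn m u})

/-- The product of the coordinates `x_i`. -/
def prodX (m : ℕ) (u : ℤ) : AffRing m u := ∏ i, AffRing.mk m u (MvPolynomial.X i)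

/-- The coordinate ring over `ℚ` of the hypersurface `∏ (x_i - 1 / x_i) = u` of the split torus with
the coordinates `x_i`: the quotient `ℚ[x_0, …, x_m] / (∏ (x_i ^ 2 - 1) - u * ∏ x_i)`, localised by
inverting the product of the `x_i`. -/
def CoordRing (m : ℕ) (u : ℤ) : Type := Localization.Away (prodX m u)

instance instCoordRing (m : ℕ) (u : ℤ) : CommRing (CoordRing m u) :=
  OreLocalization.instCommRing (S := Submonoid.powers (prodX m u))

instance (m : ℕ) (u : ℤ) : Algebra (AffRing m u) (CoordRing m u) :=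
  OreLocalization.instAlgebra (S := Submonoid.powers (prodX m u))

instance (m : ℕ) (u : ℤ) : Algebra ℚ (CoordRing m u) :=
  OreLocalization.instAlgebra (S := Submonoid.powers (prodX m u))

instance (m : ℕ) (u : ℤ) : IsLocalization.Away (prodX m u) (CoordRing m u) :=
  Localization.isLocalization (M := Submonoid.powers (prodX m u))

variable {m : ℕ} {u : ℤ}

/-- `y` satisfies the equation of the hypersurface -/
def On {B : Type*} [CommRing B] (u : ℤ) (y : Fin (m + 1) → B) : Prop :=
  ∏ i, (y i ^ 2 - 1) = (u : B) * ∏ i, y i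

theorem On.map {B B' : Type*} [CommRing B] [CommRing B'] (f : B →+* B') {y : Fin (m + 1) → B}
    (h : On u y) : On u fun i => f (y i) := by
  unfold On at h ⊢
  have h1 := congrArg f h
  rw [map_prod, map_mul, map_intCast, map_prod] at h1
  rw [← h1]
  exact Finset.prod_congr rfl fun i _ => by rw [map_sub, map_pow, map_one]

theorem map_eqn {B : Type*} [CommRing B] (f : MvPolynomial (Fin (m + 1)) ℚ →+* B) :
    f (eqn m u) = ∏ i, (f (MvPolynomial.X i) ^ 2 - 1) -
      (u : B) * ∏ i, f (MvPolynomial.X i) := by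
  unfold eqn poly
  rw [map_sub, map_mul, map_prod, map_prod, map_intCast]
  congr 1
  exact Finset.prod_congr rfl fun i _ => by rw [map_sub, map_pow, map_one]

theorem aeval_eqn {B : Type*} [CommRing B] [Algebra ℚ B] (y : Fin (m + 1) → B) :
    MvPolynomial.aeval y (eqn m u) = ∏ i, (y i ^ 2 - 1) - (u : B) * ∏ i, y i := by
  have h := map_eqn (m := m) (u := u)
    (MvPolynomial.aeval y : MvPolynomial (Fin (m + 1)) ℚ →ₐ[ℚ] B).toRingHom
  simpa using h

theorem aeval_eqn_eq_zero {B : Type*} [CommRing B] [Algebra ℚ B] {y : Fin (m + 1) → B} :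
    MvPolynomial.aeval y (eqn m u) = 0 ↔ On u y := by
  rw [aeval_eqn, sub_eq_zero]
  rfl

/-- The image of a polynomial in the coordinate ring. -/
def mk (m : ℕ) (u : ℤ) : MvPolynomial (Fin (m + 1)) ℚ →+* CoordRing m u :=
  (algebraMap (AffRing m u) (CoordRing m u)).comp (AffRing.mk m u)

theorem AffRing.mk_eqn (m : ℕ) (u : ℤ) : AffRing.mk m u (eqn m u) = 0 :=
  Ideal.Quotient.eq_zero_iff_mem.2 (Ideal.subset_span (Set.mem_singleton _))

theorem mk_prodX (m : ℕ) (u : ℤ) :
    mk m u (∏ i, MvPolynomial.X i) = algebraMap (AffRing m u) (CoordRing m u) (prodX m u) := by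
  unfold mk prodX
  rw [RingHom.comp_apply, map_prod (AffRing.mk m u)]

theorem isUnit_mk_X (m : ℕ) (u : ℤ) (i : Fin (m + 1)) : IsUnit (mk m u (MvPolynomial.X i)) := by
  have h : IsUnit (mk m u (∏ i, MvPolynomial.X i)) := by
    rw [mk_prodX]
    exact IsLocalization.Away.algebraMap_isUnit (S := CoordRing m u) (prodX m u)
  have h2 := map_prod (mk m u) (fun i => MvPolynomial.X i) Finset.univ
  rw [h2] at h
  exact isUnit_of_dvd_unit
    (Finset.dvd_prod_of_mem (fun i => mk m u (MvPolynomial.X i)) (Finset.mem_univ i)) h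

/-- The coordinate `x_i`, a unit of the coordinate ring. -/
def x (m : ℕ) (u : ℤ) (i : Fin (m + 1)) : (CoordRing m u)ˣ := (isUnit_mk_X m u i).unit

theorem x_val (i : Fin (m + 1)) : (x m u i : CoordRing m u) = mk m u (MvPolynomial.X i) :=
  IsUnit.unit_spec _

theorem x_on (m : ℕ) (u : ℤ) : On u fun i => (x m u i : CoordRing m u) := by
  have h1 : mk m u (eqn m u) = 0 := by
    unfold mk
    rw [RingHom.comp_apply, AffRing.mk_eqn, map_zero]
  have h3 := map_eqn (m := m) (u := u) (mk m u)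
  rw [h1] at h3
  have h2 : On u fun i : Fin (m + 1) => mk m u (MvPolynomial.X i) := sub_eq_zero.1 h3.symm
  simpa only [x_val] using h2

/-- The ring homomorphism of the affine coordinate ring given by a point. -/
def AffRing.lift {B : Type*} [CommRing B] [Algebra ℚ B] (y : Fin (m + 1) → B)
    (h : On u y) : AffRing m u →+* B :=
  Ideal.Quotient.lift (Ideal.span {eqn m u})
    (MvPolynomial.aeval y : MvPolynomial (Fin (m + 1)) ℚ →ₐ[ℚ] B).toRingHom (by
      intro a ha
      obtain ⟨b, rfl⟩ := Ideal.mem_span_singleton'.1 ha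
      show (MvPolynomial.aeval y : MvPolynomial (Fin (m + 1)) ℚ →ₐ[ℚ] B) (b * eqn m u) = 0
      rw [map_mul, aeval_eqn_eq_zero.2 h, mul_zero])

theorem AffRing.lift_mk {B : Type*} [CommRing B] [Algebra ℚ B] (y : Fin (m + 1) → B)
    (h : On u y) (p : MvPolynomial (Fin (m + 1)) ℚ) :
    AffRing.lift y h (AffRing.mk m u p) = MvPolynomial.aeval y p := rfl

/-- The ring homomorphism of the coordinate ring given by a point. -/
def lift {B : Type*} [CommRing B] [Algebra ℚ B] (y : Fin (m + 1) → Bˣ)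
    (h : On u fun i => (y i : B)) : CoordRing m u →+* B :=
  IsLocalization.Away.lift (S := CoordRing m u) (prodX m u)
    (g := AffRing.lift (fun i => (y i : B)) h) (by
      unfold prodX
      rw [map_prod]
      have : ∏ i, AffRing.lift (fun i => (y i : B)) h (AffRing.mk m u (MvPolynomial.X i)) =
          ((∏ i, y i : Bˣ) : B) := by
        rw [Units.coe_prod]
        exact Finset.prod_congr rfl fun i _ => by rw [AffRing.lift_mk, MvPolynomial.aeval_X]
      rw [this]
      exact Units.isUnit _)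

theorem lift_mk {B : Type*} [CommRing B] [Algebra ℚ B] (y : Fin (m + 1) → Bˣ)
    (h : On u fun i => (y i : B)) (p : MvPolynomial (Fin (m + 1)) ℚ) :
    lift y h (mk m u p) = MvPolynomial.aeval (fun i => (y i : B)) p := by
  unfold lift mk
  rw [RingHom.comp_apply, IsLocalization.Away.lift_eq, AffRing.lift_mk]

theorem lift_x {B : Type*} [CommRing B] [Algebra ℚ B] (y : Fin (m + 1) → Bˣ)
    (h : On u fun i => (y i : B)) (i : Fin (m + 1)) :
    lift y h (x m u i : CoordRing m u) = y i := by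
  rw [x_val, lift_mk, MvPolynomial.aeval_X]

/-- Every element of the coordinate ring is a polynomial divided by a power of `∏ x_i`. -/
theorem exists_mul_pow (f : CoordRing m u) : ∃ (p : MvPolynomial (Fin (m + 1)) ℚ) (k : ℕ),
    f * mk m u (∏ i, MvPolynomial.X i) ^ k = mk m u p := by
  obtain ⟨k, a, ha⟩ := IsLocalization.Away.surj (prodX m u) f
  obtain ⟨p, rfl⟩ : ∃ p, AffRing.mk m u p = a := Ideal.Quotient.mk_surjective a
  refine ⟨p, k, ?_⟩
  rw [mk_prodX]
  exact ha

/-- Two ring homomorphisms of the coordinate ring to a field which have the same values at the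
coordinates are equal. -/
theorem hom_ext {B : Type*} [CommRing B] {f g : CoordRing m u →+* B}
    (h : ∀ i, f (x m u i : CoordRing m u) = g (x m u i : CoordRing m u)) : f = g := by
  refine IsLocalization.ringHom_ext (Submonoid.powers (prodX m u)) ?_
  refine Ideal.Quotient.ringHom_ext ?_
  refine MvPolynomial.ringHom_ext' (RingHom.ext_rat _ _) fun i => ?_
  have := h i
  rw [x_val] at this
  exact this

/-- A nonzero integer is a unit of the coordinate ring. -/
theorem isUnit_intCast {B : Type*} [CommRing B] [Algebra ℚ B] {k : ℤ} (hk : k ≠ 0) :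
    IsUnit (k : B) := by
  have h : IsUnit (algebraMap ℚ B (k : ℚ)) :=
    (isUnit_iff_ne_zero.2 (Int.cast_ne_zero.2 hk)).map (algebraMap ℚ B)
  rwa [map_intCast] at h

theorem isUnit_sq_sub_one {B : Type*} [CommRing B] [Algebra ℚ B] (hu : u ≠ 0)
    (y : Fin (m + 1) → Bˣ) (h : On u fun i => (y i : B)) (i : Fin (m + 1)) :
    IsUnit ((y i : B) ^ 2 - 1) := by
  have h1 : IsUnit (∏ i, ((y i : B) ^ 2 - 1)) := by
    have h2 : ∏ i, ((y i : B) ^ 2 - 1) = (u : B) * ∏ i, (y i : B) := h
    rw [h2, ← Units.coe_prod]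
    exact (isUnit_intCast hu).mul (Units.isUnit _)
  exact isUnit_of_dvd_unit
    (Finset.dvd_prod_of_mem (fun i => (y i : B) ^ 2 - 1) (Finset.mem_univ i)) h1

theorem isUnit_sub_one {B : Type*} [CommRing B] [Algebra ℚ B] (hu : u ≠ 0)
    (y : Fin (m + 1) → Bˣ) (h : On u fun i => (y i : B)) (i : Fin (m + 1)) :
    IsUnit ((y i : B) - 1) :=
  isUnit_of_dvd_unit ⟨(y i : B) + 1, by ring⟩ (isUnit_sq_sub_one hu y h i)

theorem isUnit_add_one {B : Type*} [CommRing B] [Algebra ℚ B] (hu : u ≠ 0)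
    (y : Fin (m + 1) → Bˣ) (h : On u fun i => (y i : B)) (i : Fin (m + 1)) :
    IsUnit ((y i : B) + 1) :=
  isUnit_of_dvd_unit ⟨(y i : B) - 1, by ring⟩ (isUnit_sq_sub_one hu y h i)

/-- The unit `(y_i - 1) / (y_i + 1)`. -/
def mob {B : Type*} [CommRing B] [Algebra ℚ B] (hu : u ≠ 0)
    (y : Fin (m + 1) → Bˣ) (h : On u fun i => (y i : B)) (i : Fin (m + 1)) : Bˣ :=
  (isUnit_sub_one hu y h i).unit / (isUnit_add_one hu y h i).unit

theorem mob_spec {B : Type*} [CommRing B] [Algebra ℚ B] (hu : u ≠ 0)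
    (y : Fin (m + 1) → Bˣ) (h : On u fun i => (y i : B)) (i : Fin (m + 1)) :
    (mob hu y h i : B) * ((y i : B) + 1) = (y i : B) - 1 := by
  have h1 : mob hu y h i * (isUnit_add_one hu y h i).unit = (isUnit_sub_one hu y h i).unit := by
    unfold mob
    rw [div_mul_cancel]
  have h2 := congrArg (Units.val : Bˣ → B) h1
  rw [Units.val_mul, IsUnit.unit_spec, IsUnit.unit_spec] at h2
  exact h2

/-- The `(y_i - 1) / (y_i + 1)` satisfy the equation with the parameter `(-4) ^ (m + 1) / u`. -/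
theorem mob_on {B : Type*} [CommRing B] [Algebra ℚ B] (hu : u ≠ 0) {u' : ℤ}
    (huu : u * u' = (-4) ^ (m + 1))
    (y : Fin (m + 1) → Bˣ) (h : On u fun i => (y i : B)) :
    On u' fun i => (mob hu y h i : B) := by
  have hp : IsUnit (∏ i, ((y i : B) + 1) ^ 2) := by
    rw [Finset.prod_pow]
    refine IsUnit.pow 2 ?_
    have : ∏ i, ((y i : B) + 1) = ((∏ i, (isUnit_add_one hu y h i).unit : Bˣ) : B) := by
      rw [Units.coe_prod]
      exact Finset.prod_congr rfl fun i _ => (IsUnit.unit_spec _).symm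
    rw [this]
    exact Units.isUnit _
  unfold On
  rw [← hp.mul_left_inj, ← Finset.prod_mul_distrib, mul_assoc, ← Finset.prod_mul_distrib]
  have h1 : ∀ i, ((mob hu y h i : B) ^ 2 - 1) * ((y i : B) + 1) ^ 2 = -4 * (y i : B) := by
    intro i
    have := mob_spec hu y h i
    linear_combination ((mob hu y h i : B) * ((y i : B) + 1) + ((y i : B) - 1)) * this
  have h2 : ∀ i, (mob hu y h i : B) * ((y i : B) + 1) ^ 2 = (y i : B) ^ 2 - 1 := by
    intro i
    have := mob_spec hu y h i
    linear_combination ((y i : B) + 1) * this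
  simp only [h1, h2]
  have h3 : ∏ i, ((y i : B) ^ 2 - 1) = (u : B) * ∏ i, (y i : B) := h
  rw [h3, Finset.prod_mul_distrib, Finset.prod_const, Finset.card_univ, Fintype.card_fin,
    ← mul_assoc]
  congr 1
  have h4 := congrArg (Int.cast : ℤ → B) huu
  push_cast at h4
  rw [← h4]
  ring

/-- The unit `w_i = (x_i - 1) / (x_i + 1)` of the coordinate ring. -/
def w (m : ℕ) {u : ℤ} (hu : u ≠ 0) (i : Fin (m + 1)) : (CoordRing m u)ˣ :=
  mob hu (x m u) (x_on m u) i

/-- The isomorphism of the hypersurfaces with the parameters `u` and `u' = (-4) ^ (m + 1) / u`, in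
one direction: `x_i` is mapped to `w_i`. -/
def swap {u u' : ℤ} (hu : u ≠ 0) (huu : u * u' = (-4) ^ (m + 1)) :
    CoordRing m u' →+* CoordRing m u :=
  lift (w m hu) (mob_on hu huu (x m u) (x_on m u))

theorem swap_x {u u' : ℤ} (hu : u ≠ 0) (huu : u * u' = (-4) ^ (m + 1)) (i : Fin (m + 1)) :
    swap hu huu (x m u' i : CoordRing m u') = w m hu i := lift_x _ _ _

end

end P4a177t
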