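import Pool.Agent.Lib.P4a177t.LogInt

/-!
# The inequality between the two limits

PROOF. (1) The function `K x = arsinh x / (x * arsinh x⁻¹)` is strictly increasing on `(0, ∞)`:
with `p = arsinh x⁻¹`, `q = arsinh x`, the derivatives of `q` and of `x p` are `1/√(1+x^2)` and
`p - 1/√(1+x^2)`; the numerator of `K'` is `x p /√(1+x^2) - q (p - 1/√(1+x^2))`, which has the sign of
`x p + q - √(1+x^2) p q`. As `0 < q < x` and `0 < p < 1/x` (`Real.arsinh x < x` for `x > 0`:
`x < sinh x`, `Real.self_lt_sinh_iff`/`Real.sinh`), `x p > q p` and `q > q (x p)`, so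
`x p + q > p q (1 + x) ≥ p q √(1+x^2)`.
(2) For `0 < S < 1`, `K v < K (v / S)`, i.e.
`arsinh v * (arsinh (S/v) / S) < arsinh v⁻¹ * arsinh (v / S)`.
(3) Integrate over the box (`ae_SS`): both sides are integrable: `0 ≤ arsinh (v/S) ≤
log (1 + 2 v / S)` (`arsinh x = log (x + √(1+x^2))`, `√(1+x^2) ≤ 1 + x`), `integrable_log`;
`0 ≤ arsinh (S/v)/S ≤ 1/v`, measurable. The strict inequality of the integrals: the difference is
almost everywhere positive on the box, of positive measure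
(`MeasureTheory.integral_pos_iff_support_of_nonneg_ae` or `setIntegral_pos_iff...`; the volume of
the box is `(2π)^m > 0`, `Real.volume_Icc_pi`).
-/

set_option autoImplicit false

namespace P4a177t

open P4a177h Function MeasureTheory
open scoped Real

namespace IneqAux

theorem arsinh_lt_self {x : ℝ} (hx : 0 < x) : Real.arsinh x < x := by
  have h := Real.self_lt_sinh_iff.2 hx
  rw [← Real.sinh_lt_sinh, Real.sinh_arsinh]
  exact h

theorem key_pos {x p q s : ℝ} (hp : 0 < p) (hq : 0 < q) (hqx : q < x)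
    (hpx : p * x < 1) (hs : s ≤ 1 + x) : 0 < x * p + q - p * q * s := by
  have h1 : p * q * s ≤ p * q * (1 + x) := by gcongr
  have h2 : p * q < p * x := by gcongr
  have h3 : q * (p * x) < q * 1 := by gcongr
  nlinarith

noncomputable def K (x : ℝ) : ℝ := Real.arsinh x / (x * Real.arsinh x⁻¹)

theorem hasDerivAt_K {x : ℝ} (hx : 0 < x) :
    HasDerivAt K (((√(1 + x ^ 2))⁻¹ * (x * Real.arsinh x⁻¹) -
      Real.arsinh x * (Real.arsinh x⁻¹ - (√(1 + x ^ 2))⁻¹)) / (x * Real.arsinh x⁻¹) ^ 2) x := by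
  have hx0 : x ≠ 0 := hx.ne'
  have hp : 0 < Real.arsinh x⁻¹ := Real.arsinh_pos_iff.2 (inv_pos.2 hx)
  have h1 : HasDerivAt Real.arsinh (√(1 + x ^ 2))⁻¹ x := Real.hasDerivAt_arsinh x
  have h2 : HasDerivAt (fun y : ℝ => Real.arsinh y⁻¹) ((√(1 + x⁻¹ ^ 2))⁻¹ * (-(x ^ 2)⁻¹)) x :=
    (Real.hasDerivAt_arsinh x⁻¹).comp x (hasDerivAt_inv hx0)
  have hs : √(1 + x ^ 2) = x * √(1 + x⁻¹ ^ 2) := by
    rw [← Real.sqrt_sq hx.le, ← Real.sqrt_mul (sq_nonneg x)]
    congr 1
    rw [Real.sqrt_sq hx.le]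
    field_simp
    ring
  have hs0 : 0 < √(1 + x⁻¹ ^ 2) := Real.sqrt_pos.2 (by positivity)
  have h3 : HasDerivAt (fun y : ℝ => y * Real.arsinh y⁻¹)
      (Real.arsinh x⁻¹ - (√(1 + x ^ 2))⁻¹) x := by
    have h := (hasDerivAt_id' x).mul h2
    have e : Real.arsinh x⁻¹ - (√(1 + x ^ 2))⁻¹ =
        1 * Real.arsinh x⁻¹ + x * ((√(1 + x⁻¹ ^ 2))⁻¹ * (-(x ^ 2)⁻¹)) := by
      rw [hs]
      field_simp
      ring
    rw [e]
    exact h
  exact h1.div h3 (by positivity)

theorem deriv_K_pos {x : ℝ} (hx : 0 < x) : 0 < deriv K x := by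
  rw [(hasDerivAt_K hx).deriv]
  have hp : 0 < Real.arsinh x⁻¹ := Real.arsinh_pos_iff.2 (inv_pos.2 hx)
  have hq : 0 < Real.arsinh x := Real.arsinh_pos_iff.2 hx
  have hqx := arsinh_lt_self hx
  have hpx : Real.arsinh x⁻¹ * x < 1 := by
    have h := arsinh_lt_self (inv_pos.2 hx)
    have h2 := mul_lt_mul_of_pos_right h hx
    rwa [inv_mul_cancel₀ hx.ne'] at h2
  have hs : √(1 + x ^ 2) ≤ 1 + x := by
    rw [Real.sqrt_le_left (by positivity)]
    nlinarith
  have hs0 : 0 < √(1 + x ^ 2) := Real.sqrt_pos.2 (by positivity)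
  have hkey := key_pos hp hq hqx hpx hs
  refine div_pos ?_ (by positivity)
  have : (√(1 + x ^ 2))⁻¹ * (x * Real.arsinh x⁻¹) -
      Real.arsinh x * (Real.arsinh x⁻¹ - (√(1 + x ^ 2))⁻¹) =
      (√(1 + x ^ 2))⁻¹ * (x * Real.arsinh x⁻¹ + Real.arsinh x -
        Real.arsinh x⁻¹ * Real.arsinh x * √(1 + x ^ 2)) := by
    field_simp
    ring
  rw [this]
  exact mul_pos (inv_pos.2 hs0) hkey

theorem strictMonoOn_K : StrictMonoOn K (Set.Ioi 0) := by
  refine strictMonoOn_of_deriv_pos (convex_Ioi 0) ?_ ?_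
  · intro x hx
    exact (hasDerivAt_K hx).continuousAt.continuousWithinAt
  · intro x hx
    rw [interior_Ioi] at hx
    exact deriv_K_pos hx

theorem pointwise {v S : ℝ} (hv : 0 < v) (hS0 : 0 < S) (hS1 : S < 1) :
    Real.arsinh v * (Real.arsinh (S / v) / S) < Real.arsinh v⁻¹ * Real.arsinh (v / S) := by
  have hvS : 0 < v / S := div_pos hv hS0
  have h := strictMonoOn_K (Set.mem_Ioi.2 hv) (Set.mem_Ioi.2 hvS)
    (by rw [lt_div_iff₀ hS0]; nlinarith)
  unfold K at h
  rw [inv_div] at h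
  have hp : 0 < Real.arsinh v⁻¹ := Real.arsinh_pos_iff.2 (inv_pos.2 hv)
  have hp2 : 0 < Real.arsinh (S / v) := Real.arsinh_pos_iff.2 (by positivity)
  rw [div_lt_div_iff₀ (by positivity) (by positivity)] at h
  have h2 := (mul_lt_mul_iff_right₀ (inv_pos.2 hv)).2 h
  have e1 : Real.arsinh v * (v / S * Real.arsinh (S / v)) * v⁻¹ =
      Real.arsinh v * (Real.arsinh (S / v) / S) := by
    field_simp
  have e2 : Real.arsinh (v / S) * (v * Real.arsinh v⁻¹) * v⁻¹ =
      Real.arsinh v⁻¹ * Real.arsinh (v / S) := by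
    field_simp
  nlinarith [h2, e1, e2]

theorem arsinh_le_log {x : ℝ} (hx : 0 ≤ x) : Real.arsinh x ≤ Real.log (1 + 2 * x) := by
  rw [Real.arsinh]
  refine Real.log_le_log (by positivity) ?_
  have hs : √(1 + x ^ 2) ≤ 1 + x := by
    rw [Real.sqrt_le_left (by positivity)]
    nlinarith
  linarith

theorem integrable_M (m : ℕ) {v : ℝ} (hv : 0 < v) :
    IntegrableOn (fun θ : Fin m → ℝ => Real.arsinh (v / SS θ)) (box m) := by
  have h := integrable_log m (K := 2 * v) (by positivity)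
  refine Integrable.mono' h ?_ ?_
  · exact (Real.continuous_arsinh.measurable.comp
      (measurable_const.div (measurable_SS m))).aestronglyMeasurable
  · refine Filter.Eventually.of_forall fun θ => ?_
    have h0 : 0 ≤ v / SS θ := div_nonneg hv.le (SS_nonneg θ)
    rw [Real.norm_of_nonneg (Real.arsinh_nonneg_iff.2 h0)]
    have := arsinh_le_log h0
    rwa [← mul_div_assoc] at this

theorem integrable_N (m : ℕ) {v : ℝ} (hv : 0 < v) :
    IntegrableOn (fun θ : Fin m → ℝ => Real.arsinh (SS θ / v) / SS θ) (box m) := by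
  have hc : IntegrableOn (fun _ : Fin m → ℝ => v⁻¹) (box m) := by
    refine integrableOn_const ?_
    exact (isCompact_Icc.measure_lt_top).ne
  refine Integrable.mono' hc ?_ ?_
  · exact ((Real.continuous_arsinh.measurable.comp
      ((measurable_SS m).div_const v)).div (measurable_SS m)).aestronglyMeasurable
  · refine Filter.Eventually.of_forall fun θ => ?_
    have h0 : 0 ≤ SS θ / v := div_nonneg (SS_nonneg θ) hv.le
    rw [Real.norm_of_nonneg (div_nonneg (Real.arsinh_nonneg_iff.2 h0) (SS_nonneg θ))]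
    rcases (SS_nonneg θ).eq_or_lt with h | h
    · rw [← h]
      simp [hv.le]
    · rw [div_le_iff₀ h]
      have := (arsinh_lt_self (div_pos h hv)).le
      rw [div_eq_inv_mul] at this ⊢
      convert this using 2

end IneqAux

open IneqAux

theorem NN_lt_MM {m : ℕ} (hm : 1 ≤ m) {v : ℝ} (hv : 0 < v) :
    Real.arsinh v * NN m v < Real.arsinh v⁻¹ * MM m v := by
  have h1 : Real.arsinh v * NN m v =
      ∫ θ in box m, Real.arsinh v * (Real.arsinh (SS θ / v) / SS θ) := by
    rw [NN, integral_const_mul]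
  have h2 : Real.arsinh v⁻¹ * MM m v =
      ∫ θ in box m, Real.arsinh v⁻¹ * Real.arsinh (v / SS θ) := by
    rw [MM, integral_const_mul]
  rw [h1, h2, ← sub_pos, ← integral_sub ((integrable_M m hv).const_mul _)
    ((integrable_N m hv).const_mul _)]
  have hpos : ∀ᵐ θ ∂(volume.restrict (box m) : Measure (Fin m → ℝ)),
      0 < Real.arsinh v⁻¹ * Real.arsinh (v / SS θ) -
        Real.arsinh v * (Real.arsinh (SS θ / v) / SS θ) := by
    filter_upwards [ae_SS hm] with θ hθ
    exact sub_pos.2 (pointwise hv hθ.1 hθ.2)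
  rw [integral_pos_iff_support_of_nonneg_ae (hpos.mono fun θ h => h.le)
    (((integrable_M m hv).const_mul _).sub ((integrable_N m hv).const_mul _))]
  have hs : (volume.restrict (box m) : Measure (Fin m → ℝ))
      (support fun θ => Real.arsinh v⁻¹ * Real.arsinh (v / SS θ) -
        Real.arsinh v * (Real.arsinh (SS θ / v) / SS θ)) =
      (volume.restrict (box m) : Measure (Fin m → ℝ)) Set.univ := by
    refine measure_congr ?_
    filter_upwards [hpos] with θ hθ
    exact propext ⟨fun _ => trivial, fun _ => hθ.ne'⟩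
  rw [hs, Measure.restrict_apply_univ, box, Real.volume_Icc_pi]
  rw [pos_iff_ne_zero, Finset.prod_ne_zero_iff]
  intro i _
  have : 0 < 2 * π - (0 : Fin m → ℝ) i := by
    simp [Real.pi_pos]
  exact (ENNReal.ofReal_pos.2 this).ne'

theorem NN_nonneg (m : ℕ) {v : ℝ} (hv : 0 < v) : 0 ≤ NN m v := by
  refine integral_nonneg fun θ => ?_
  exact div_nonneg (Real.arsinh_nonneg_iff.2 (div_nonneg (SS_nonneg θ) hv.le)) (SS_nonneg θ)

theorem det_pos {m : ℕ} (hm : 1 ≤ m) {v : ℝ} (hv : 0 < v) :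
    NN m v * NN m v⁻¹ < MM m v * MM m v⁻¹ := by
  have h1 := NN_lt_MM hm hv
  have h2 := NN_lt_MM hm (inv_pos.2 hv)
  rw [inv_inv] at h2
  have hp : 0 < Real.arsinh v⁻¹ := Real.arsinh_pos_iff.2 (inv_pos.2 hv)
  have hq : 0 < Real.arsinh v := Real.arsinh_pos_iff.2 hv
  have n1 := NN_nonneg m hv
  have n2 := NN_nonneg m (inv_pos.2 hv)
  have h3 : (Real.arsinh v * NN m v) * (Real.arsinh v⁻¹ * NN m v⁻¹) <
      (Real.arsinh v⁻¹ * MM m v) * (Real.arsinh v * MM m v⁻¹) :=
    mul_lt_mul'' h1 h2 (by positivity) (by positivity)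
  have h4 : (Real.arsinh v * Real.arsinh v⁻¹) * (NN m v * NN m v⁻¹) <
      (Real.arsinh v * Real.arsinh v⁻¹) * (MM m v * MM m v⁻¹) := by
    nlinarith [h3]
  exact lt_of_mul_lt_mul_left h4 (by positivity)

end P4a177t
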