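import Pool.Agent.Lib.P4a177t.Terms

/-!
# MODULE P4a177t.Irr: the hypersurface is geometrically irreducible (est. 2 h)

PROOF. Let `F = map (algebraMap ℚ ℂ) (eqn m u) = ∏ (X_i ^ 2 - 1) - u * ∏ X_i` over `ℂ`. Use
`MvPolynomial.finSuccEquiv ℂ m`; it maps `F` to `P = A * (X ^ 2 - 1) - u * B * X`, a polynomial in
one variable `X` over `MvPolynomial (Fin m) ℂ`, with `A = ∏_j (X_j ^ 2 - 1)`, `B = ∏_j X_j`
(`Fin.prod_univ_succ`). It suffices that `P` is irreducible (`MulEquiv.irreducible_iff`). `P` has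
degree `2` (`A ≠ 0`), so it is not a unit. Let `P = G * H`; `natDegree G + natDegree H = 2`.
* If `natDegree G = 0`, `G = C g`, then `g ∣ A` (coefficient 2) and `g ∣ u * B` (coefficient 1), so
  `g ∣ B`. If `g` were not a unit, it would have an irreducible = prime factor `p`
  (`MvPolynomial` over a field is a UFD), `p ∣ ∏ X_j` so `p ∣ X_j` for some `j`, so `p` is
  associated to `X_j` (`X_j` is prime: `MvPolynomial.prime_X`/`irreducible_X`), so `X_j ∣ A`;
  but evaluation at `X_j = 0`, the other variables equal to `2`, gives `A ≠ 0`. So `G` is a unit.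
  The same for `H`.
* If both degrees are `1`: `G = g1 X + g0`, `H = h1 X + h0`, `g1 h1 = A`, `g1 h0 + g0 h1 = - u B`,
  `g0 h0 = -A`. With `D = g1 h0 - g0 h1`: `D ^ 2 = (g1 h0 + g0 h1)^2 - 4 g0 g1 h0 h1 =
  u^2 B^2 + 4 A^2`. Apply the evaluation `MvPolynomial (Fin m) ℂ → ℂ[t]`, `X_0 ↦ t`, `X_j ↦ K` for
  the other `j` (`m ≥ 2`, so there is at least one), `K` a large real number (`K = 4|u| + 4`):
  with `a = (K^2 - 1)^(m-1)`, `b = K^(m-1)` one gets a polynomial `D(t)` with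
  `D(t)^2 = u^2 b^2 t^2 + 4 a^2 (t^2 - 1)^2`. So `D` has degree `2`, `D = α t^2 + β t + δ`,
  `α^2 = 4 a^2`, `2 α β = 0`, `β^2 + 2 α δ = u^2 b^2 - 8 a^2`, `δ^2 = 4 a^2`. So `β = 0`,
  `δ = ± α`; the sign `+` gives `16 a^2 = u^2 b^2`, impossible as
  `a / b = (K - 1/K)^(m-1) ≥ K - 1/K > |u|`; the sign `-` gives `u^2 b^2 = 0`, impossible.
-/

set_option autoImplicit false

namespace P4a177t

open MvPolynomial

theorem Irr_coeff2 {R : Type*} [CommRing R] (a2 a1 a0 : R) :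
    (Polynomial.C a2 * Polynomial.X ^ 2 + Polynomial.C a1 * Polynomial.X +
      Polynomial.C a0 : Polynomial R).coeff 2 = a2 ∧
    (Polynomial.C a2 * Polynomial.X ^ 2 + Polynomial.C a1 * Polynomial.X +
      Polynomial.C a0 : Polynomial R).coeff 1 = a1 ∧
    (Polynomial.C a2 * Polynomial.X ^ 2 + Polynomial.C a1 * Polynomial.X +
      Polynomial.C a0 : Polynomial R).coeff 0 = a0 := by
  refine ⟨?_, ?_, ?_⟩
  · simp [Polynomial.coeff_C]
  · simp [Polynomial.coeff_C]
  · simp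

theorem Irr_coeff4 {R : Type*} [CommRing R] (a4 a3 a2 a1 a0 : R) :
    (Polynomial.C a4 * Polynomial.X ^ 4 + Polynomial.C a3 * Polynomial.X ^ 3 +
      Polynomial.C a2 * Polynomial.X ^ 2 + Polynomial.C a1 * Polynomial.X +
      Polynomial.C a0 : Polynomial R).coeff 4 = a4 ∧
    (Polynomial.C a4 * Polynomial.X ^ 4 + Polynomial.C a3 * Polynomial.X ^ 3 +
      Polynomial.C a2 * Polynomial.X ^ 2 + Polynomial.C a1 * Polynomial.X +
      Polynomial.C a0 : Polynomial R).coeff 3 = a3 ∧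
    (Polynomial.C a4 * Polynomial.X ^ 4 + Polynomial.C a3 * Polynomial.X ^ 3 +
      Polynomial.C a2 * Polynomial.X ^ 2 + Polynomial.C a1 * Polynomial.X +
      Polynomial.C a0 : Polynomial R).coeff 2 = a2 ∧
    (Polynomial.C a4 * Polynomial.X ^ 4 + Polynomial.C a3 * Polynomial.X ^ 3 +
      Polynomial.C a2 * Polynomial.X ^ 2 + Polynomial.C a1 * Polynomial.X +
      Polynomial.C a0 : Polynomial R).coeff 0 = a0 := by
  refine ⟨?_, ?_, ?_, ?_⟩
  · simp [Polynomial.coeff_X, Polynomial.coeff_C, Polynomial.coeff_X_pow]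
  · simp [Polynomial.coeff_X, Polynomial.coeff_C, Polynomial.coeff_X_pow]
  · simp [Polynomial.coeff_X, Polynomial.coeff_C, Polynomial.coeff_X_pow]
  · simp

/-- an abstract irreducibility criterion for `A X^2 - B X - A` -/
theorem Irr_abstract {R : Type*} [CommRing R] [IsDomain R] (A B : R) (hA : A ≠ 0)
    (hrel : ∀ g : R, g ∣ A → g ∣ B → IsUnit g)
    (hsq : ∀ D : R, D ^ 2 ≠ B ^ 2 + 4 * A ^ 2) (P : Polynomial R)
    (hP : P = Polynomial.C A * Polynomial.X ^ 2 + Polynomial.C (-B) * Polynomial.X +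
      Polynomial.C (-A)) : Irreducible P := by
  obtain ⟨hc2, hc1, hc0⟩ := Irr_coeff2 A (-B) (-A)
  rw [← hP] at hc2 hc1 hc0
  have hP0 : P ≠ 0 := by
    intro h
    rw [h, Polynomial.coeff_zero] at hc2
    exact hA hc2.symm
  have hdle : P.natDegree ≤ 2 := by
    rw [hP]
    compute_degree
  have hd : P.natDegree = 2 := by
    refine le_antisymm hdle ?_
    refine Polynomial.le_natDegree_of_ne_zero ?_
    rw [hc2]
    exact hA
  have hconst : ∀ g : R, Polynomial.C g ∣ P → IsUnit (Polynomial.C g) := by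
    intro g hg
    rw [Polynomial.C_dvd_iff_dvd_coeff] at hg
    refine Polynomial.isUnit_C.2 (hrel g ?_ ?_)
    · have := hg 2
      rwa [hc2] at this
    · have := hg 1
      rwa [hc1, dvd_neg] at this
  refine ⟨?_, ?_⟩
  · intro hu
    have := Polynomial.natDegree_eq_zero_of_isUnit hu
    omega
  · intro G H hGH
    have hG0 : G ≠ 0 := by
      intro h
      rw [h, zero_mul] at hGH
      exact hP0 hGH
    have hH0 : H ≠ 0 := by
      intro h
      rw [h, mul_zero] at hGH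
      exact hP0 hGH
    have hdeg : G.natDegree + H.natDegree = 2 := by
      rw [← hd, hGH, Polynomial.natDegree_mul hG0 hH0]
    have hcase : G.natDegree = 0 ∨ H.natDegree = 0 ∨ (G.natDegree = 1 ∧ H.natDegree = 1) := by
      omega
    rcases hcase with h | h | ⟨h1, h2⟩
    · left
      rw [Polynomial.eq_C_of_natDegree_eq_zero h]
      refine hconst _ ?_
      rw [← Polynomial.eq_C_of_natDegree_eq_zero h, hGH]
      exact dvd_mul_right _ _
    · right
      rw [Polynomial.eq_C_of_natDegree_eq_zero h]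
      refine hconst _ ?_
      rw [← Polynomial.eq_C_of_natDegree_eq_zero h, hGH]
      exact dvd_mul_left _ _
    · exfalso
      obtain ⟨g1, g0, hG⟩ := Polynomial.exists_eq_X_add_C_of_natDegree_le_one h1.le
      obtain ⟨h1', h0', hH⟩ := Polynomial.exists_eq_X_add_C_of_natDegree_le_one h2.le
      have hprod : G * H = Polynomial.C (g1 * h1') * Polynomial.X ^ 2 +
          Polynomial.C (g1 * h0' + g0 * h1') * Polynomial.X + Polynomial.C (g0 * h0') := by
        rw [hG, hH]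
        simp only [map_mul, map_add]
        ring
      rw [← hGH] at hprod
      obtain ⟨d2, d1, d0⟩ := Irr_coeff2 (g1 * h1') (g1 * h0' + g0 * h1') (g0 * h0')
      rw [← hprod] at d2 d1 d0
      rw [hc2] at d2
      rw [hc1] at d1
      rw [hc0] at d0
      refine hsq (g1 * h0' - g0 * h1') ?_
      linear_combination (B - (g1 * h0' + g0 * h1')) * d1 - (4 * A) * d2 +
        4 * (g1 * h1') * d0

theorem Irr_rel (m : ℕ) (c : ℂ) (hc : c ≠ 0) (g : MvPolynomial (Fin m) ℂ)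
    (h1 : g ∣ ∏ j, (X j ^ 2 - 1)) (h2 : g ∣ C c * ∏ j, X j) : IsUnit g := by
  have hrel : IsRelPrime (∏ j : Fin m, ((X j : MvPolynomial (Fin m) ℂ) ^ 2 - 1)) (∏ j, X j) := by
    refine IsRelPrime.prod_right fun j _ => ?_
    refine IsRelPrime.symm ?_
    rw [(MvPolynomial.X_prime (i := j)).irreducible.isRelPrime_iff_not_dvd]
    rintro ⟨q, hq⟩
    have h := congrArg (MvPolynomial.eval (fun _ => (0 : ℂ))) hq
    rw [map_prod, map_mul, MvPolynomial.eval_X, zero_mul] at h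
    simp only [map_sub, map_pow, MvPolynomial.eval_X, map_one] at h
    rw [Finset.prod_const] at h
    have : ((0 : ℂ) ^ 2 - 1) ≠ 0 := by norm_num
    exact pow_ne_zero _ this h
  have hcu : IsUnit (C c : MvPolynomial (Fin m) ℂ) :=
    (isUnit_iff_ne_zero.2 hc).map (C : ℂ →+* MvPolynomial (Fin m) ℂ)
  exact hrel h1 ((hcu.dvd_mul_left).1 h2)

theorem Irr_sq (a b : ℂ) (ha : a ≠ 0) (hb : b ≠ 0) (hab : b ^ 2 ≠ 16 * a ^ 2)
    (D : Polynomial ℂ) : D ^ 2 ≠ (Polynomial.C b * Polynomial.X) ^ 2 +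
      4 * (Polynomial.C a * (Polynomial.X ^ 2 - 1)) ^ 2 := by
  intro h
  have hrhs : (Polynomial.C b * Polynomial.X) ^ 2 +
      4 * (Polynomial.C a * (Polynomial.X ^ 2 - 1)) ^ 2 =
      Polynomial.C (4 * a ^ 2) * Polynomial.X ^ 4 + Polynomial.C 0 * Polynomial.X ^ 3 +
        Polynomial.C (b ^ 2 - 8 * a ^ 2) * Polynomial.X ^ 2 + Polynomial.C 0 * Polynomial.X +
          Polynomial.C (4 * a ^ 2) := by
    have h4 : (Polynomial.C 4 : Polynomial ℂ) = 4 := Polynomial.C_ofNat 4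
    have h8 : (Polynomial.C 8 : Polynomial ℂ) = 8 := Polynomial.C_ofNat 8
    simp only [map_mul, map_sub, map_pow, h4, h8, map_zero]
    ring
  rw [hrhs] at h
  have hdeg : D.natDegree = 2 := by
    have h1 : (D ^ 2).natDegree = 4 := by
      rw [h]
      have h4a : (4 * a ^ 2) ≠ 0 := mul_ne_zero (by norm_num) (pow_ne_zero 2 ha)
      compute_degree!
    rw [Polynomial.natDegree_pow] at h1
    omega
  have hD := Polynomial.eq_quadratic_of_degree_le_two
    (p := D) (Polynomial.natDegree_le_iff_degree_le.1 hdeg.le)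
  generalize D.coeff 2 = α at hD
  generalize D.coeff 1 = β at hD
  generalize D.coeff 0 = δ at hD
  have hlhs : D ^ 2 = Polynomial.C (α ^ 2) * Polynomial.X ^ 4 +
      Polynomial.C (2 * α * β) * Polynomial.X ^ 3 +
      Polynomial.C (β ^ 2 + 2 * α * δ) * Polynomial.X ^ 2 +
      Polynomial.C (2 * β * δ) * Polynomial.X + Polynomial.C (δ ^ 2) := by
    have h2 : (Polynomial.C 2 : Polynomial ℂ) = 2 := Polynomial.C_ofNat 2
    rw [hD]
    simp only [map_mul, map_add, map_pow, h2]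
    ring
  rw [hlhs] at h
  obtain ⟨l4, l3, l2, l0⟩ := Irr_coeff4 (α ^ 2) (2 * α * β) (β ^ 2 + 2 * α * δ) (2 * β * δ) (δ ^ 2)
  obtain ⟨r4, r3, r2, r0⟩ := Irr_coeff4 (4 * a ^ 2) 0 (b ^ 2 - 8 * a ^ 2) 0 (4 * a ^ 2)
  rw [h, r4] at l4
  rw [h, r3] at l3
  rw [h, r2] at l2
  rw [h, r0] at l0
  have hα : α ≠ 0 := by
    intro h0
    rw [h0] at l4
    have : a ^ 2 = 0 := by linear_combination l4 / 4
    exact ha (pow_eq_zero_iff (two_ne_zero) |>.1 this)
  have hβ : β = 0 := by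
    rcases mul_eq_zero.1 l3.symm with h1 | h1
    · exact absurd (mul_eq_zero.1 h1) (by simp [hα])
    · exact h1
  have hδ : (δ - α) * (δ + α) = 0 := by linear_combination l4 - l0
  rcases mul_eq_zero.1 hδ with h1 | h1
  · have e : δ = α := sub_eq_zero.1 h1
    rw [e, hβ] at l2
    apply hab
    linear_combination l2 - 2 * l4
  · have e : δ = -α := eq_neg_of_add_eq_zero_left h1
    rw [e, hβ] at l2
    have : b ^ 2 = 0 := by linear_combination l2 + 2 * l4
    exact hb (pow_eq_zero_iff (two_ne_zero) |>.1 this)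

theorem Irr_num (u : ℤ) (k : ℕ) :
    ((u : ℂ) * 3 ^ (k + 1)) ^ 2 ≠ 16 * (8 ^ (k + 1)) ^ 2 := by
  intro h
  have h1 : (u * 3 ^ (k + 1)) ^ 2 = 16 * (8 ^ (k + 1)) ^ 2 := by
    exact_mod_cast h
  have h2 : (3 : ℤ) ∣ 16 * (8 ^ (k + 1)) ^ 2 := by
    rw [← h1]
    exact dvd_pow (Dvd.dvd.mul_left (dvd_pow_self 3 (Nat.succ_ne_zero k)) u) two_ne_zero
  have hp : Prime (3 : ℤ) := Int.prime_three
  rcases hp.dvd_or_dvd h2 with h3 | h3
  · norm_num at h3
  · have h4 := hp.dvd_of_dvd_pow (hp.dvd_of_dvd_pow h3)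
    norm_num at h4

theorem geomIrreducible {m : ℕ} (hm : 2 ≤ m) {u : ℤ} (hu : u ≠ 0) : GeomIrreducible m u := by
  unfold GeomIrreducible
  have huC : (u : ℂ) ≠ 0 := Int.cast_ne_zero.2 hu
  rw [← MulEquiv.irreducible_iff (MvPolynomial.finSuccEquiv ℂ m)]
  have hmap := map_eqn (m := m) (u := u)
    (((MvPolynomial.finSuccEquiv ℂ m : MvPolynomial (Fin (m + 1)) ℂ ≃ₐ[ℂ] _) :
      MvPolynomial (Fin (m + 1)) ℂ →+* Polynomial (MvPolynomial (Fin m) ℂ)).comp
      (MvPolynomial.map (algebraMap ℚ ℂ)))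
  have hX : ∀ i : Fin (m + 1), (((MvPolynomial.finSuccEquiv ℂ m :
      MvPolynomial (Fin (m + 1)) ℂ ≃ₐ[ℂ] _) :
      MvPolynomial (Fin (m + 1)) ℂ →+* Polynomial (MvPolynomial (Fin m) ℂ)).comp
      (MvPolynomial.map (algebraMap ℚ ℂ))) (X i) = MvPolynomial.finSuccEquiv ℂ m (X i) := by
    intro i
    rw [RingHom.comp_apply, MvPolynomial.map_X]
    rfl
  simp only [hX] at hmap
  rw [Fin.prod_univ_succ, Fin.prod_univ_succ] at hmap
  simp only [MvPolynomial.finSuccEquiv_X_zero, MvPolynomial.finSuccEquiv_X_succ] at hmap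
  refine Irr_abstract (∏ j : Fin m, ((X j : MvPolynomial (Fin m) ℂ) ^ 2 - 1))
    (C (u : ℂ) * ∏ j, X j) ?_ ?_ ?_ _ ?_
  · rw [Finset.prod_ne_zero_iff]
    intro j _ h
    have h' := congrArg (MvPolynomial.eval (fun _ => (0 : ℂ))) h
    simp at h'
  · intro g h1 h2
    exact Irr_rel m u huC g h1 h2
  · intro D hD
    obtain ⟨k, rfl⟩ : ∃ k, m = k + 2 := ⟨m - 2, by omega⟩
    let φ : MvPolynomial (Fin (k + 2)) ℂ →ₐ[ℂ] Polynomial ℂ :=
      MvPolynomial.aeval (Fin.cons Polynomial.X (fun _ => Polynomial.C 3))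
    have hφ0 : φ (X 0) = Polynomial.X := by
      simp [φ]
    have hφs : ∀ j : Fin (k + 1), φ (X j.succ) = Polynomial.C 3 := by
      intro j
      simp [φ]
    have hφ := congrArg φ hD
    simp only [map_add, map_mul, map_prod, Fin.prod_univ_succ (n := k + 1),
      map_sub, map_pow, map_one, hφ0, hφs] at hφ
    rw [Finset.prod_const, Finset.prod_const, Finset.card_univ, Fintype.card_fin] at hφ
    have hC : φ (C (u : ℂ)) = Polynomial.C (u : ℂ) := by
      simp [φ]
    have h4 : φ 4 = 4 := map_ofNat φ 4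
    rw [hC, h4] at hφ
    refine Irr_sq (8 ^ (k + 1)) ((u : ℂ) * 3 ^ (k + 1)) (pow_ne_zero _ (by norm_num))
      (mul_ne_zero huC (pow_ne_zero _ (by norm_num))) (Irr_num u k) (φ D) ?_
    rw [hφ]
    have h8 : (Polynomial.C (3 : ℂ) ^ 2 - 1 : Polynomial ℂ) = Polynomial.C 8 := by
      rw [← map_pow, ← map_one Polynomial.C, ← map_sub]
      norm_num
    rw [h8]
    simp only [map_mul, map_pow]
    ring
  · refine hmap.trans ?_
    have e1 : ∏ j : Fin m, ((Polynomial.C (X j : MvPolynomial (Fin m) ℂ)) ^ 2 - 1) =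
        Polynomial.C (∏ j : Fin m, ((X j : MvPolynomial (Fin m) ℂ) ^ 2 - 1)) := by
      rw [map_prod]
      exact Finset.prod_congr rfl fun j _ => by rw [map_sub, map_pow, map_one]
    have e2 : ∏ j : Fin m, (Polynomial.C (X j : MvPolynomial (Fin m) ℂ)) =
        Polynomial.C (∏ j : Fin m, (X j : MvPolynomial (Fin m) ℂ)) := (map_prod _ _ _).symm
    rw [e1, e2]
    have e3 : ((u : ℤ) : Polynomial (MvPolynomial (Fin m) ℂ)) = Polynomial.C (C (u : ℂ)) := by
      simp
    rw [e3, map_neg, map_neg, map_mul]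
    ring

end P4a177t
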