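import Pool.Agent.Lib.P4a177t.RootB
import Pool.Agent.Lib.P4a177t.RootC
import Pool.Agent.Lib.P4a177t.Circ
import Pool.Agent.Lib.P4a177t.LogInt

/-!
# MODULE P4a177t.Lim1: the first limit (est. 1.2 h)

PROOF. Dominated convergence `MeasureTheory.tendsto_integral_filter_of_dominated_convergence` for the
filter `𝓝[<] 1`, `volume.restrict (box m)`. Let `r0` be as in `good_cc`; eventually
`r0 < r < 1`. For those `r`: `0 ≤ log ‖root (cc u r θ)‖ ≤ log (1 + ‖cc u r θ‖) ≤
log (1 + K / SS θ)`, `K = |u| / 2^m`, if `0 < SS θ` (`one_lt_norm_root`, `norm_root_le`,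
`norm_cc_le`), integrable by `integrable_log`. Measurability: `θ ↦ root (cc u r θ)` is continuous
(`root_contDiffAt`, `good_cc`, `cc` is a continuous function of `θ` because `PP r θ ≠ 0`).
Pointwise limit: for `0 < SS θ` (almost all `θ`, `ae_SS`), by `tendsto_cc` and the continuity
of `root` at `t` (`root_contDiffAt (good_real ht)`), the limit is `log ‖root t‖ =
arsinh (|t| / 2)` (`log_norm_root_real`) and `|t| / 2 = |u| / 2^(m+1) / SS θ`.
-/

set_option autoImplicit false

namespace P4a177t

open P4a177h Function MeasureTheory Filter Topology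
open scoped Real

private theorem continuous_circ (r : ℝ) : Continuous (circ r) := by
  unfold circ
  fun_prop

private theorem continuous_PP {m : ℕ} {r : ℝ} (h0 : 0 < r) :
    Continuous (fun θ : Fin m → ℝ => PP r θ) := by
  unfold PP
  apply continuous_finsetProd
  intro j _
  have h1 : Continuous (fun θ : Fin m → ℝ => circ r (θ j)) :=
    (continuous_circ r).comp (continuous_apply j)
  refine h1.sub (h1.inv₀ ?_)
  intro θ
  rw [circ]
  exact mul_ne_zero (by exact_mod_cast h0.ne') (Complex.exp_ne_zero _)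

private theorem continuous_cc {m : ℕ} (u : ℤ) {r : ℝ} (h0 : 0 < r) (h1 : r < 1) :
    Continuous (fun θ : Fin m → ℝ => cc u r θ) := by
  unfold cc
  exact continuous_const.div (continuous_PP h0) (fun θ => PP_ne_zero h0 h1 θ)

theorem tendsto_log_root {m : ℕ} (hm : Even m) (hm1 : 1 ≤ m) {u : ℤ} (hu : u ≠ 0) :
    Tendsto (fun r : ℝ => ∫ θ in box m, Real.log ‖root (cc u r θ)‖) (𝓝[<] 1)
      (𝓝 (MM m (|(u : ℝ)| / 2 ^ (m + 1)))) := by
  obtain ⟨r0, hr0, hr01, hgood⟩ := good_cc hm hu
  have hev : ∀ᶠ r in 𝓝[<] (1 : ℝ), r0 < r ∧ r < 1 := Ioo_mem_nhdsLT hr01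
  have hK : (0 : ℝ) ≤ |(u : ℝ)| / 2 ^ m := by positivity
  refine tendsto_integral_filter_of_dominated_convergence
    (fun θ : Fin m → ℝ => Real.log (1 + |(u : ℝ)| / 2 ^ m / SS θ)) ?_ ?_ (integrable_log m hK) ?_
  · filter_upwards [hev] with r hr
    have h0 : 0 < r := hr0.trans hr.1
    apply Continuous.aestronglyMeasurable
    have h1 : Continuous (fun θ : Fin m → ℝ => root (cc u r θ)) := by
      rw [continuous_iff_continuousAt]
      intro θ
      exact ContinuousAt.comp (g := root) (root_contDiffAt (hgood r hr.1 hr.2 θ)).continuousAt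
        (continuous_cc u h0 hr.2).continuousAt
    refine h1.norm.log ?_
    intro θ
    have := one_lt_norm_root (hgood r hr.1 hr.2 θ)
    linarith
  · filter_upwards [hev] with r hr
    have h0 : 0 < r := hr0.trans hr.1
    filter_upwards [ae_SS hm1] with θ hθ
    have h1 := one_lt_norm_root (hgood r hr.1 hr.2 θ)
    have h2 := norm_root_le (hgood r hr.1 hr.2 θ)
    have h3 := norm_cc_le u h0 hr.2 θ hθ.1
    rw [Real.norm_of_nonneg (Real.log_nonneg h1.le)]
    apply Real.log_le_log (by linarith)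
    have h4 : |(u : ℝ)| / 2 ^ m / SS θ = |(u : ℝ)| / (2 ^ m * SS θ) := by
      rw [div_div]
    rw [h4]
    linarith
  · filter_upwards [ae_SS hm1] with θ hθ
    obtain ⟨t, ht, habs, hlim⟩ := tendsto_cc hm hu θ hθ.1
    have h1 : Tendsto (fun r => root (cc u r θ)) (𝓝[<] 1) (𝓝 (root (t : ℂ))) :=
      Tendsto.comp (root_contDiffAt (good_real ht)).continuousAt.tendsto hlim
    have h2 : ‖root (t : ℂ)‖ ≠ 0 := by
      have := one_lt_norm_root (good_real ht)
      linarith
    have h3 := h1.norm.log h2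
    rw [log_norm_root_real ht] at h3
    have h4 : |t| / 2 = |(u : ℝ)| / 2 ^ (m + 1) / SS θ := by
      rw [habs, div_div, div_div, pow_succ]
      congr 1
      ring
    rwa [h4] at h3

end P4a177t
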