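import Pool.Agent.Lib.P4a177t.RootB
import Pool.Agent.Lib.P4a177t.RootC
import Pool.Agent.Lib.P4a177t.Circ
import Pool.Agent.Lib.P4a177t.LogInt

/-!
# MODULE P4a177t.Lim2: the second limit (est. 1.2 h)

PROOF. Dominated convergence for the filter `𝓝[<] 1`, `volume.restrict (box m)`.
For `r0 < r < 1` (`good_cc`), `2^m / PP r θ = (2^m / u) * cc u r θ`, so the integrand is
`(2^m / u) * re (cc * LL cc)`, bounded by the constant `2^m / |u| * 50` (`norm_mul_LL_le`);
the box has finite measure. Measurability: `θ ↦ LL (cc u r θ)` is continuous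
(`LL_continuousAt`, `cc` is continuous in `θ`).
Pointwise limit for `0 < SS θ` (almost all `θ`, `ae_SS`): by `tendsto_cc` and
`LL_continuousAt (good_real ht)`, the limit is `(2^m / u) * re (t * LL t) =
-(2^m / u) * t * arsinh (2 / t) = -(2^m / u) * |t| * arsinh (2 / |t|)` (`LL_real`; `arsinh` is odd),
and with `|t| = |u| / (2^m SS θ)`, `v = |u| / 2^(m+1)`: `2 / |t| = SS θ / v`,
`(2^m / u) * |t| = (|u| / u) / SS θ`. So the limit is `-(|u| / u) * arsinh (SS θ / v) / SS θ`.
-/

set_option autoImplicit false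

namespace P4a177t

open P4a177h Function MeasureTheory Filter Topology
open scoped Real

namespace Lim2Aux

theorem circ_ne_zero {r : ℝ} (h0 : 0 < r) (t : ℝ) : circ r t ≠ 0 := by
  unfold circ
  exact mul_ne_zero (by exact_mod_cast h0.ne') (Complex.exp_ne_zero _)

theorem circ_continuous (r : ℝ) : Continuous (circ r) := by
  unfold circ
  fun_prop

theorem cc_continuous {m : ℕ} (u : ℤ) {r : ℝ} (h0 : 0 < r) (h1 : r < 1) :
    Continuous fun θ : Fin m → ℝ => cc u r θ := by
  unfold cc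
  refine Continuous.div continuous_const ?_ fun θ => PP_ne_zero h0 h1 θ
  unfold PP
  refine continuous_finsetProd _ fun j _ => ?_
  have h : Continuous fun θ : Fin m → ℝ => circ r (θ j) :=
    (circ_continuous r).comp (continuous_apply j)
  exact h.sub (h.inv₀ fun θ => circ_ne_zero h0 _)

theorem two_pow_div {m : ℕ} {u : ℤ} (hu : u ≠ 0) (r : ℝ) (θ : Fin m → ℝ) :
    (2 : ℂ) ^ m / PP r θ = 2 ^ m / (u : ℂ) * cc u r θ := by
  have hu' : (u : ℂ) ≠ 0 := by exact_mod_cast hu
  unfold cc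
  rw [div_mul_div_comm, mul_comm (u : ℂ) (PP r θ), mul_div_mul_right _ _ hu']

theorem odd_mul (t : ℝ) : Real.arsinh (2 / t) * t = Real.arsinh (2 / |t|) * |t| := by
  rcases le_total 0 t with h | h
  · rw [abs_of_nonneg h]
  · rw [abs_of_nonpos h, div_neg, Real.arsinh_neg]
    ring

end Lim2Aux

open Lim2Aux

theorem tendsto_LL {m : ℕ} (hm : Even m) (hm1 : 1 ≤ m) {u : ℤ} (hu : u ≠ 0) :
    Tendsto (fun r : ℝ => ∫ θ in box m, (LL (cc u r θ) * (2 ^ m / PP r θ)).re) (𝓝[<] 1)
      (𝓝 (-(|(u : ℝ)| / u) * NN m (|(u : ℝ)| / 2 ^ (m + 1)))) := by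
  have hu' : (u : ℂ) ≠ 0 := by exact_mod_cast hu
  have huR : (u : ℝ) ≠ 0 := by exact_mod_cast hu
  have hua : 0 < |(u : ℝ)| := abs_pos.2 huR
  obtain ⟨r0, hr0, hr01, hgood⟩ := good_cc hm hu
  have hev : ∀ᶠ r : ℝ in 𝓝[<] 1, r0 < r ∧ r < 1 := by
    have h1 : ∀ᶠ r : ℝ in 𝓝[<] 1, r < 1 := eventually_mem_nhdsWithin
    have h2 : ∀ᶠ r : ℝ in 𝓝[<] 1, r0 < r :=
      (eventually_gt_nhds hr01).filter_mono nhdsWithin_le_nhds
    exact h2.and h1
  have hfin : IsFiniteMeasure (volume.restrict (box m) : Measure (Fin m → ℝ)) := by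
    refine ⟨?_⟩
    rw [Measure.restrict_apply_univ]
    exact (isCompact_Icc : IsCompact (box m)).measure_lt_top
  unfold NN
  rw [← integral_const_mul]
  refine tendsto_integral_filter_of_dominated_convergence
    (fun _ => 2 ^ m / |(u : ℝ)| * 50) ?_ ?_ ?_ ?_
  · filter_upwards [hev] with r hr
    have h0 : 0 < r := hr0.trans hr.1
    have hc := cc_continuous (m := m) u h0 hr.2
    have hL : Continuous fun θ : Fin m → ℝ => LL (cc u r θ) := by
      rw [continuous_iff_continuousAt]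
      intro θ
      exact ContinuousAt.comp (f := fun θ : Fin m → ℝ => cc u r θ) (g := LL)
        (LL_continuousAt (hgood r hr.1 hr.2 θ)) hc.continuousAt
    refine Continuous.aestronglyMeasurable ?_
    simp only [two_pow_div hu]
    exact Complex.continuous_re.comp (hL.mul (continuous_const.mul hc))
  · filter_upwards [hev] with r hr
    refine Eventually.of_forall fun θ => ?_
    have hg := hgood r hr.1 hr.2 θ
    rw [two_pow_div hu, Real.norm_eq_abs]
    refine (Complex.abs_re_le_norm _).trans ?_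
    have h1 : LL (cc u r θ) * (2 ^ m / (u : ℂ) * cc u r θ) =
        2 ^ m / (u : ℂ) * (cc u r θ * LL (cc u r θ)) := by ring
    rw [h1, norm_mul]
    have h2 : ‖(2 : ℂ) ^ m / (u : ℂ)‖ = 2 ^ m / |(u : ℝ)| := by
      rw [norm_div, norm_pow, Complex.norm_ofNat, Complex.norm_intCast]
    rw [h2]
    exact mul_le_mul_of_nonneg_left (norm_mul_LL_le hg) (by positivity)
  · exact integrable_const _
  · filter_upwards [ae_SS hm1] with θ hθ
    obtain ⟨t, ht, htabs, htend⟩ := tendsto_cc hm hu θ hθ.1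
    have hL : Tendsto (fun r => LL (cc u r θ)) (𝓝[<] 1) (𝓝 (LL (t : ℂ))) :=
      (LL_continuousAt (good_real ht)).tendsto.comp htend
    have h1 : Tendsto (fun r => (LL (cc u r θ) * (2 ^ m / PP r θ)).re) (𝓝[<] 1)
        (𝓝 (LL (t : ℂ) * (2 ^ m / (u : ℂ) * (t : ℂ))).re) := by
      simp only [two_pow_div hu]
      exact (Complex.continuous_re.tendsto _).comp (hL.mul (tendsto_const_nhds.mul htend))
    have h2 : (LL (t : ℂ) * (2 ^ m / (u : ℂ) * (t : ℂ))).re =
        -(|(u : ℝ)| / u) * (Real.arsinh (SS θ / (|(u : ℝ)| / 2 ^ (m + 1))) / SS θ) := by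
      rw [LL_real ht]
      have h3 : (((-Real.arsinh (2 / t) : ℝ) : ℂ) * (2 ^ m / (u : ℂ) * (t : ℂ))) =
          ((-(2 ^ m / u) * (Real.arsinh (2 / t) * t) : ℝ) : ℂ) := by
        push_cast
        ring
      rw [h3, Complex.ofReal_re, odd_mul, htabs]
      have h4 : (2 : ℝ) / (|(u : ℝ)| / (2 ^ m * SS θ)) = SS θ / (|(u : ℝ)| / 2 ^ (m + 1)) := by
        have := hθ.1.ne'
        field_simp
        ring
      rw [h4]
      have := hθ.1.ne'
      field_simp
    rw [← h2]
    exact h1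

end P4a177t
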