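import Pool.Agent.Lib.P4a177h.RegMul

/-!
# MODULE P4a177t.Scale: homogeneity of the regulator integral (est. 0.5 h)

PROOF. `regMatrix γ a k θ = s • regMatrix γ' b k θ` (`s` is real), so the determinant is multiplied
by `s ^ m` (`Matrix.det_smul`), and the logarithm by `s`.
-/

set_option autoImplicit false

namespace P4a177t

open P4a177h Function MeasureTheory
open scoped Real

theorem regFun_scale {m : ℕ} {R R' : Type} [CommRing R] [CommRing R'] (γ : Torus m R)
    (γ' : Torus m R') (a : Fin (m + 1) → Rˣ) (b : Fin (m + 1) → R'ˣ) (s : ℝ)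
    (h1 : ∀ k θ, Real.log ‖γ.emb θ (a k : R)‖ = s * Real.log ‖γ'.emb θ (b k : R')‖)
    (h2 : ∀ k θ l, dlogRow γ (a k) θ l = (s : ℂ) * dlogRow γ' (b k) θ l) :
    regFun γ a = s ^ (m + 1) * regFun γ' b := by
  have hform : ∀ θ, regForm γ a θ = s ^ (m + 1) * regForm γ' b θ := by
    intro θ
    unfold regForm
    rw [Finset.mul_sum]
    refine Finset.sum_congr rfl fun k _ => ?_
    have hM : regMatrix γ a k θ = (s : ℂ) • regMatrix γ' b k θ := by
      ext i l
      simp only [regMatrix, Matrix.of_apply, Matrix.smul_apply, smul_eq_mul, h2]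
      split_ifs
      · rw [Complex.re_ofReal_mul, Complex.ofReal_mul]
      · rfl
    have hdet : (regMatrix γ a k θ).det.re = s ^ m * (regMatrix γ' b k θ).det.re := by
      rw [hM, Matrix.det_smul, Fintype.card_fin, ← Complex.ofReal_pow, Complex.re_ofReal_mul]
    rw [hdet, h1]
    ring
  unfold regFun
  rw [← integral_const_mul]
  exact integral_congr_ae (Filter.Eventually.of_forall fun θ => hform θ)

end P4a177t
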