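import Pool.Agent.Lib.P4a177t.Terms

/-!
# MODULE P4a177t.Sm: smoothness (est. 1.2 h)

PROOF of `smooth`. `aeval_eqn_eq_zero`, `On`. Put `P_s = ∏_{i ≠ s} (y_i^2 - 1)`. One has
`aeval y (pderiv s (eqn m u)) = 2 y_s P_s - u ∏_{i ≠ s} y_i`. Multiply by `y_s`:
`2 y_s^2 P_s - u ∏ y_i = 2 y_s^2 P_s - ∏ (y_i^2 - 1) = P_s (2 y_s^2 - y_s^2 + 1) = P_s (y_s^2 + 1)`.
As `∏ (y_i^2 - 1) = u ∏ y_i ≠ 0`, all the `P_s` are nonzero. So if all the partial derivatives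
vanished, then `y_s^2 = -1` for all `s`, so `(-2)^(m+1) = u ∏ y_i`, and squaring,
`4^(m+1) = u^2 ∏ y_i^2 = u^2 (-1)^(m+1) = -u^2` (`m` even), i.e. `4^(m+1) + u^2 = 0` in `ℂ`, which
is false in `ℤ`.

PROOF of `smoothClosure_two`. Write `a_i = y (i, 0)`, `b_i = y (i, 1)`, `Q_s = ∏_{i ≠ s} (a_i^2 -
b_i^2)`, `T_s = u ∏_{i ≠ s} a_i b_i` (`i ∈ Fin 3`; one can expand everything by
`Fin.prod_univ_three`). Partial derivatives: `2 a_s Q_s - b_s T_s` and `-2 b_s Q_s - a_s T_s`. If all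
vanish then `(a_s^2 + b_s^2) T_s = 0` and `(a_s^2 + b_s^2) Q_s = 0` for all `s`. If
`a_s^2 + b_s^2 = 0` for all `s` then no `a_s, b_s` is zero, the equation
`∏ (a_i^2 - b_i^2) = u ∏ a_i b_i` gives `-8 ∏ b_i^2 = u ∏ a_i b_i`, so `-8 ∏ b_i = u ∏ a_i`, and
squaring `64 ∏ b_i^2 = u^2 ∏ a_i^2 = - u^2 ∏ b_i^2`, impossible. Otherwise some `s` has
`Q_s = T_s = 0`; let `i, j` be the other two indices. From `Q_s = 0`, say `a_i^2 = b_i^2`, so
`a_i, b_i ≠ 0`, and `T_s = 0` gives `a_j b_j = 0`, so `a_j^2 - b_j^2 ≠ 0`. As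
`a_i^2 + b_i^2 = 2 a_i^2 ≠ 0`, `Q_i = 0`, so `a_s^2 = b_s^2` and `a_s, b_s ≠ 0`. As
`a_j^2 + b_j^2 ≠ 0`, `T_j = 0`, i.e. `u a_i b_i a_s b_s = 0`, a contradiction.
-/

set_option autoImplicit false

namespace P4a177t

open MvPolynomial

section SmAux

theorem Sm_pderiv_prod_zero {σ ι : Type*} (s : σ) (T : Finset ι) (f : ι → MvPolynomial σ ℚ)
    (h : ∀ i ∈ T, pderiv s (f i) = 0) : pderiv s (∏ i ∈ T, f i) = 0 := by
  refine Finset.prod_induction f (fun p => pderiv s p = 0) ?_ ?_ h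
  · intro a b ha hb
    rw [Derivation.leibniz, ha, hb, smul_zero, smul_zero, add_zero]
  · exact (pderiv s).map_one_eq_zero

theorem Sm_pderiv {m : ℕ} (u : ℤ) (s : Fin (m + 1)) (y : Fin (m + 1) → ℂ) :
    aeval y (pderiv s (eqn m u)) = 2 * y s * ∏ i ∈ Finset.univ.erase s, (y i ^ 2 - 1) -
      (u : ℂ) * ∏ i ∈ Finset.univ.erase s, y i := by
  have h1 : eqn m u = (X s ^ 2 - 1) * ∏ i ∈ Finset.univ.erase s, (X i ^ 2 - 1) -
      C (u : ℚ) * (X s * ∏ i ∈ Finset.univ.erase s, X i) := by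
    rw [eqn_def]
    rw [← Finset.mul_prod_erase Finset.univ (fun i => (X i ^ 2 - 1 : MvPolynomial (Fin (m + 1)) ℚ))
      (Finset.mem_univ s), ← Finset.mul_prod_erase Finset.univ
      (fun i => (X i : MvPolynomial (Fin (m + 1)) ℚ)) (Finset.mem_univ s)]
  have h2 : pderiv s (∏ i ∈ Finset.univ.erase s, (X i ^ 2 - 1 : MvPolynomial (Fin (m + 1)) ℚ)) =
      0 := by
    apply Sm_pderiv_prod_zero
    intro i hi
    rw [map_sub, Derivation.leibniz_pow, pderiv_X_of_ne (Finset.ne_of_mem_erase hi),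
      (pderiv s).map_one_eq_zero, smul_zero, smul_zero, sub_zero]
  have h3 : pderiv s (∏ i ∈ Finset.univ.erase s, (X i : MvPolynomial (Fin (m + 1)) ℚ)) = 0 := by
    apply Sm_pderiv_prod_zero
    intro i hi
    exact pderiv_X_of_ne (Finset.ne_of_mem_erase hi)
  have h5 : pderiv s (X s ^ 2 - 1 : MvPolynomial (Fin (m + 1)) ℚ) = 2 * X s := by
    rw [map_sub, Derivation.leibniz_pow, pderiv_X_self, (pderiv s).map_one_eq_zero]
    simp
  rw [h1, map_sub, Derivation.leibniz, h2, Derivation.leibniz, Derivation.leibniz, h3,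
    h5, pderiv_X_self, pderiv_C]
  have h4 : (algebraMap ℚ ℂ) (u : ℚ) = (u : ℂ) := map_intCast _ _
  simp only [smul_eq_mul, mul_zero, zero_add, add_zero, mul_one, map_sub, map_mul,
    aeval_X, aeval_C, map_prod, map_pow, map_one, h4, map_ofNat]
  ring

end SmAux

theorem smooth {m : ℕ} (hm : Even m) {u : ℤ} (hu : u ≠ 0) : Smooth m u := by
  intro y hy h0
  by_contra hcon
  push Not at hcon
  rw [aeval_eqn_eq_zero] at h0
  have h0' : ∏ i, (y i ^ 2 - 1) = (u : ℂ) * ∏ i, y i := h0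
  have hu' : (u : ℂ) ≠ 0 := Int.cast_ne_zero.2 hu
  have hne : ∏ i, (y i ^ 2 - 1) ≠ 0 := by
    rw [h0']
    exact mul_ne_zero hu' (Finset.prod_ne_zero_iff.2 fun i _ => hy i)
  have hsq : ∀ s, y s ^ 2 = -1 := by
    intro s
    have h1 := hcon s
    rw [Sm_pderiv] at h1
    have h2 := Finset.mul_prod_erase Finset.univ (fun i => y i ^ 2 - 1) (Finset.mem_univ s)
    have h3 := Finset.mul_prod_erase Finset.univ (fun i => y i) (Finset.mem_univ s)
    have hP : ∏ i ∈ Finset.univ.erase s, (y i ^ 2 - 1) ≠ 0 := by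
      intro h4
      rw [h4, mul_zero] at h2
      exact hne h2.symm
    have h5 : (∏ i ∈ Finset.univ.erase s, (y i ^ 2 - 1)) * (y s ^ 2 + 1) = 0 := by
      rw [← h2, ← h3] at h0'
      linear_combination y s * h1 - h0'
    have h6 := (mul_eq_zero.1 h5).resolve_left hP
    linear_combination h6
  have h7 : (-2 : ℂ) ^ (m + 1) = (u : ℂ) * ∏ i, y i := by
    rw [← h0']
    have : ∀ i, y i ^ 2 - 1 = -2 := by
      intro i
      rw [hsq i]
      norm_num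
    simp only [this, Finset.prod_const, Finset.card_univ, Fintype.card_fin]
  have h8 : ((4 : ℂ) ^ (m + 1) + (u : ℂ) ^ 2) = 0 := by
    have h9 : ((-2 : ℂ) ^ (m + 1)) ^ 2 = ((u : ℂ) * ∏ i, y i) ^ 2 := by rw [h7]
    rw [mul_pow, ← Finset.prod_pow] at h9
    simp only [hsq, Finset.prod_const, Finset.card_univ, Fintype.card_fin] at h9
    rw [hm.add_one.neg_one_pow, ← pow_mul, mul_comm (m + 1) 2, pow_mul] at h9
    norm_num at h9
    rw [h9]
    ring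
  have h10 : ((4 ^ (m + 1) + u ^ 2 : ℤ) : ℂ) = 0 := by
    push_cast
    exact h8
  have h11 : (4 ^ (m + 1) + u ^ 2 : ℤ) = 0 := by exact_mod_cast h10
  have h12 : (0 : ℤ) < 4 ^ (m + 1) := by positivity
  nlinarith [sq_nonneg u]

theorem Sm_core {a b a' b' a'' b'' : ℂ} (n : a ≠ 0 ∨ b ≠ 0) (n' : a' ≠ 0 ∨ b' ≠ 0)
    (n'' : a'' ≠ 0 ∨ b'' ≠ 0) (hA : a ^ 2 - b ^ 2 = 0) (hB : (a * b) * (a' * b') = 0)
    (hq : (a ^ 2 + b ^ 2) * ((a' ^ 2 - b' ^ 2) * (a'' ^ 2 - b'' ^ 2)) = 0)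
    (ht : (a' ^ 2 + b' ^ 2) * ((a * b) * (a'' * b'')) = 0) : False := by
  have key : ∀ {c d : ℂ}, (c ≠ 0 ∨ d ≠ 0) → c ^ 2 - d ^ 2 = 0 → c ≠ 0 ∧ d ≠ 0 := by
    intro c d hcd h
    have h1 : c = 0 ↔ d = 0 := by
      constructor
      · intro hc
        rw [hc] at h
        have : d ^ 2 = 0 := by linear_combination -h
        exact pow_eq_zero_iff two_ne_zero |>.1 this
      · intro hd
        rw [hd] at h
        have : c ^ 2 = 0 := by linear_combination h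
        exact pow_eq_zero_iff two_ne_zero |>.1 this
    constructor
    · intro hc
      rcases hcd with h2 | h2
      · exact h2 hc
      · exact h2 (h1.1 hc)
    · intro hd
      rcases hcd with h2 | h2
      · exact h2 (h1.2 hd)
      · exact h2 hd
  obtain ⟨ha, hb⟩ := key n hA
  have hab : a * b ≠ 0 := mul_ne_zero ha hb
  have hB' : a' * b' = 0 := (mul_eq_zero.1 hB).resolve_left hab
  have hA' : a' ^ 2 - b' ^ 2 ≠ 0 := by
    intro h
    obtain ⟨h1, h2⟩ := key n' h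
    exact mul_ne_zero h1 h2 hB'
  have hS : a ^ 2 + b ^ 2 ≠ 0 := by
    have : a ^ 2 + b ^ 2 = 2 * a ^ 2 := by linear_combination -hA
    rw [this]
    exact mul_ne_zero two_ne_zero (pow_ne_zero 2 ha)
  have hA'' : a'' ^ 2 - b'' ^ 2 = 0 :=
    (mul_eq_zero.1 ((mul_eq_zero.1 hq).resolve_left hS)).resolve_left hA'
  obtain ⟨h1, h2⟩ := key n'' hA''
  have hS' : a' ^ 2 + b' ^ 2 ≠ 0 := by
    rcases mul_eq_zero.1 hB' with h3 | h3
    · rw [h3] at n' ⊢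
      have h4 : b' ≠ 0 := n'.resolve_left (fun h => h rfl)
      have : (0 : ℂ) ^ 2 + b' ^ 2 = b' ^ 2 := by ring
      rw [this]
      exact pow_ne_zero 2 h4
    · rw [h3] at n' ⊢
      have h4 : a' ≠ 0 := n'.resolve_right (fun h => h rfl)
      have : a' ^ 2 + (0 : ℂ) ^ 2 = a' ^ 2 := by ring
      rw [this]
      exact pow_ne_zero 2 h4
  exact mul_ne_zero hS' (mul_ne_zero hab (mul_ne_zero h1 h2)) ht

theorem Sm_closure {a0 b0 a1 b1 a2 b2 u : ℂ} (hu : u ^ 2 + 64 ≠ 0) (hu0 : u ≠ 0)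
    (n0 : a0 ≠ 0 ∨ b0 ≠ 0) (n1 : a1 ≠ 0 ∨ b1 ≠ 0) (n2 : a2 ≠ 0 ∨ b2 ≠ 0)
    (h : (a0 ^ 2 - b0 ^ 2) * (a1 ^ 2 - b1 ^ 2) * (a2 ^ 2 - b2 ^ 2) =
      u * (a0 * b0 * (a1 * b1) * (a2 * b2)))
    (d00 : 2 * a0 * ((a1 ^ 2 - b1 ^ 2) * (a2 ^ 2 - b2 ^ 2)) = u * b0 * (a1 * b1 * (a2 * b2)))
    (d01 : 2 * b0 * ((a1 ^ 2 - b1 ^ 2) * (a2 ^ 2 - b2 ^ 2)) = -(u * a0 * (a1 * b1 * (a2 * b2))))
    (d10 : 2 * a1 * ((a0 ^ 2 - b0 ^ 2) * (a2 ^ 2 - b2 ^ 2)) = u * b1 * (a0 * b0 * (a2 * b2)))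
    (d11 : 2 * b1 * ((a0 ^ 2 - b0 ^ 2) * (a2 ^ 2 - b2 ^ 2)) = -(u * a1 * (a0 * b0 * (a2 * b2))))
    (d20 : 2 * a2 * ((a0 ^ 2 - b0 ^ 2) * (a1 ^ 2 - b1 ^ 2)) = u * b2 * (a0 * b0 * (a1 * b1)))
    (d21 : 2 * b2 * ((a0 ^ 2 - b0 ^ 2) * (a1 ^ 2 - b1 ^ 2)) = -(u * a2 * (a0 * b0 * (a1 * b1)))) :
    False := by
  -- for each index: `(a_s^2 + b_s^2) Q_s = 0` and `(a_s^2 + b_s^2) T_s = 0`
  have q0 : (a0 ^ 2 + b0 ^ 2) * ((a1 ^ 2 - b1 ^ 2) * (a2 ^ 2 - b2 ^ 2)) = 0 := by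
    linear_combination (a0 * d00 + b0 * d01) / 2
  have t0 : (a0 ^ 2 + b0 ^ 2) * (u * (a1 * b1 * (a2 * b2))) = 0 := by
    linear_combination -b0 * d00 + a0 * d01
  have q1 : (a1 ^ 2 + b1 ^ 2) * ((a0 ^ 2 - b0 ^ 2) * (a2 ^ 2 - b2 ^ 2)) = 0 := by
    linear_combination (a1 * d10 + b1 * d11) / 2
  have t1 : (a1 ^ 2 + b1 ^ 2) * (u * (a0 * b0 * (a2 * b2))) = 0 := by
    linear_combination -b1 * d10 + a1 * d11
  have q2 : (a2 ^ 2 + b2 ^ 2) * ((a0 ^ 2 - b0 ^ 2) * (a1 ^ 2 - b1 ^ 2)) = 0 := by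
    linear_combination (a2 * d20 + b2 * d21) / 2
  have t2 : (a2 ^ 2 + b2 ^ 2) * (u * (a0 * b0 * (a1 * b1))) = 0 := by
    linear_combination -b2 * d20 + a2 * d21
  have cancel : ∀ {S B : ℂ}, S * (u * B) = 0 → S * B = 0 := by
    intro S B h1
    have h2 : u * (S * B) = 0 := by linear_combination h1
    exact (mul_eq_zero.1 h2).resolve_left hu0
  have t0' := cancel t0
  have t1' := cancel t1
  have t2' := cancel t2
  by_cases hs0 : a0 ^ 2 + b0 ^ 2 = 0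
  · by_cases hs1 : a1 ^ 2 + b1 ^ 2 = 0
    · by_cases hs2 : a2 ^ 2 + b2 ^ 2 = 0
      · -- all vanish
        have hb : ∀ {c d : ℂ}, (c ≠ 0 ∨ d ≠ 0) → c ^ 2 + d ^ 2 = 0 → d ≠ 0 := by
          intro c d hcd h1 hd
          rw [hd] at h1 hcd
          have h2 : c ^ 2 = 0 := by linear_combination h1
          have h3 : c = 0 := pow_eq_zero_iff two_ne_zero |>.1 h2
          rcases hcd with h4 | h4
          · exact h4 h3
          · exact h4 rfl
        have e0 : a0 ^ 2 = -b0 ^ 2 := by linear_combination hs0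
        have e1 : a1 ^ 2 = -b1 ^ 2 := by linear_combination hs1
        have e2 : a2 ^ 2 = -b2 ^ 2 := by linear_combination hs2
        have h1 : ((a0 ^ 2 - b0 ^ 2) * (a1 ^ 2 - b1 ^ 2) * (a2 ^ 2 - b2 ^ 2)) ^ 2 =
            u ^ 2 * (a0 ^ 2 * b0 ^ 2 * (a1 ^ 2 * b1 ^ 2) * (a2 ^ 2 * b2 ^ 2)) := by
          rw [h]; ring
        rw [e0, e1, e2] at h1
        have h2 : (u ^ 2 + 64) * (b0 ^ 4 * b1 ^ 4 * b2 ^ 4) = 0 := by
          linear_combination h1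
        have h3 := (mul_eq_zero.1 h2).resolve_left hu
        exact mul_ne_zero (mul_ne_zero (pow_ne_zero 4 (hb n0 hs0)) (pow_ne_zero 4 (hb n1 hs1)))
          (pow_ne_zero 4 (hb n2 hs2)) h3
      · have hA := (mul_eq_zero.1 q2).resolve_left hs2
        have hB := (mul_eq_zero.1 t2').resolve_left hs2
        rcases mul_eq_zero.1 hA with h1 | h1
        · exact Sm_core n0 n1 n2 h1 hB q0 t1'
        · exact Sm_core n1 n0 n2 h1 (by linear_combination hB) q1 t0'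
    · have hA := (mul_eq_zero.1 q1).resolve_left hs1
      have hB := (mul_eq_zero.1 t1').resolve_left hs1
      rcases mul_eq_zero.1 hA with h1 | h1
      · exact Sm_core n0 n2 n1 h1 hB (by linear_combination q0) t2'
      · exact Sm_core n2 n0 n1 h1 (by linear_combination hB) q2 (by linear_combination t0')
  · have hA := (mul_eq_zero.1 q0).resolve_left hs0
    have hB := (mul_eq_zero.1 t0').resolve_left hs0
    rcases mul_eq_zero.1 hA with h1 | h1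
    · exact Sm_core n1 n2 n0 h1 hB (by linear_combination q1) (by linear_combination t2')
    · exact Sm_core n2 n1 n0 h1 (by linear_combination hB) (by linear_combination q2)
        (by linear_combination t1')

theorem Sm_hom_eq (u : ℤ) : homEqn 2 u =
    (X (0, 0) ^ 2 - X (0, 1) ^ 2) * (X (1, 0) ^ 2 - X (1, 1) ^ 2) * (X (2, 0) ^ 2 - X (2, 1) ^ 2) -
      C (u : ℚ) * (X (0, 0) * X (0, 1) * (X (1, 0) * X (1, 1)) * (X (2, 0) * X (2, 1))) := by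
  rw [homEqn_def]
  rw [Fin.prod_univ_three, Fin.prod_univ_three]

theorem smoothClosure_two {u : ℤ} (hu : u ≠ 0) : SmoothClosure 2 u := by
  intro y hy h0
  by_contra hcon
  push Not at hcon
  have hQ : (algebraMap ℚ ℂ) (u : ℚ) = (u : ℂ) := map_intCast _ _
  rw [Sm_hom_eq] at h0
  have d00 := hcon (0, 0)
  have d01 := hcon (0, 1)
  have d10 := hcon (1, 0)
  have d11 := hcon (1, 1)
  have d20 := hcon (2, 0)
  have d21 := hcon (2, 1)
  rw [Sm_hom_eq] at d00 d01 d10 d11 d20 d21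
  simp [Derivation.leibniz, Derivation.leibniz_pow, pderiv_X] at h0 d00 d01 d10 d11 d20 d21
  have hu0 : (u : ℂ) ≠ 0 := Int.cast_ne_zero.2 hu
  have hu2 : (u : ℂ) ^ 2 + 64 ≠ 0 := by
    intro h1
    have h2 : ((u ^ 2 + 64 : ℤ) : ℂ) = 0 := by
      push_cast
      exact h1
    have h3 : (u ^ 2 + 64 : ℤ) = 0 := by exact_mod_cast h2
    nlinarith [sq_nonneg u]
  refine Sm_closure hu2 hu0 (hy 0) (hy 1) (hy 2) ?_ ?_ ?_ ?_ ?_ ?_ ?_
  · linear_combination h0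
  · linear_combination d00
  · linear_combination -d01
  · linear_combination d10
  · linear_combination -d11
  · linear_combination d20
  · linear_combination -d21

end P4a177t
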