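import Pool.Agent.Lib.P4a177t.Defs
import Pool.Agent.Lib.P4a177s.UnramSum
import Pool.Agent.Lib.P4a177s.Integ

/-!
# MODULE P4a177t.Val: the symbols are integral (est. 1 h)

PROOF. Let `v` be a valuation of a field `K` (with values in any linearly ordered group with zero),
`y_i ∈ K` nonzero, `∏ (y_i^2 - 1) = u ∏ y_i`, `u ∈ ℤ`; `v u ≤ 1` (`P4a177s.v_intCast_le`).
Key claim (`val_key`): all the `v (y_i)` are `1`, or `v (y_i^2 - 1) < 1` for some `i`. Indeed, suppose
`1 ≤ v (y_i^2 - 1)` for all `i`. For each `i`: if `v y_i < 1` then `v (y_i^2 - 1) = 1 > v y_i`; if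
`v y_i = 1` then `v (y_i^2 - 1) ≥ 1 = v y_i`; if `v y_i > 1` then `v (y_i^2 - 1) = (v y_i)^2 > v y_i`.
So `v y_i ≤ v (y_i^2 - 1)` for all `i`, with strict inequality if `v y_i ≠ 1`. If some `v y_i ≠ 1`,
then `∏ v y_i < ∏ v (y_i^2 - 1) = v u ∏ v y_i ≤ ∏ v y_i`, a contradiction (`v y_i ≠ 0`).

`admissible_sq`: take the entries `-(y i)^2` and the blocks `b i = i`. For `φ : R →+* K` and `O` use
`val_key` for `O.valuation` and `φ (y i)` (`On.map`); in the second case
`1 + ∑_{i with i = k} φ (-(y i)^2) = 1 - φ(y k)^2` has valuation `< 1`.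

`unramified_sq`: `P4a177h.map_symb`, then `P4a177h.unramified_symb` (left alternative) if all the
entries are units, otherwise `P4a177s.unramified_of_sum` with `S = {k}` (left alternative).
-/

set_option autoImplicit false

namespace P4a177t

open P4a177h

theorem val_key {K : Type*} [Field K] {Γ₀ : Type*} [LinearOrderedCommGroupWithZero Γ₀]
    (v : Valuation K Γ₀) {m : ℕ} {u : ℤ} (y : Fin (m + 1) → K) (hy : ∀ i, y i ≠ 0)
    (h : On u y) : (∀ i, v (y i) = 1) ∨ ∃ i, v (y i ^ 2 - 1) < 1 := by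
  by_contra hcon
  rw [not_or, not_forall, not_exists] at hcon
  obtain ⟨⟨i0, hi0⟩, hge⟩ := hcon
  have hge' : ∀ i, 1 ≤ v (y i ^ 2 - 1) := fun i => not_lt.1 (hge i)
  have hstrict : ∀ i, v (y i) ≠ 1 → v (y i) < v (y i ^ 2 - 1) := by
    intro i hi
    rcases lt_or_gt_of_ne hi with h1 | h1
    · exact h1.trans_le (hge' i)
    · have h2 : v (y i) < v (y i ^ 2) := by
        rw [map_pow, sq]
        exact lt_mul_of_one_lt_right (zero_lt_one.trans h1) h1
      have h3 : v (y i ^ 2 - 1) = v (y i ^ 2) := by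
        apply Valuation.map_sub_eq_of_lt_left
        rw [map_one]
        exact h1.trans h2
      rw [h3]
      exact h2
  have hle : ∀ i, v (y i) ≤ v (y i ^ 2 - 1) := by
    intro i
    by_cases hi : v (y i) = 1
    · rw [hi]; exact hge' i
    · exact (hstrict i hi).le
  have h1 : ∏ i, v (y i) < ∏ i, v (y i ^ 2 - 1) := by
    rw [← Finset.mul_prod_erase Finset.univ (fun i => v (y i)) (Finset.mem_univ i0),
      ← Finset.mul_prod_erase Finset.univ (fun i => v (y i ^ 2 - 1)) (Finset.mem_univ i0)]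
    have h2 : ∏ i ∈ Finset.univ.erase i0, v (y i) ≤
        ∏ i ∈ Finset.univ.erase i0, v (y i ^ 2 - 1) := Finset.prod_le_prod' fun i _ => hle i
    have h3 : 0 < ∏ i ∈ Finset.univ.erase i0, v (y i ^ 2 - 1) :=
      zero_lt_one.trans_le (Finset.one_le_prod' fun i _ => hge' i)
    calc v (y i0) * ∏ i ∈ Finset.univ.erase i0, v (y i)
        ≤ v (y i0) * ∏ i ∈ Finset.univ.erase i0, v (y i ^ 2 - 1) := mul_le_mul_right h2 _
      _ < v (y i0 ^ 2 - 1) * ∏ i ∈ Finset.univ.erase i0, v (y i ^ 2 - 1) :=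
        mul_lt_mul_of_pos_right (hstrict i0 hi0) h3
  have h2 : ∏ i, v (y i ^ 2 - 1) = v (u : K) * ∏ i, v (y i) := by
    rw [← map_prod, ← map_prod, ← map_mul]
    exact congrArg v h
  rw [h2] at h1
  have h3 : v (u : K) * ∏ i, v (y i) ≤ 1 * ∏ i, v (y i) :=
    mul_le_mul_left (P4a177s.v_intCast_le v u) _
  rw [one_mul] at h3
  exact absurd h1 (not_lt.2 h3)

theorem Val_ne_zero {R K : Type*} [CommRing R] [Field K] (φ : R →+* K) (y : Rˣ) :
    φ (y : R) ≠ 0 := ((Units.isUnit y).map φ).ne_zero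

theorem Val_neg_sq {R K : Type*} [CommRing R] [Field K] (φ : R →+* K) (y : Rˣ) :
    φ ((-y ^ 2 : Rˣ) : R) = -(φ (y : R)) ^ 2 := by
  rw [Units.val_neg, Units.val_pow_eq_pow_val, map_neg, map_pow]

theorem Val_filter {m : ℕ} (k : Fin (m + 1)) :
    (Finset.univ.filter fun i : Fin (m + 1) => (i : ℕ) = (k : ℕ)) = {k} := by
  ext i
  simp [Fin.ext_iff]

theorem admissible_sq {m : ℕ} {u u' : ℤ} (y : Fin (m + 1) → (CoordRing m u)ˣ)
    (h : On u' fun i => (y i : CoordRing m u)) :
    P4a177s.Admissible (symb fun i => -(y i) ^ 2) := by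
  refine ⟨fun i => -(y i) ^ 2, fun i => (i : ℕ), rfl, ?_⟩
  intro K _ φ O
  rcases val_key O.valuation (fun i => φ (y i : CoordRing m u)) (fun i => Val_ne_zero φ _)
    (h.map φ) with h1 | ⟨k, hk⟩
  · left
    intro i
    rw [Val_neg_sq, Valuation.map_neg, map_pow, h1 i, one_pow]
  · right
    refine ⟨(k : ℕ), Or.inl ?_⟩
    rw [Val_filter, Finset.sum_singleton, Val_neg_sq, ← Valuation.map_neg]
    have : -(1 + -(φ (y k : CoordRing m u)) ^ 2) = φ (y k : CoordRing m u) ^ 2 - 1 := by ring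
    rw [this]
    exact hk

theorem unramified_sq {m : ℕ} {u u' : ℤ} (y : Fin (m + 1) → (CoordRing m u)ˣ)
    (h : On u' fun i => (y i : CoordRing m u)) :
    P4a177s.UnramifiedEverywhere (symb fun i => -(y i) ^ 2) := by
  intro K _ _ _ v
  rw [map_symb]
  have hval : ∀ i, ((Units.map (algebraMap (CoordRing m u) K : CoordRing m u →* K) (-(y i) ^ 2) :
      Kˣ) : K) = -(algebraMap (CoordRing m u) K (y i)) ^ 2 := fun i =>
    Val_neg_sq (algebraMap (CoordRing m u) K) (y i)
  rcases val_key v (fun i => algebraMap (CoordRing m u) K (y i : CoordRing m u))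
    (fun i => Val_ne_zero _ _) (h.map (algebraMap (CoordRing m u) K)) with h1 | ⟨k, hk⟩
  · apply unramified_symb
    left
    intro i
    rw [hval, Valuation.map_neg, map_pow, h1 i, one_pow]
  · apply P4a177s.unramified_of_sum v _ {k}
    left
    rw [Finset.sum_singleton, hval, ← Valuation.map_neg]
    have : -(1 + -(algebraMap (CoordRing m u) K (y k : CoordRing m u)) ^ 2) =
      algebraMap (CoordRing m u) K (y k : CoordRing m u) ^ 2 - 1 := by ring
    rw [this]
    exact hk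

end P4a177t
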