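import Pool.Agent.Lib.P4a177t.Irr
import Pool.Agent.Lib.P4a177t.Sm
import Pool.Agent.Lib.P4a177t.Val
import Pool.Agent.Lib.P4a177t.Scale
import Pool.Agent.Lib.P4a177t.Lim1
import Pool.Agent.Lib.P4a177t.Lim2
import Pool.Agent.Lib.P4a177t.Ineq
import Pool.Agent.Lib.P4a177t.TorReg

/-!
# Assembly
-/

set_option autoImplicit false

namespace P4a177t

open P4a177h Function MeasureTheory Filter Topology
open scoped Real

noncomputable section

variable {m : ℕ}

/-- The image of a torus under a morphism of the varieties. -/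
def comap {R R' : Type} [CommRing R] [CommRing R'] (φ : R →+* R') (γ : Torus m R') : Torus m R where
  emb θ := (γ.emb θ).comp φ
  contDiff f := γ.contDiff (φ f)
  periodic f θ l := γ.periodic (φ f) θ l

theorem dlogRow_neg {R : Type} [CommRing R] (γ : Torus m R) (b : Rˣ) (θ : Fin m → ℝ) :
    dlogRow γ (-b) θ = dlogRow γ b θ := by
  funext l
  unfold dlogRow
  have h : (fun θ => γ.emb θ ((-b : Rˣ) : R)) = fun θ => -γ.emb θ (b : R) := by
    funext θ
    rw [Units.val_neg, map_neg]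
  rw [h, fderiv_fun_neg, Units.val_neg, map_neg]
  simp [neg_div_neg_eq]

theorem dlogRow_one'' {R : Type} [CommRing R] (γ : Torus m R) (θ : Fin m → ℝ) :
    dlogRow γ 1 θ = 0 := by
  have h := dlogRow_mul γ 1 1 θ
  rw [mul_one] at h
  exact left_eq_add.1 h

theorem dlogRow_inv' {R : Type} [CommRing R] (γ : Torus m R) (b : Rˣ) (θ : Fin m → ℝ) :
    dlogRow γ b⁻¹ θ = -dlogRow γ b θ := by
  have h := dlogRow_mul γ b b⁻¹ θ
  rw [mul_inv_cancel, dlogRow_one''] at h
  exact (neg_eq_of_add_eq_zero_right h.symm).symm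

theorem dlogRow_neg_sq {R : Type} [CommRing R] (γ : Torus m R) (b : Rˣ) (θ : Fin m → ℝ)
    (l : Fin m) : dlogRow γ (-b ^ 2) θ l = (2 : ℂ) * dlogRow γ b θ l := by
  rw [dlogRow_neg, sq, dlogRow_mul, Pi.add_apply]
  ring

theorem log_neg_sq {R : Type} [CommRing R] (γ : Torus m R) (b : Rˣ) (θ : Fin m → ℝ) :
    Real.log ‖γ.emb θ ((-b ^ 2 : Rˣ) : R)‖ = 2 * Real.log ‖γ.emb θ (b : R)‖ := by
  rw [Units.val_neg, Units.val_pow_eq_pow_val, map_neg, map_pow, norm_neg, norm_pow, Real.log_pow]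
  norm_num

theorem regFun_neg_sq {R : Type} [CommRing R] (γ : Torus m R) (b : Fin (m + 1) → Rˣ) :
    regFun γ (fun i => -(b i) ^ 2) = 2 ^ (m + 1) * regFun γ b :=
  regFun_scale γ γ _ b 2 (fun k θ => log_neg_sq γ (b k) θ)
    (fun k θ l => by simpa using dlogRow_neg_sq γ (b k) θ l)

theorem mob_mob {B : Type*} [CommRing B] (h2u : IsUnit (2 : B)) {y w z : B}
    (h1 : w * (y + 1) = y - 1) (h3 : z * (w + 1) = w - 1) : z * y = -1 := by
  rw [← h2u.mul_right_inj]
  have h5 : (w + 1) * (y + 1) = 2 * y := by linear_combination h1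
  have h6 : (w - 1) * (y + 1) = -2 := by linear_combination h1
  linear_combination (y + 1) * h3 - z * h5 + h6

/-- the isomorphism `swap` is an involution, up to `x ↦ - 1 / x` -/
theorem swap_w {u u' : ℤ} (hu : u ≠ 0) (hu' : u' ≠ 0) (huu : u * u' = (-4) ^ (m + 1))
    (i : Fin (m + 1)) :
    (swap hu huu (w m hu' i : CoordRing m u') : CoordRing m u) * (x m u i : CoordRing m u) =
      -1 := by
  have h1 := mob_spec hu (x m u) (x_on m u) i
  have h2 := mob_spec hu' (x m u') (x_on m u') i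
  have h3 := congrArg (swap hu huu) h2
  rw [map_mul, map_add, map_sub, map_one, swap_x] at h3
  have h2u : IsUnit (2 : CoordRing m u) := by
    have := isUnit_intCast (B := CoordRing m u) (k := 2) two_ne_zero
    simpa using this
  exact mob_mob h2u h1 h3

/-- the first limit along the tori -/
theorem lim_x (hm : Even m) (hm1 : 1 ≤ m) {u : ℤ} (hu : u ≠ 0) :
    Tendsto (fun r : ℝ => (∫ θ in box m, Real.log ‖root (cc u r θ)‖) -
      m * (2 * π) ^ m * Real.log r) (𝓝[<] 1) (𝓝 (MM m (|(u : ℝ)| / 2 ^ (m + 1)))) := by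
  have h1 := tendsto_log_root hm hm1 hu
  have h2 : Tendsto (fun r : ℝ => (m : ℝ) * (2 * π) ^ m * Real.log r) (𝓝[<] 1) (𝓝 0) := by
    have h3 : Tendsto Real.log (𝓝[<] 1) (𝓝 0) := by
      have := (Real.continuousAt_log (one_ne_zero)).tendsto.mono_left
        (nhdsWithin_le_nhds (s := Set.Iio (1 : ℝ)))
      rwa [Real.log_one] at this
    have h4 := h3.const_mul ((m : ℝ) * (2 * π) ^ m)
    rwa [mul_zero] at h4
  have := h1.sub h2
  rwa [sub_zero] at this

theorem abs_div_mul {u u' : ℤ} (hm : Even m) (huu : u * u' = (-4) ^ (m + 1)) :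
    (|(u : ℝ)| / u) * (|(u' : ℝ)| / u') = -1 := by
  have h1 : ((u : ℝ) * u') = -4 ^ (m + 1) := by
    have := congrArg (Int.cast : ℤ → ℝ) huu
    push_cast at this
    rw [this, (hm.add_one).neg_pow]
  have h2 : (0 : ℝ) < 4 ^ (m + 1) := by positivity
  have hne : (u : ℝ) * u' ≠ 0 := by rw [h1]; exact (neg_lt_zero.2 h2).ne
  rw [div_mul_div_comm, ← abs_mul, h1, abs_neg, abs_of_pos h2]
  field_simp

theorem main (hm : Even m) (hm2 : 2 ≤ m) {u : ℤ} (hdvd : u ∣ 4 ^ (m + 1)) :
    GeomIrreducible m u ∧ Smooth m u ∧ (m = 2 → SmoothClosure m u) ∧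
    ∃ (ξ : Fin 2 → MilnorK (m + 1) (CoordRing m u)) (γ : Fin 2 → Torus m (CoordRing m u)),
      (∀ p, P4a177s.Admissible (ξ p) ∧ P4a177s.UnramifiedEverywhere (ξ p)) ∧
      (P4a177s.regulatorMatrix ξ γ).det ≠ 0 := by
  obtain ⟨k, hk⟩ := hdvd
  have h4 : (4 : ℤ) ^ (m + 1) ≠ 0 := pow_ne_zero _ (by norm_num)
  have hu : u ≠ 0 := by
    rintro rfl
    rw [zero_mul] at hk
    exact h4 hk
  have hk0 : k ≠ 0 := by
    rintro rfl
    rw [mul_zero] at hk
    exact h4 hk
  refine ⟨geomIrreducible hm2 hu, smooth hm hu, ?_, ?_⟩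
  · rintro rfl
    exact smoothClosure_two hu
  -- the parameter of the isomorphic hypersurface
  obtain ⟨u', hu', huu⟩ : ∃ u' : ℤ, u' ≠ 0 ∧ u * u' = (-4) ^ (m + 1) := by
    refine ⟨-k, neg_ne_zero.2 hk0, ?_⟩
    rw [(hm.add_one).neg_pow, hk]
    ring
  have huu' : u' * u = (-4) ^ (m + 1) := by rw [mul_comm]; exact huu
  have hm1 : 1 ≤ m := by omega
  set v : ℝ := |(u : ℝ)| / 2 ^ (m + 1) with hv
  set v' : ℝ := |(u' : ℝ)| / 2 ^ (m + 1) with hv'
  have huR : (u : ℝ) ≠ 0 := by exact_mod_cast hu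
  have hv0 : 0 < v := by
    rw [hv]
    have := abs_pos.2 huR
    positivity
  have hvv : v' = v⁻¹ := by
    have h1 : |(u : ℝ)| * |(u' : ℝ)| = 4 ^ (m + 1) := by
      rw [← abs_mul]
      have := congrArg (Int.cast : ℤ → ℝ) huu
      push_cast at this
      rw [this, abs_pow]
      norm_num
    have h2 : v * v' = 1 := by
      rw [hv, hv', div_mul_div_comm, h1, ← mul_pow]
      norm_num
    exact eq_inv_of_mul_eq_one_right h2
  -- the limit of the determinants
  have hdet : MM m v * MM m v' + (-(|(u : ℝ)| / u) * NN m v) * (-(|(u' : ℝ)| / u') * NN m v') ≠ 0 := by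
    have h1 := det_pos hm1 hv0
    have h2 := abs_div_mul hm huu
    rw [← hvv] at h1
    have h3 : MM m v * MM m v' + (-(|(u : ℝ)| / u) * NN m v) * (-(|(u' : ℝ)| / u') * NN m v') =
        MM m v * MM m v' - NN m v * NN m v' := by
      linear_combination (NN m v * NN m v') * h2
    rw [h3]
    exact (sub_pos.2 h1).ne'
  obtain ⟨r0, hr00, hr01, hr0⟩ := good_cc (m := m) hm hu
  obtain ⟨r1, hr10, hr11, hr1⟩ := good_cc (m := m) hm hu'
  have hlim := ((lim_x hm hm1 hu).mul (lim_x hm hm1 hu')).add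
    ((tendsto_LL hm hm1 hu).mul (tendsto_LL hm hm1 hu'))
  have hev := hlim.eventually_ne hdet
  have hmem : Set.Ioo (max r0 r1) 1 ∈ 𝓝[<] (1 : ℝ) := Ioo_mem_nhdsLT (max_lt hr01 hr11)
  obtain ⟨r, hr, hrI⟩ := (hev.and hmem).exists
  have hra : r0 < r := (le_max_left _ _).trans_lt hrI.1
  have hrb : r1 < r := (le_max_right _ _).trans_lt hrI.1
  have hr0' : 0 < r := hr00.trans hra
  have hr1' : r < 1 := hrI.2
  obtain ⟨γ, hγ, hγ0⟩ := exists_torus (m := m) (u := u) hr0' hr1' (hr0 r hra hr1')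
  obtain ⟨γ', hγ', hγ0'⟩ := exists_torus (m := m) (u := u') hr0' hr1' (hr1 r hrb hr1')
  have e1 := reg_x hu hr0' hr1' (hr0 r hra hr1') γ hγ hγ0
  have e2 := reg_w hu hr0' hr1' (hr0 r hra hr1') γ hγ hγ0
  have e3 := reg_x hu' hr0' hr1' (hr1 r hrb hr1') γ' hγ' hγ0'
  have e4 := reg_w hu' hr0' hr1' (hr1 r hrb hr1') γ' hγ' hγ0'
  rw [← e1, ← e2, ← e3, ← e4] at hr
  -- the morphism from the hypersurface `u'` to the hypersurface `u`
  set φ : CoordRing m u →+* CoordRing m u' := swap hu' huu' with hφ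
  refine ⟨![symb fun i => -(x m u i) ^ 2, symb fun i => -(w m hu i) ^ 2], ![γ, comap φ γ'], ?_, ?_⟩
  · intro p
    fin_cases p
    · exact ⟨admissible_sq _ (x_on m u), unramified_sq _ (x_on m u)⟩
    · exact ⟨admissible_sq _ (mob_on hu huu _ _), unramified_sq _ (mob_on hu huu _ _)⟩
  · have f1 : reg γ (symb fun i => -(x m u i) ^ 2) = 2 ^ (m + 1) * regFun γ (x m u) := by
      rw [reg_symb, regFun_neg_sq]
    have f2 : reg γ (symb fun i => -(w m hu i) ^ 2) = 2 ^ (m + 1) * regFun γ (w m hu) := by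
      rw [reg_symb, regFun_neg_sq]
    have hodd : Odd (m + 1) := hm.add_one
    have g1 : regFun (comap φ γ') (x m u) = regFun γ' (w m hu') := by
      have h := regFun_scale (comap φ γ') γ' (x m u) (w m hu') 1 (fun k θ => ?_) (fun k θ l => ?_)
      · rwa [one_pow, one_mul] at h
      · rw [one_mul]
        show Real.log ‖γ'.emb θ (φ (x m u k : CoordRing m u))‖ = _
        rw [hφ, swap_x]
      · rw [Complex.ofReal_one, one_mul]
        show -Complex.I * (fderiv ℝ (fun θ => γ'.emb θ (φ (x m u k : CoordRing m u))) θ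
          (Pi.single l 1) / γ'.emb θ (φ (x m u k : CoordRing m u))) = _
        rw [hφ, swap_x]
        rfl
    have g2 : regFun (comap φ γ') (w m hu) = -regFun γ' (x m u') := by
      have hw : ∀ k, φ (w m hu k : CoordRing m u) = ((-(x m u' k)⁻¹ : (CoordRing m u')ˣ) :
          CoordRing m u') := fun k => by
        rw [← (Units.isUnit (x m u' k)).mul_left_inj, swap_w (m := m) hu' hu huu' k,
          Units.val_neg, neg_mul, Units.inv_mul]
      have h := regFun_scale (comap φ γ') γ' (w m hu) (x m u') (-1) (fun k θ => ?_)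
        (fun k θ l => ?_)
      · rw [h, hodd.neg_one_pow]
        ring
      · show Real.log ‖γ'.emb θ (φ (w m hu k : CoordRing m u))‖ = _
        rw [hw k, Units.val_neg, map_neg, norm_neg]
        have hne : γ'.emb θ (x m u' k : CoordRing m u') ≠ 0 := emb_ne_zero γ' _ θ
        have h3 : γ'.emb θ (((x m u' k)⁻¹ : (CoordRing m u')ˣ) : CoordRing m u') =
            (γ'.emb θ (x m u' k : CoordRing m u'))⁻¹ := by
          refine eq_inv_of_mul_eq_one_left ?_
          rw [← map_mul, Units.inv_mul, map_one]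
        rw [h3, norm_inv, Real.log_inv]
        ring
      · have h4 : dlogRow (comap φ γ') (w m hu k) θ = dlogRow γ' (-(x m u' k)⁻¹) θ := by
          funext l
          show -Complex.I * (fderiv ℝ (fun θ => γ'.emb θ (φ (w m hu k : CoordRing m u))) θ
            (Pi.single l 1) / γ'.emb θ (φ (w m hu k : CoordRing m u))) = _
          rw [hw k]
          rfl
        rw [h4, dlogRow_neg, dlogRow_inv']
        simp
    have f3 : reg (comap φ γ') (symb fun i => -(x m u i) ^ 2) =
        2 ^ (m + 1) * regFun γ' (w m hu') := by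
      rw [reg_symb, regFun_neg_sq, g1]
    have f4 : reg (comap φ γ') (symb fun i => -(w m hu i) ^ 2) =
        -(2 ^ (m + 1) * regFun γ' (x m u')) := by
      rw [reg_symb, regFun_neg_sq, g2]
      ring
    rw [Matrix.det_fin_two]
    simp only [P4a177s.regulatorMatrix, Matrix.of_apply, Matrix.cons_val_zero, Matrix.cons_val_one]
    rw [f1, f2, f3, f4]
    intro h0
    apply hr
    have h2 : (2 : ℝ) ^ (m + 1) * 2 ^ (m + 1) ≠ 0 := by positivity
    have h3 : (2 : ℝ) ^ (m + 1) * 2 ^ (m + 1) * (regFun γ (x m u) * regFun γ' (x m u') +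
        regFun γ (w m hu) * regFun γ' (w m hu')) = 0 := by
      linear_combination -h0
    exact (mul_eq_zero.1 h3).resolve_left h2

end

end P4a177t
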