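import Pool.Agent.Lib.P4a177t.Ana

/-!
# MODULE P4a177t.RootA: the function `root` (est. 1.2 h)

PROOF. Let `Good c`, `s = exp (log (1 + 4 / c^2) / 2)`. Then `s^2 = 1 + 4 / c^2` (`Complex.exp_log`)
and `0 < re s`, because `arg (1 + 4/c^2) ∈ (-π, π)` (`Complex.mem_slitPlane_iff_arg`), so that
`im (log (1 + 4/c^2) / 2) ∈ (-π/2, π/2)` (`Complex.exp_re`, `Real.cos_pos_of_mem_Ioo`).
`root c = c/2 (1 + s)`; put `w = c/2 (s - 1)`; `root c * w = c^2/4 (s^2 - 1) = 1` and
`root c - w = c`. So `(root c)⁻¹ = w`. `‖1 + s‖ > ‖s - 1‖` as `re s > 0`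
(`normSq`), so `‖root c‖ > ‖w‖ = ‖root c‖⁻¹`, so `‖root c‖ > 1`.
`root_contDiffAt`, `LL_continuousAt`: composition of analytic functions (`Complex.contDiffAt_log`,
`restrict_scalars`), `LL_slit`.
`LL_slit`: `re ((z - 1) / (z + 1)) = (‖z‖^2 - 1) / ‖z + 1‖^2 > 0` for `‖z‖ > 1`.
`good_of`: `1 + 4 / c^2` is a nonpositive real number only if `c^2 = -4 / (1 + t)`, `t ≥ 0`, i.e.
`c^2 ∈ [-4, 0)`, i.e. `re c = 0` and `|im c| ≤ 2`. (With `c = x + i y`: multiply by
`c^2 conj(c)^2`: `1 + 4/c^2 = 1 + 4 conj(c)^2 / ‖c‖^4`; its imaginary part is `-8 x y / ‖c‖^4` and its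
real part `1 + 4 (x^2 - y^2) / ‖c‖^4`. If `x y ≠ 0` it is in the slit plane; if `y = 0`, the real
part is positive; if `x = 0`, `|y| > 2`, the real part is `1 - 4 / y^2 > 0`.)
-/

set_option autoImplicit false

namespace P4a177t

open P4a177h Function MeasureTheory
open scoped Real

theorem good_of {c : ℂ} (h : c.re ≠ 0 ∨ 2 < |c.im|) : Good c := by
  have hc : c ≠ 0 := by
    rintro rfl
    rcases h with h | h
    · exact h rfl
    · rw [Complex.zero_im, abs_zero] at h
      linarith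
  refine ⟨hc, ?_⟩
  rw [Complex.mem_slitPlane_iff]
  by_contra hcon
  push Not at hcon
  obtain ⟨hre, him⟩ := hcon
  have hw : (1 + 4 / c ^ 2 : ℂ) = (((1 + 4 / c ^ 2 : ℂ).re : ℝ) : ℂ) := by
    apply Complex.ext
    · simp
    · rw [him, Complex.ofReal_im]
  set q := (1 + 4 / c ^ 2 : ℂ).re with hq
  have h1 : ((q - 1 : ℝ) : ℂ) * c ^ 2 = 4 := by
    push_cast
    rw [← hw]
    field_simp
    ring
  have h2 := congrArg Complex.re h1
  have h3 := congrArg Complex.im h1
  rw [Complex.re_ofReal_mul] at h2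
  rw [Complex.im_ofReal_mul] at h3
  have h4 : (c ^ 2).re = c.re ^ 2 - c.im ^ 2 := by
    rw [sq, Complex.mul_re]
    ring
  have h5 : (c ^ 2).im = 2 * (c.re * c.im) := by
    rw [sq, Complex.mul_im]
    ring
  rw [h4] at h2
  rw [h5] at h3
  have h6 : (4 : ℂ).re = 4 := rfl
  have h7 : (4 : ℂ).im = 0 := rfl
  rw [h6] at h2
  rw [h7] at h3
  have h8 : q - 1 ≤ -1 := by linarith
  have h9 : c.re * c.im = 0 := by
    rcases mul_eq_zero.1 h3 with h9 | h9
    · linarith
    · linarith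
  rcases mul_eq_zero.1 h9 with h10 | h10
  · rcases h with h | h
    · exact h h10
    · rw [h10] at h2
      have h11 : 4 < c.im ^ 2 := by
        rw [← sq_abs]
        nlinarith
      nlinarith
  · rw [h10] at h2
    nlinarith [sq_nonneg c.re]

/-- the square root of `1 + 4 / c ^ 2` with positive real part -/
noncomputable def sroot (c : ℂ) : ℂ := Complex.exp (Complex.log (1 + 4 / c ^ 2) / 2)

theorem sroot_sq {c : ℂ} (h : Good c) : sroot c ^ 2 = 1 + 4 / c ^ 2 := by
  rw [sroot, sq, ← Complex.exp_add, add_halves, Complex.exp_log (Complex.slitPlane_ne_zero h.2)]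

theorem sroot_re_pos {c : ℂ} (h : Good c) : 0 < (sroot c).re := by
  rw [sroot, Complex.exp_re]
  apply mul_pos (Real.exp_pos _)
  have h1 : (Complex.log (1 + 4 / c ^ 2) / 2).im = Complex.arg (1 + 4 / c ^ 2) / 2 := by
    rw [Complex.div_ofNat_im, Complex.log_im]
  rw [h1]
  have h2 := (Complex.mem_slitPlane_iff_arg.1 h.2).1
  have h3 := Complex.neg_pi_lt_arg (1 + 4 / c ^ 2)
  have h4 := lt_of_le_of_ne (Complex.arg_le_pi (1 + 4 / c ^ 2)) h2
  apply Real.cos_pos_of_mem_Ioo
  constructor <;> linarith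

theorem root_eq (c : ℂ) : root c = c / 2 * (1 + sroot c) := rfl

theorem root_mul {c : ℂ} (h : Good c) : root c * (c / 2 * (sroot c - 1)) = 1 := by
  have h1 : root c * (c / 2 * (sroot c - 1)) = c ^ 2 / 4 * (sroot c ^ 2 - 1) := by
    rw [root_eq]
    ring
  rw [h1, sroot_sq h]
  have := h.1
  field_simp
  ring

theorem root_inv {c : ℂ} (h : Good c) : (root c)⁻¹ = c / 2 * (sroot c - 1) :=
  inv_eq_of_mul_eq_one_right (root_mul h)

theorem root_sub_inv {c : ℂ} (h : Good c) : root c - (root c)⁻¹ = c := by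
  rw [root_inv h, root_eq]
  ring

theorem one_lt_norm_root {c : ℂ} (h : Good c) : 1 < ‖root c‖ := by
  have hs := sroot_re_pos h
  have h1 : ‖sroot c - 1‖ < ‖1 + sroot c‖ := by
    apply lt_of_pow_lt_pow_left₀ 2 (norm_nonneg _)
    rw [← Complex.normSq_eq_norm_sq, ← Complex.normSq_eq_norm_sq, Complex.normSq_apply,
      Complex.normSq_apply]
    simp only [Complex.sub_re, Complex.sub_im, Complex.add_re, Complex.add_im, Complex.one_re,
      Complex.one_im]
    nlinarith
  have hc2 : 0 < ‖c / 2‖ := by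
    rw [norm_pos_iff]
    exact div_ne_zero h.1 two_ne_zero
  have h2 : ‖(root c)⁻¹‖ < ‖root c‖ := by
    rw [root_inv h, root_eq, norm_mul, norm_mul]
    exact mul_lt_mul_of_pos_left h1 hc2
  have h3 : ‖root c‖ * ‖(root c)⁻¹‖ = 1 := by
    rw [← norm_mul, root_inv h, root_mul h, norm_one]
  have h4 : 0 ≤ ‖(root c)⁻¹‖ := norm_nonneg _
  nlinarith

theorem root_contDiffAt {c : ℂ} (h : Good c) : ContDiffAt ℝ 2 root c := by
  have hc : c ^ 2 ≠ 0 := pow_ne_zero 2 h.1
  have h1 : ContDiffAt ℂ 2 (fun x : ℂ => 1 + 4 / x ^ 2) c :=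
    contDiffAt_const.add (contDiffAt_const.div (contDiffAt_id.pow 2) hc)
  have h2 : ContDiffAt ℂ 2 (fun x : ℂ => Complex.log (1 + 4 / x ^ 2)) c :=
    ContDiffAt.comp c (g := Complex.log) (Complex.contDiffAt_log h.2) h1
  have h3 : ContDiffAt ℂ 2 (fun x : ℂ => Complex.exp (Complex.log (1 + 4 / x ^ 2) / 2)) c :=
    (h2.div_const 2).cexp
  have h4 : ContDiffAt ℂ 2 root c :=
    (contDiffAt_id.div_const 2).mul (contDiffAt_const.add h3)
  exact h4.restrict_scalars ℝ

theorem re_quot_pos {z : ℂ} (hz : 1 < ‖z‖) : 0 < ((z - 1) / (z + 1)).re := by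
  have hz1 : z + 1 ≠ 0 := by
    intro h0
    have h1 : z = -1 := eq_neg_of_add_eq_zero_left h0
    rw [h1, norm_neg, norm_one] at hz
    exact lt_irrefl _ hz
  have hpos : 0 < Complex.normSq (z + 1) := Complex.normSq_pos.2 hz1
  rw [Complex.div_re, ← add_div]
  apply div_pos _ hpos
  have h2 : 1 < ‖z‖ ^ 2 := by nlinarith
  rw [← Complex.normSq_eq_norm_sq, Complex.normSq_apply] at h2
  simp only [Complex.sub_re, Complex.sub_im, Complex.add_re, Complex.add_im, Complex.one_re,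
    Complex.one_im]
  nlinarith

theorem LL_slit {c : ℂ} (h : Good c) : (root c - 1) / (root c + 1) ∈ Complex.slitPlane :=
  Complex.mem_slitPlane_iff.2 (Or.inl (re_quot_pos (one_lt_norm_root h)))

theorem LL_continuousAt {c : ℂ} (h : Good c) : ContinuousAt LL c := by
  have h1 : ContinuousAt root c := (root_contDiffAt h).continuousAt
  have hz1 : root c + 1 ≠ 0 := by
    intro h0
    have h1 : root c = -1 := eq_neg_of_add_eq_zero_left h0
    have h2 := one_lt_norm_root h
    rw [h1, norm_neg, norm_one] at h2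
    exact lt_irrefl _ h2
  have h2 : ContinuousAt (fun x => (root x - 1) / (root x + 1)) c :=
    (h1.sub continuousAt_const).div (h1.add continuousAt_const) hz1
  exact h2.clog (LL_slit h)

end P4a177t
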