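import Pool.Agent.Lib.P4a177t.RootA

/-!
# MODULE P4a177t.RootB: the values of `root` and `LL` at real numbers (est. 0.8 h)

PROOF. `t ≠ 0` real. `Good t` by `good_of`. Directly: `log (1 + 4/t^2)` is the real logarithm
(`Complex.ofReal_log`), so `s = exp (log (1 + 4/t^2) / 2) = √(1 + 4/t^2)` is real,
`root t = t/2 (1 + √(1 + 4/t^2))`, a real number of the sign of `t`, of absolute value
`|t|/2 + √(t^2/4 + 1) = exp (arsinh (|t|/2))` (`Real.exp_arsinh`). So the first statement.
Second: `q = (root t - 1) / (root t + 1)` is a real number, positive (`|root t| > 1`), and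
`q - 1/q = -4 / t` (from `root - 1/root = t`: `q - 1/q = ((z-1)^2 - (z+1)^2)/(z^2-1) = -4z/(z^2-1)
= -4 / (z - 1/z)`), i.e. `sinh (log q) = -2 / t` (`Real.sinh_log`: `sinh (log q) = (q - q⁻¹)/2`), so
`log q = arsinh (-2/t) = -arsinh (2/t)`.
-/

set_option autoImplicit false

namespace P4a177t

open P4a177h Function MeasureTheory
open scoped Real

theorem good_real {t : ℝ} (ht : t ≠ 0) : Good (t : ℂ) :=
  good_of (Or.inl (by simpa using ht))

private theorem root_real {t : ℝ} (ht : t ≠ 0) : ∃ R : ℝ, root (t : ℂ) = (R : ℂ) ∧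
    R - R⁻¹ = t ∧ 1 < |R| ∧ 0 < t * R := by
  have hp : (0 : ℝ) < 1 + 4 / t ^ 2 := by positivity
  set R : ℝ := t / 2 * (1 + Real.exp (Real.log (1 + 4 / t ^ 2) / 2)) with hR
  have h1 : root (t : ℂ) = (R : ℂ) := by
    unfold root
    rw [hR]
    push_cast
    rw [← Complex.ofReal_log hp.le |>.symm]
    push_cast
    rfl
  refine ⟨R, h1, ?_, ?_, ?_⟩
  · have h2 := root_sub_inv (good_real ht)
    rw [h1] at h2
    exact_mod_cast h2
  · have h2 := one_lt_norm_root (good_real ht)
    rw [h1, Complex.norm_real, Real.norm_eq_abs] at h2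
    exact h2
  · have h3 : t * R = t ^ 2 / 2 * (1 + Real.exp (Real.log (1 + 4 / t ^ 2) / 2)) := by
      rw [hR]; ring
    rw [h3]
    positivity

theorem log_norm_root_real {t : ℝ} (ht : t ≠ 0) :
    Real.log ‖root (t : ℂ)‖ = Real.arsinh (|t| / 2) := by
  obtain ⟨R, h1, h2, h3, h4⟩ := root_real ht
  rw [h1, Complex.norm_real, Real.norm_eq_abs, ← Real.arsinh_sinh (Real.log |R|),
    Real.sinh_log (by linarith)]
  congr 2
  rcases lt_or_gt_of_ne ht with h | h
  · have hR : R < 0 := by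
      by_contra hc
      push Not at hc
      nlinarith [mul_nonneg hc (neg_nonneg.2 h.le)]
    rw [abs_of_neg hR, abs_of_neg h, ← h2, inv_neg]
    ring
  · have hR : 0 < R := by
      by_contra hc
      push Not at hc
      nlinarith [mul_nonneg (neg_nonneg.2 hc) h.le]
    rw [abs_of_pos hR, abs_of_pos h, h2]

theorem LL_real {t : ℝ} (ht : t ≠ 0) : LL (t : ℂ) = ((-Real.arsinh (2 / t) : ℝ) : ℂ) := by
  obtain ⟨R, h1, h2, h3, h4⟩ := root_real ht
  have h5 : 0 < (R - 1) * (R + 1) := by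
    have : 1 < R ^ 2 := by
      rw [← sq_abs]
      nlinarith
    nlinarith
  have hR : R ≠ 0 := by
    rintro rfl
    simp at h4
  have hR1 : R - 1 ≠ 0 := by
    intro h
    rw [h, zero_mul] at h5
    exact lt_irrefl _ h5
  have hR2 : R + 1 ≠ 0 := by
    intro h
    rw [h, mul_zero] at h5
    exact lt_irrefl _ h5
  have hq : 0 < (R - 1) / (R + 1) := by
    have : (R - 1) / (R + 1) = (R - 1) * (R + 1) / (R + 1) ^ 2 := by
      field_simp
    rw [this]
    positivity
  have h6 : LL (t : ℂ) = ((Real.log ((R - 1) / (R + 1)) : ℝ) : ℂ) := by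
    unfold LL
    rw [h1, Complex.ofReal_log hq.le]
    push_cast
    rfl
  rw [h6]
  congr 1
  rw [← Real.arsinh_neg, ← Real.arsinh_sinh (Real.log ((R - 1) / (R + 1))), Real.sinh_log hq]
  congr 1
  have h7 : t = (R ^ 2 - 1) / R := by
    rw [← h2]
    field_simp
  have h8 : R ^ 2 - 1 ≠ 0 := by
    have : R ^ 2 - 1 = (R - 1) * (R + 1) := by ring
    rw [this]
    exact h5.ne'
  rw [h7, inv_div]
  field_simp
  ring

end P4a177t
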