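import Pool.Agent.Lib.P4a177t.Defs

/-!
# The notions used in the statement of the theorem
-/

set_option autoImplicit false

namespace P4a177t

open P4a177h MvPolynomial

noncomputable section

/-- The hypersurface `∏ (x_i - 1 / x_i) = u` is irreducible over the complex numbers. -/
def GeomIrreducible (m : ℕ) (u : ℤ) : Prop :=
  Irreducible (MvPolynomial.map (algebraMap ℚ ℂ) (eqn m u))

/-- The hypersurface `F = 0` is smooth at its complex points `y` for which `P y` holds: at none of
these points all the partial derivatives of `F` vanish. -/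
def SmoothOn {σ : Type} (F : MvPolynomial σ ℚ) (P : (σ → ℂ) → Prop) : Prop :=
  ∀ y : σ → ℂ, P y → aeval y F = 0 → ∃ j, aeval y (pderiv j F) ≠ 0

/-- The hypersurface `∏ (x_i - 1 / x_i) = u` of the torus is smooth: at none of its complex points
all the partial derivatives of the equation vanish. -/
def Smooth (m : ℕ) (u : ℤ) : Prop :=
  SmoothOn (eqn m u) fun y : Fin (m + 1) → ℂ => ∀ i, y i ≠ 0

/-- The expression `∏ (y_i ^ 2 - z_i ^ 2) - u * ∏ y_i z_i`. -/
def homPoly {n : ℕ} {B : Type*} [CommRing B] (u : ℤ) (y z : Fin n → B) : B :=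
  ∏ i, (y i ^ 2 - z i ^ 2) - (u : B) * ∏ i, (y i * z i)

/-- The multihomogeneous equation `∏ (X_(i,0) ^ 2 - X_(i,1) ^ 2) = u * ∏ X_(i,0) X_(i,1)` of the
closure of the hypersurface in the product of `m + 1` projective lines with the homogeneous
coordinates `X (i, 0)`, `X (i, 1)`. -/
def homEqn (m : ℕ) (u : ℤ) : MvPolynomial (Fin (m + 1) × Fin 2) ℚ :=
  homPoly u (fun i => X (i, 0)) fun i => X (i, 1)

theorem homEqn_def (m : ℕ) (u : ℤ) : homEqn m u =
    ∏ i, (X (i, 0) ^ 2 - X (i, 1) ^ 2) - C (u : ℚ) * ∏ i, (X (i, 0) * X (i, 1)) := by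
  unfold homEqn homPoly
  rw [show (C (u : ℚ) : MvPolynomial (Fin (m + 1) × Fin 2) ℚ) =
    ((u : ℤ) : MvPolynomial (Fin (m + 1) × Fin 2) ℚ) from by simp]

/-- The closure of the hypersurface in the product of `m + 1` projective lines is smooth. -/
def SmoothClosure (m : ℕ) (u : ℤ) : Prop :=
  SmoothOn (homEqn m u) fun y : Fin (m + 1) × Fin 2 → ℂ => ∀ i, y (i, 0) ≠ 0 ∨ y (i, 1) ≠ 0

end

end P4a177t
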